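import Mathlib

/-!
Pelczynski decomposition for `ℓ_∞`-sums, in the form: if `Y` is complemented in `A`, `A` is complemented in
`Y` and `ℓ_∞(A)` is complemented in `A`, then `Y` and `A` are isomorphic. Here `ℓ_∞(A)` is the space of
bounded functions `ℕ →ᵇ A`.
-/

open Set Filter Topology BoundedContinuousFunction

namespace Pool.Agent.R275.LIso

variable {𝕜 : Type*} [RCLike 𝕜]

/-- `Y` is isomorphic to a complemented subspace of `Z`. -/
def Cpl (𝕜 : Type*) [RCLike 𝕜] (Y Z : Type*) [NormedAddCommGroup Y] [NormedSpace 𝕜 Y]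
    [NormedAddCommGroup Z] [NormedSpace 𝕜 Z] : Prop :=
  ∃ (j : Y →L[𝕜] Z) (q : Z →L[𝕜] Y), ∀ y, q (j y) = y

section

variable {A B C D : Type*} [NormedAddCommGroup A] [NormedSpace 𝕜 A] [NormedAddCommGroup B]
  [NormedSpace 𝕜 B] [NormedAddCommGroup C] [NormedSpace 𝕜 C] [NormedAddCommGroup D] [NormedSpace 𝕜 D]

theorem Cpl.trans (h₁ : Cpl 𝕜 A B) (h₂ : Cpl 𝕜 B C) : Cpl 𝕜 A C := by
  obtain ⟨j, q, h⟩ := h₁
  obtain ⟨j', q', h'⟩ := h₂
  exact ⟨j'.comp j, q.comp q', fun y => by simp [h', h]⟩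

theorem Cpl.split (h : Cpl 𝕜 A B) : ∃ W : Submodule 𝕜 B, Nonempty (B ≃L[𝕜] A × W) := by
  obtain ⟨j, q, h⟩ := h
  exact ⟨_, ⟨ContinuousLinearEquiv.equivOfRightInverse q j h⟩⟩

/-- Functoriality of `ℓ_∞`. -/
noncomputable def bmap (e : A ≃L[𝕜] B) : (ℕ →ᵇ A) ≃L[𝕜] (ℕ →ᵇ B) :=
  ContinuousLinearEquiv.equivOfInverse
    ((e : A →L[𝕜] B).compLeftContinuousBounded ℕ) ((e.symm : B →L[𝕜] A).compLeftContinuousBounded ℕ)
    (fun f => by ext n; simp) (fun f => by ext n; simp)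

/-- `ℓ_∞(A × B) = ℓ_∞(A) × ℓ_∞(B)`. -/
noncomputable def bprod : (ℕ →ᵇ (A × B)) ≃L[𝕜] (ℕ →ᵇ A) × (ℕ →ᵇ B) :=
  ContinuousLinearEquiv.equivOfInverse
    (((ContinuousLinearMap.fst 𝕜 A B).compLeftContinuousBounded ℕ).prod
      ((ContinuousLinearMap.snd 𝕜 A B).compLeftContinuousBounded ℕ))
    ((((ContinuousLinearMap.inl 𝕜 A B).compLeftContinuousBounded ℕ).comp
        (ContinuousLinearMap.fst 𝕜 (ℕ →ᵇ A) (ℕ →ᵇ B))) +
      (((ContinuousLinearMap.inr 𝕜 A B).compLeftContinuousBounded ℕ).comp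
        (ContinuousLinearMap.snd 𝕜 (ℕ →ᵇ A) (ℕ →ᵇ B))))
    (fun f => by ext n <;> simp) (fun f => by
      ext n <;> simp)

/-- The element `(a, g 0, g 1, ...)`. -/
noncomputable def bcons (a : A) (g : ℕ →ᵇ A) : ℕ →ᵇ A :=
  BoundedContinuousFunction.ofNormedAddCommGroupDiscrete
    (fun n => Nat.casesOn n a (fun m => g m)) (max ‖a‖ ‖g‖) (by
      intro n
      cases n with
      | zero => exact le_max_left _ _
      | succ m => exact (g.norm_coe_le_norm m).trans (le_max_right _ _))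

@[simp] theorem bcons_zero (a : A) (g : ℕ →ᵇ A) : bcons a g 0 = a := rfl
@[simp] theorem bcons_succ (a : A) (g : ℕ →ᵇ A) (n : ℕ) : bcons a g (n + 1) = g n := rfl

/-- The shift. -/
noncomputable def btail (f : ℕ →ᵇ A) : ℕ →ᵇ A :=
  BoundedContinuousFunction.ofNormedAddCommGroupDiscrete (fun n => f (n + 1)) ‖f‖
    (fun n => f.norm_coe_le_norm (n + 1))

@[simp] theorem btail_apply (f : ℕ →ᵇ A) (n : ℕ) : btail f n = f (n + 1) := rfl

/-- `ℓ_∞(A) = A × ℓ_∞(A)`. -/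
noncomputable def bshift : (ℕ →ᵇ A) ≃L[𝕜] A × (ℕ →ᵇ A) :=
  ContinuousLinearEquiv.equivOfInverse
    (LinearMap.mkContinuous (𝕜 := 𝕜) (𝕜₂ := 𝕜)
      { toFun := fun f => (f 0, btail f)
        map_add' := fun f g => by
          refine Prod.ext rfl ?_
          ext n; rfl
        map_smul' := fun c f => by
          refine Prod.ext rfl ?_
          ext n; rfl } 1 (fun f => by
        rw [one_mul]
        refine max_le (f.norm_coe_le_norm 0) ?_
        exact (BoundedContinuousFunction.norm_le (norm_nonneg f)).2 (fun n => f.norm_coe_le_norm (n + 1))))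
    (LinearMap.mkContinuous (𝕜 := 𝕜) (𝕜₂ := 𝕜)
      { toFun := fun p => bcons p.1 p.2
        map_add' := fun p q => by
          ext n; cases n <;> rfl
        map_smul' := fun c p => by
          ext n; cases n <;> rfl } 1 (fun p => by
        rw [one_mul]
        refine (BoundedContinuousFunction.norm_le (norm_nonneg p)).2 (fun n => ?_)
        cases n with
        | zero => exact norm_fst_le p
        | succ m => exact (p.2.norm_coe_le_norm m).trans (norm_snd_le p)))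
    (fun f => by
      ext n; cases n <;> rfl)
    (fun p => by
      refine Prod.ext rfl ?_
      ext n; rfl)

end

/-- Pelczynski decomposition method. -/
theorem pelczynski {Y A : Type*} [NormedAddCommGroup Y] [NormedSpace 𝕜 Y] [NormedAddCommGroup A]
    [NormedSpace 𝕜 A] (hYA : Cpl 𝕜 Y A) (hAY : Cpl 𝕜 A Y) (hL : Cpl 𝕜 (ℕ →ᵇ A) A) :
    Nonempty (Y ≃L[𝕜] A) := by
  obtain ⟨Z, ⟨e1⟩⟩ := hYA.split
  obtain ⟨V, ⟨e2⟩⟩ := hAY.split
  obtain ⟨W, ⟨e3⟩⟩ := hL.split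
  -- A = A × A
  have h1 : Nonempty (A ≃L[𝕜] A × A) := by
    refine ⟨e3.trans ?_⟩
    refine ((bshift (𝕜 := 𝕜)).prodCongr (ContinuousLinearEquiv.refl 𝕜 W)).trans ?_
    refine (ContinuousLinearEquiv.prodAssoc 𝕜 _ _ _).trans ?_
    exact (ContinuousLinearEquiv.refl 𝕜 A).prodCongr e3.symm
  obtain ⟨e4⟩ := h1
  -- ℓ∞(A) = ℓ∞(Y) × ℓ∞(Z)
  have e5 : (ℕ →ᵇ A) ≃L[𝕜] (ℕ →ᵇ Y) × (ℕ →ᵇ Z) := (bmap e1).trans bprod
  -- Y × A = A
  have e6 : (Y × A) ≃L[𝕜] A := by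
    refine ((ContinuousLinearEquiv.refl 𝕜 Y).prodCongr e3).trans ?_
    refine (ContinuousLinearEquiv.prodAssoc 𝕜 _ _ _).symm.trans ?_
    refine (ContinuousLinearEquiv.prodCongr ?_ (ContinuousLinearEquiv.refl 𝕜 W)).trans e3.symm
    refine ((ContinuousLinearEquiv.refl 𝕜 Y).prodCongr e5).trans ?_
    refine (ContinuousLinearEquiv.prodAssoc 𝕜 _ _ _).symm.trans ?_
    refine (ContinuousLinearEquiv.prodCongr ?_ (ContinuousLinearEquiv.refl 𝕜 _)).trans e5.symm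
    exact (bshift (𝕜 := 𝕜)).symm
  refine ⟨e2.trans ?_⟩
  refine (e4.prodCongr (ContinuousLinearEquiv.refl 𝕜 V)).trans ?_
  refine (ContinuousLinearEquiv.prodAssoc 𝕜 _ _ _).trans ?_
  refine ((ContinuousLinearEquiv.refl 𝕜 A).prodCongr e2.symm).trans ?_
  exact (ContinuousLinearEquiv.prodComm 𝕜 _ _).trans e6

end Pool.Agent.R275.LIso
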