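import Pool.Agent.R275.LIso9

/-!
`L_∞(L_r)` is isomorphic to `B_{r,∞}`.
-/

open Set Filter Topology MeasureTheory BoundedContinuousFunction
open scoped ENNReal

set_option linter.unusedSectionVars false

namespace Pool.Agent.R275.LIso

variable {𝕜 : Type*} [RCLike 𝕜] {r : ℝ≥0∞} [Fact (1 ≤ r)]

section embX

variable {Y : Type*} [NormedAddCommGroup Y] [NormedSpace 𝕜 Y]

theorem memLp_idx (e : ℕ → Lp 𝕜 r μI) (C : ℝ) (he : ∀ k, ‖e k‖ ≤ C) (idx : ℝ → ℕ)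
    (hidx : Measurable idx) : MemLp (fun t => e (idx t)) ∞ μI := by
  refine memLp_top_of_bound ?_ C (Filter.Eventually.of_forall fun t => he _)
  exact ((StronglyMeasurable.of_discrete (f := e)).comp_measurable hidx).aestronglyMeasurable

theorem norm_idx_le (e : ℕ → Lp 𝕜 r μI) (C : ℝ) (hC : 0 ≤ C) (he : ∀ k, ‖e k‖ ≤ C) (idx : ℝ → ℕ)
    (hidx : Measurable idx) : ‖(memLp_idx e C he idx hidx).toLp _‖ ≤ C := by
  rw [Lp.norm_toLp]
  refine ENNReal.toReal_le_of_le_ofReal hC ?_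
  rw [eLpNorm_exponent_top]
  exact eLpNormEssSup_le_of_ae_bound (Filter.Eventually.of_forall fun t => he _)

/-- Functions `t ↦ T (idx t) y`. -/
noncomputable def embX (T : ℕ → Y →L[𝕜] Lp 𝕜 r μI) (hT : ∀ k y, ‖T k y‖ ≤ ‖y‖) (idx : ℝ → ℕ)
    (hidx : Measurable idx) : Y →L[𝕜] XX 𝕜 r :=
  LinearMap.mkContinuous
    { toFun := fun y => (memLp_idx (fun k => T k y) ‖y‖ (fun k => hT k y) idx hidx).toLp _
      map_add' := fun x y => by
        rw [← MemLp.toLp_add]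
        congr 1
        ext1 t
        exact (T (idx t)).map_add x y
      map_smul' := fun c y => by
        rw [RingHom.id_apply, ← MemLp.toLp_const_smul]
        congr 1
        ext1 t
        exact (T (idx t)).map_smul c y } 1 (fun y => by
      rw [one_mul]
      exact norm_idx_le _ _ (norm_nonneg y) (fun k => hT k y) idx hidx)

theorem norm_embX_le (T : ℕ → Y →L[𝕜] Lp 𝕜 r μI) (hT : ∀ k y, ‖T k y‖ ≤ ‖y‖) (idx : ℝ → ℕ)
    (hidx : Measurable idx) (y : Y) : ‖embX T hT idx hidx y‖ ≤ ‖y‖ :=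
  norm_idx_le _ _ (norm_nonneg y) (fun k => hT k y) idx hidx

theorem coeFn_embX (T : ℕ → Y →L[𝕜] Lp 𝕜 r μI) (hT : ∀ k y, ‖T k y‖ ≤ ‖y‖) (idx : ℝ → ℕ)
    (hidx : Measurable idx) (y : Y) : embX T hT idx hidx y =ᵐ[μI] fun t => T (idx t) y :=
  MemLp.coeFn_toLp (memLp_idx (fun k => T k y) ‖y‖ (fun k => hT k y) idx hidx)

theorem intOn_embX (T : ℕ → Y →L[𝕜] Lp 𝕜 r μI) (hT : ∀ k y, ‖T k y‖ ≤ ‖y‖) (idx : ℝ → ℕ)
    (hidx : Measurable idx) (y : Y) (k : ℕ) :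
    intOn 𝕜 (idx ⁻¹' {k}) (embX T hT idx hidx y) = ((μI.real (idx ⁻¹' {k}) : ℝ) : 𝕜) • T k y := by
  rw [intOn_apply]
  have hS : MeasurableSet (idx ⁻¹' {k}) := hidx (measurableSet_singleton k)
  have h1 : ∫ t in idx ⁻¹' {k}, (embX T hT idx hidx y) t ∂μI = ∫ t in idx ⁻¹' {k}, T k y ∂μI := by
    refine setIntegral_congr_ae hS ?_
    filter_upwards [coeFn_embX T hT idx hidx y] with t ht htk
    rw [ht]
    have : idx t = k := htk
    rw [this]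
  rw [h1, setIntegral_const, RCLike.real_smul_eq_coe_smul (K := 𝕜)]

end embX

/-- The step function of level `n` attached to an element of `B_{r,∞}`. -/
noncomputable def SS (hr : r ≠ ∞) (n : ℕ) : BB 𝕜 r →L[𝕜] XX 𝕜 r :=
  embX (fun i => (iom hr n).comp ((rho hr (2 ^ n + i - 1 + 1) (2 ^ n)).comp (ev (2 ^ n + i - 1))))
    (fun i β => by
      change ‖iom hr n (blk hr β n i)‖ ≤ ‖β‖
      rw [norm_iom]
      exact norm_blk_le hr β n i) (dy n) (measurable_dy n)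

theorem jb_SS (hr : r ≠ ∞) {n i : ℕ} (hi : i < 2 ^ n) (β : BB 𝕜 r) :
    jb hr n i (SS hr n β) = blk hr β n i := by
  rw [jb_apply]
  have h1 : intOn 𝕜 (cell n i) (SS hr n β) = ((μI.real (cell n i) : ℝ) : 𝕜) • iom hr n (blk hr β n i) :=
    intOn_embX _ _ (dy n) (measurable_dy n) β i
  rw [h1, measureReal_cell hi, smul_smul]
  have h2 : (2 : 𝕜) ^ n * ((((2 : ℝ) ^ n)⁻¹ : ℝ) : 𝕜) = 1 := by
    push_cast
    exact mul_inv_cancel₀ (pow_ne_zero _ (by norm_num))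
  rw [h2, one_smul, pim_iom]

theorem norm_SS_le (hr : r ≠ ∞) (n : ℕ) (β : BB 𝕜 r) : ‖SS hr n β‖ ≤ ‖β‖ :=
  norm_embX_le _ _ _ _ β

theorem norm_JJ_le (hr : r ≠ ∞) (F : XX 𝕜 r) : ‖JJ hr F‖ ≤ ‖F‖ := by
  refine lp.norm_le_of_forall_le (norm_nonneg _) fun N => ?_
  rw [JJ_apply]
  exact (rho_norm_le hr _ _ _).trans (norm_jb_le hr _ _ F)

/-- Weak limit relation. -/
def IsW (hr : r ≠ ∞) (β γ : BB 𝕜 r) : Prop :=
  ∀ N, Tendsto (fun n => JJ hr (SS hr n β) N) (hyperfilter ℕ : Filter ℕ) (𝓝 (γ N))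

theorem exists_isW (hr : r ≠ ∞) (β : BB 𝕜 r) : ∃ γ : BB 𝕜 r, ‖γ‖ ≤ ‖β‖ ∧ IsW hr β γ := by
  have hb : ∀ N n, ‖JJ hr (SS hr n β) N‖ ≤ ‖β‖ := fun N n =>
    (norm_block_le _ _).trans ((norm_JJ_le hr _).trans (norm_SS_le hr n β))
  have h1 : ∀ N, ∃ v : V 𝕜 r (N + 1), ‖v‖ ≤ ‖β‖ ∧
      Tendsto (fun n => JJ hr (SS hr n β) N) (hyperfilter ℕ : Filter ℕ) (𝓝 v) := by
    intro N
    have _ : ProperSpace (V 𝕜 r (N + 1)) := FiniteDimensional.proper_rclike 𝕜 _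
    obtain ⟨v, hv, hle⟩ := (isCompact_closedBall (0 : V 𝕜 r (N + 1)) ‖β‖).ultrafilter_le_nhds
      ((hyperfilter ℕ).map (fun n => JJ hr (SS hr n β) N)) (by
        rw [Ultrafilter.coe_map, Filter.le_principal_iff]
        refine Filter.mem_map.2 (Filter.univ_mem' fun n => ?_)
        simp only [mem_preimage, Metric.mem_closedBall, dist_zero_right]
        exact hb N n)
    refine ⟨v, by simpa using hv, ?_⟩
    rw [Ultrafilter.coe_map] at hle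
    exact hle
  choose v hv1 hv2 using h1
  refine ⟨⟨v, memℓp_infty ⟨‖β‖, by rintro _ ⟨N, rfl⟩; exact hv1 N⟩⟩, ?_, hv2⟩
  exact lp.norm_le_of_forall_le (norm_nonneg _) hv1

theorem IsW.add {hr : r ≠ ∞} {β γ β' γ' : BB 𝕜 r} (h : IsW hr β γ) (h' : IsW hr β' γ') :
    IsW hr (β + β') (γ + γ') := by
  intro N
  refine ((h N).add (h' N)).congr fun n => ?_
  rw [map_add, map_add]
  rfl

theorem IsW.smul {hr : r ≠ ∞} {β γ : BB 𝕜 r} (a : 𝕜) (h : IsW hr β γ) : IsW hr (a • β) (a • γ) := by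
  intro N
  refine ((h N).const_smul a).congr fun n => ?_
  rw [map_smul, map_smul]
  rfl

theorem IsW.unique {hr : r ≠ ∞} {β γ γ' : BB 𝕜 r} (h : IsW hr β γ) (h' : IsW hr β γ') : γ = γ' := by
  ext N : 2
  exact tendsto_nhds_unique (h N) (h' N)

theorem continuous_ext0 {d : ℕ} (j : ℕ) : Continuous (fun x : V 𝕜 r d => ext0 x j) := by
  refine continuous_iff_continuousAt.2 fun x => ?_
  rw [ContinuousAt, tendsto_iff_norm_sub_tendsto_zero]
  have h1 : Tendsto (fun y : V 𝕜 r d => ‖y - x‖) (𝓝 x) (𝓝 0) :=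
    tendsto_iff_norm_sub_tendsto_zero.1 tendsto_id
  refine squeeze_zero (fun _ => norm_nonneg _) (fun y => ?_) h1
  have : ext0 y j - ext0 x j = ext0 (y - x) j := by
    unfold ext0
    split_ifs <;> simp
  rw [this]
  exact norm_ext0_le _ _

theorem mart_of_isW {hr : r ≠ ∞} {β γ : BB 𝕜 r} (h : IsW hr β γ) : Mart (carr hr γ) := by
  have hl : ∀ m i j, Tendsto (fun n => carr hr (JJ hr (SS hr n β)) m i j) (hyperfilter ℕ : Filter ℕ)
      (𝓝 (carr hr γ m i j)) := by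
    intro m i j
    unfold carr blk
    refine Tendsto.const_mul _ ?_
    exact (((continuous_ext0 j).comp (rho hr (2 ^ m + i - 1 + 1) (2 ^ m)).continuous).tendsto _).comp
      (h (2 ^ m + i - 1))
  intro m i j hi hj
  refine tendsto_nhds_unique ((hl m i j).const_smul (4 : ℝ)) ?_
  refine (((hl (m + 1) (2 * i) (2 * j)).add (hl (m + 1) (2 * i) (2 * j + 1))).add
    ((hl (m + 1) (2 * i + 1) (2 * j)).add (hl (m + 1) (2 * i + 1) (2 * j + 1)))).congr fun n => ?_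
  exact (mart_JJ hr (SS hr n β) m i j hi hj).symm

theorem carr_SS (hr : r ≠ ∞) (F : XX 𝕜 r) (n : ℕ) (k : ℕ) : ∀ m, m + k = n → ∀ i j, i < 2 ^ m → j < 2 ^ m →
    carr hr (JJ hr (SS hr n (JJ hr F))) m i j = carr hr (JJ hr F) m i j := by
  induction k with
  | zero =>
    intro m hm i j hi hj
    obtain rfl : m = n := by omega
    unfold carr
    rw [blk_JJ hr _ hi, jb_SS hr hi]
  | succ k ih =>
    intro m hm i j hi hj
    have h2 : 2 ^ (m + 1) = 2 * 2 ^ m := by rw [pow_succ]; ring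
    have h3 := mart_JJ hr (SS hr n (JJ hr F)) m i j hi hj
    have h4 := mart_JJ hr F m i j hi hj
    rw [ih (m + 1) (by omega) _ _ (by omega) (by omega), ih (m + 1) (by omega) _ _ (by omega) (by omega),
      ih (m + 1) (by omega) _ _ (by omega) (by omega), ih (m + 1) (by omega) _ _ (by omega) (by omega),
      ← h4] at h3
    exact smul_right_injective 𝕜 (by norm_num : (4 : ℝ) ≠ 0) h3

theorem isW_JJ (hr : r ≠ ∞) (F : XX 𝕜 r) : IsW hr (JJ hr F) (JJ hr F) := by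
  intro N
  refine Tendsto.congr' ?_ (tendsto_const_nhds (x := JJ hr F N))
  have h1 : ∀ᶠ n in (hyperfilter ℕ : Filter ℕ), lg N ≤ n := by
    refine Nat.hyperfilter_le_atTop ?_
    exact eventually_ge_atTop (lg N)
  filter_upwards [h1] with n hn
  rw [JJ_apply, JJ_apply]
  congr 1
  refine ext_ext0 fun j hj => ?_
  have h2 := carr_SS hr F n (n - lg N) (lg N) (by omega) (ix N) j (ix_lt N) hj
  unfold carr at h2
  rw [blk_JJ hr _ (ix_lt N), blk_JJ hr _ (ix_lt N)] at h2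
  have h3 : ((wt r (lg N) : ℝ) : 𝕜) ≠ 0 := by
    rw [Ne, RCLike.ofReal_eq_zero]
    exact (wt_pos _).ne'
  exact (mul_left_cancel₀ h3 h2).symm

/-- Combined relation. -/
def IsP (hr : r ≠ ∞) (β : BB 𝕜 r) (G : XX 𝕜 r) : Prop := ∃ γ, IsW hr β γ ∧ IsLim hr γ G

theorem exists_isP (hr : r ≠ ∞) (β : BB 𝕜 r) : ∃ G : XX 𝕜 r, ‖G‖ ≤ ‖β‖ ∧ IsP hr β G := by
  obtain ⟨γ, h1, h2⟩ := exists_isW hr β
  obtain ⟨G, h3, h4⟩ := exists_isLim hr γ (mart_of_isW h2)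
  exact ⟨G, h3.trans h1, γ, h2, h4⟩

theorem IsP.unique {hr : r ≠ ∞} {β : BB 𝕜 r} {G G' : XX 𝕜 r} (h : IsP hr β G) (h' : IsP hr β G') :
    G = G' := by
  obtain ⟨γ, h1, h2⟩ := h
  obtain ⟨γ', h1', h2'⟩ := h'
  obtain rfl := h1.unique h1'
  exact h2.unique h2'

/-- `L_∞(L_r)` is complemented in `B_{r,∞}`. -/
theorem cpl_XB (hr : r ≠ ∞) : Cpl 𝕜 (XX 𝕜 r) (BB 𝕜 r) := by
  choose Q hQ1 hQ2 using exists_isP (𝕜 := 𝕜) (r := r) hr
  let QL : BB 𝕜 r →L[𝕜] XX 𝕜 r := LinearMap.mkContinuous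
    { toFun := Q
      map_add' := fun β β' => by
        refine (hQ2 (β + β')).unique ?_
        obtain ⟨γ, h1, h2⟩ := hQ2 β
        obtain ⟨γ', h1', h2'⟩ := hQ2 β'
        exact ⟨γ + γ', h1.add h1', h2.add h2'⟩
      map_smul' := fun c β => by
        refine (hQ2 (c • β)).unique ?_
        obtain ⟨γ, h1, h2⟩ := hQ2 β
        exact ⟨c • γ, h1.smul c, h2.smul c⟩ } 1 (fun β => by
      rw [one_mul]
      exact hQ1 β)
  refine ⟨JJ hr, QL, fun F => ?_⟩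
  exact (hQ2 (JJ hr F)).unique ⟨JJ hr F, isW_JJ hr F, isLim_JJ hr F⟩

/-- Index of the interval `(1/(N+2), 1/(N+1)]`. -/
noncomputable def inv0 (t : ℝ) : ℕ := ⌊t⁻¹⌋₊ - 1

theorem measurable_inv0 : Measurable inv0 :=
  (measurable_of_countable (fun n : ℕ => n - 1)).comp (Nat.measurable_floor.comp measurable_inv)

theorem measure_inv0_pos (N : ℕ) : 0 < μI.real (inv0 ⁻¹' {N}) := by
  have h1 : Ioc (1 / ((N : ℝ) + 2)) (1 / ((N : ℝ) + 1)) ⊆ inv0 ⁻¹' {N} ∩ Icc (0 : ℝ) 1 := by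
    intro t ht
    have hN : (0 : ℝ) ≤ N := Nat.cast_nonneg N
    have h0 : 0 < t := lt_trans (by positivity) ht.1
    refine ⟨?_, h0.le, ht.2.trans ?_⟩
    · have h2 : ⌊t⁻¹⌋₊ = N + 1 := by
        rw [Nat.floor_eq_iff (by positivity)]
        push_cast
        constructor
        · have := ht.2
          rw [le_div_iff₀ (by positivity)] at this
          rw [← one_div, le_div_iff₀ h0]
          linarith
        · have := ht.1
          rw [div_lt_iff₀ (by positivity)] at this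
          rw [← one_div, div_lt_iff₀ h0]
          linarith
      simp [inv0, h2]
    · rw [div_le_one (by positivity)]
      linarith
  have h3 : 0 < μI (inv0 ⁻¹' {N}) := by
    rw [Measure.restrict_apply (measurable_inv0 (measurableSet_singleton N))]
    refine lt_of_lt_of_le ?_ (measure_mono h1)
    rw [Real.volume_Ioc]
    simp only [ENNReal.ofReal_pos, sub_pos]
    exact one_div_lt_one_div_of_lt (by positivity) (by linarith)
  exact ENNReal.toReal_pos h3.ne' (measure_ne_top _ _)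

theorem le_two_pow (N : ℕ) : N + 1 ≤ 2 ^ N := Nat.lt_two_pow_self

/-- `B_{r,∞}` is complemented in `L_∞(L_r)`. -/
theorem cpl_BX (hr : r ≠ ∞) : Cpl 𝕜 (BB 𝕜 r) (XX 𝕜 r) := by
  let T : ℕ → BB 𝕜 r →L[𝕜] Lp 𝕜 r μI := fun N =>
    (iom hr N).comp ((rho hr (N + 1) (2 ^ N)).comp (ev N))
  have hT : ∀ N β, ‖T N β‖ ≤ ‖β‖ := by
    intro N β
    change ‖iom hr N (rho hr (N + 1) (2 ^ N) (β N))‖ ≤ ‖β‖
    rw [norm_iom]
    exact (rho_norm_le hr _ _ _).trans (norm_block_le β N)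
  let P : ∀ N : ℕ, XX 𝕜 r →L[𝕜] V 𝕜 r (N + 1) := fun N =>
    (rho hr (2 ^ N) (N + 1)).comp ((pim hr N).comp
      ((((μI.real (inv0 ⁻¹' {N}))⁻¹ : ℝ) : 𝕜) • intOn 𝕜 (inv0 ⁻¹' {N})))
  have hP : ∀ N F, ‖P N F‖ ≤ 1 * ‖F‖ := by
    intro N F
    rw [one_mul]
    refine (rho_norm_le hr _ _ _).trans ((pim_norm_le hr N _).trans ?_)
    change ‖(((μI.real (inv0 ⁻¹' {N}))⁻¹ : ℝ) : 𝕜) • intOn 𝕜 (inv0 ⁻¹' {N}) F‖ ≤ ‖F‖
    have h1 : ‖∫ t in inv0 ⁻¹' {N}, F t ∂μI‖ ≤ ‖F‖ * μI.real (inv0 ⁻¹' {N}) :=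
      norm_setIntegral_le_of_norm_le_const_ae (measure_lt_top _ _) (ae_restrict_of_ae (ae_norm_le F))
    have h2 := measure_inv0_pos N
    rw [norm_smul, RCLike.norm_ofReal, abs_of_pos (inv_pos.2 h2), intOn_apply]
    calc (μI.real (inv0 ⁻¹' {N}))⁻¹ * ‖∫ t in inv0 ⁻¹' {N}, F t ∂μI‖
        ≤ (μI.real (inv0 ⁻¹' {N}))⁻¹ * (‖F‖ * μI.real (inv0 ⁻¹' {N})) := by gcongr
      _ = ‖F‖ := by field_simp
  refine ⟨embX T hT inv0 measurable_inv0, toB P 1 zero_le_one hP, fun β => ?_⟩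
  ext N : 2
  rw [toB_apply]
  change rho hr (2 ^ N) (N + 1) (pim hr N ((((μI.real (inv0 ⁻¹' {N}))⁻¹ : ℝ) : 𝕜) •
    intOn 𝕜 (inv0 ⁻¹' {N}) (embX T hT inv0 measurable_inv0 β))) = β N
  rw [intOn_embX, smul_smul, ← RCLike.ofReal_mul, inv_mul_cancel₀ (measure_inv0_pos N).ne',
    RCLike.ofReal_one, one_smul]
  change rho hr (2 ^ N) (N + 1) (pim hr N (iom hr N (rho hr (N + 1) (2 ^ N) (β N)))) = β N
  rw [pim_iom, rho_rho hr (le_two_pow N)]

/-- `L_∞([0,1]; L_r[0,1])` is isomorphic to `B_{r,∞}`. -/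
theorem main (hr : r ≠ ∞) : Nonempty (XX 𝕜 r ≃L[𝕜] BB 𝕜 r) :=
  pelczynski (cpl_XB hr) (cpl_BX hr) (cpl_linfB hr)

end Pool.Agent.R275.LIso
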