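import Pool.Agent.R275.LIso1

/-!
The space `B_{r,∞}`, i.e. the `ℓ_∞`-sum of the spaces `ℓ_r^n`, `n ≥ 1`, and its self-similarity.
-/

open Set Filter Topology BoundedContinuousFunction
open scoped ENNReal

set_option linter.unusedSectionVars false

namespace Pool.Agent.R275.LIso

variable (𝕜 : Type*) [RCLike 𝕜] (r : ℝ≥0∞) [Fact (1 ≤ r)]

/-- `ℓ_r^d`. -/
abbrev V (d : ℕ) : Type _ := PiLp r (fun _ : Fin d => 𝕜)

/-- `B_{r,∞}`: the `ℓ_∞`-sum of `ℓ_r^{n+1}`, `n = 0, 1, 2, ...`. -/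
abbrev BB : Type _ := lp (fun n : ℕ => PiLp r (fun _ : Fin (n + 1) => 𝕜)) ∞

variable {𝕜 r}

theorem toReal_pos (hr : r ≠ ∞) : 0 < r.toReal :=
  ENNReal.toReal_pos (zero_lt_one.trans_le (Fact.out : (1 : ℝ≥0∞) ≤ r)).ne' hr

theorem one_le_toReal (hr : r ≠ ∞) : 1 ≤ r.toReal := by
  have := ENNReal.toReal_mono hr (Fact.out : (1 : ℝ≥0∞) ≤ r)
  simpa using this

/-- Coordinates, extended by zero. -/
noncomputable def ext0 {d : ℕ} (x : V 𝕜 r d) (i : ℕ) : 𝕜 := if h : i < d then x ⟨i, h⟩ else 0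

theorem ext0_lt {d : ℕ} (x : V 𝕜 r d) {i : ℕ} (h : i < d) : ext0 x i = x ⟨i, h⟩ := dif_pos h
theorem ext0_ge {d : ℕ} (x : V 𝕜 r d) {i : ℕ} (h : ¬ i < d) : ext0 x i = 0 := dif_neg h

theorem ext0_add {d : ℕ} (x y : V 𝕜 r d) (i : ℕ) : ext0 (x + y) i = ext0 x i + ext0 y i := by
  unfold ext0; split_ifs <;> simp

theorem ext0_smul {d : ℕ} (c : 𝕜) (x : V 𝕜 r d) (i : ℕ) : ext0 (c • x) i = c * ext0 x i := by
  unfold ext0; split_ifs <;> simp

theorem norm_ext0_le {d : ℕ} (x : V 𝕜 r d) (i : ℕ) : ‖ext0 x i‖ ≤ ‖x‖ := by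
  unfold ext0; split_ifs with h
  · exact PiLp.norm_apply_le x _
  · simp

/-- The vector with given coordinates. -/
noncomputable def mk (𝕜 : Type*) [RCLike 𝕜] (r : ℝ≥0∞) [Fact (1 ≤ r)] (d : ℕ) (f : ℕ → 𝕜) :
    V 𝕜 r d := WithLp.toLp r (fun i : Fin d => f i)

theorem mk_apply (d : ℕ) (f : ℕ → 𝕜) (i : Fin d) : mk 𝕜 r d f i = f i := rfl

theorem ext0_mk (d : ℕ) (f : ℕ → 𝕜) (i : ℕ) : ext0 (mk 𝕜 r d f) i = if i < d then f i else 0 := by
  unfold ext0; split_ifs <;> rfl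

theorem norm_rpow (hr : r ≠ ∞) {d : ℕ} (x : V 𝕜 r d) :
    ‖x‖ ^ r.toReal = ∑ i ∈ Finset.range d, ‖ext0 x i‖ ^ r.toReal := by
  have h0 := toReal_pos hr
  rw [PiLp.norm_eq_sum h0, ← Real.rpow_mul (Finset.sum_nonneg fun i _ => by positivity),
    one_div, inv_mul_cancel₀ h0.ne', Real.rpow_one, Finset.sum_range]
  refine Finset.sum_congr rfl fun i _ => ?_
  rw [ext0_lt x i.2]

theorem norm_le_of_rpow (hr : r ≠ ∞) {d : ℕ} (x : V 𝕜 r d) {C : ℝ} (hC : 0 ≤ C)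
    (h : ∑ i ∈ Finset.range d, ‖ext0 x i‖ ^ r.toReal ≤ C ^ r.toReal) : ‖x‖ ≤ C := by
  rw [← norm_rpow hr] at h
  exact (Real.rpow_le_rpow_iff (norm_nonneg _) hC (toReal_pos hr)).1 h

theorem rho_bound (hr : r ≠ ∞) (a b : ℕ) (x : V 𝕜 r a) : ‖mk 𝕜 r b (ext0 x)‖ ≤ ‖x‖ := by
  refine norm_le_of_rpow hr _ (norm_nonneg x) ?_
  rw [norm_rpow hr]
  have h0 := toReal_pos hr
  calc ∑ i ∈ Finset.range b, ‖ext0 (mk 𝕜 r b (ext0 x)) i‖ ^ r.toReal
      = ∑ i ∈ Finset.range b, ‖ext0 x i‖ ^ r.toReal := by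
        refine Finset.sum_congr rfl fun i hi => ?_
        rw [ext0_mk, if_pos (Finset.mem_range.1 hi)]
    _ = ∑ i ∈ (Finset.range b).filter (fun i => i < a), ‖ext0 x i‖ ^ r.toReal := by
        rw [Finset.sum_filter]
        refine Finset.sum_congr rfl fun i hi => ?_
        split_ifs with h
        · rfl
        · rw [ext0_ge x h, norm_zero, Real.zero_rpow h0.ne']
    _ ≤ ∑ i ∈ Finset.range a, ‖ext0 x i‖ ^ r.toReal := by
        refine Finset.sum_le_sum_of_subset_of_nonneg ?_ (fun i _ _ => by positivity)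
        intro i hi
        simp only [Finset.mem_filter, Finset.mem_range] at hi ⊢
        exact hi.2

/-- Restriction or extension by zero, `ℓ_r^a → ℓ_r^b`. -/
noncomputable def rho (hr : r ≠ ∞) (a b : ℕ) : V 𝕜 r a →L[𝕜] V 𝕜 r b :=
  LinearMap.mkContinuous
    { toFun := fun x => mk 𝕜 r b (ext0 x)
      map_add' := fun x y => by
        ext i; simp [mk_apply, ext0_add]
      map_smul' := fun c x => by
        ext i; simp [mk_apply, ext0_smul] } 1 (fun x => by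
      rw [one_mul]
      exact rho_bound hr a b x)

theorem rho_apply (hr : r ≠ ∞) (a b : ℕ) (x : V 𝕜 r a) : rho hr a b x = mk 𝕜 r b (ext0 x) := rfl

theorem rho_norm_le (hr : r ≠ ∞) (a b : ℕ) (x : V 𝕜 r a) : ‖rho hr a b x‖ ≤ ‖x‖ := by
  rw [rho_apply]
  exact rho_bound hr a b x

theorem ext0_rho (hr : r ≠ ∞) (a b : ℕ) (x : V 𝕜 r a) (i : ℕ) :
    ext0 (rho hr a b x) i = if i < b then ext0 x i else 0 := by
  rw [rho_apply]
  exact ext0_mk _ _ _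

theorem ext_ext0 {d : ℕ} {x y : V 𝕜 r d} (h : ∀ i, i < d → ext0 x i = ext0 y i) : x = y := by
  ext i
  have := h i i.2
  rwa [ext0_lt x i.2, ext0_lt y i.2] at this

theorem rho_rho (hr : r ≠ ∞) {a b : ℕ} (h : a ≤ b) (x : V 𝕜 r a) :
    rho hr b a (rho hr a b x) = x := by
  refine ext_ext0 fun i hi => ?_
  rw [ext0_rho, if_pos hi, ext0_rho, if_pos (hi.trans_le h)]

section maps

variable {Y : Type*} [NormedAddCommGroup Y] [NormedSpace 𝕜 Y]

/-- Evaluation at a block. -/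
noncomputable def ev (N : ℕ) : BB 𝕜 r →L[𝕜] V 𝕜 r (N + 1) :=
  LinearMap.mkContinuous
    { toFun := fun b => b N
      map_add' := fun _ _ => rfl
      map_smul' := fun _ _ => rfl } 1 (fun b => by
      rw [one_mul]
      exact lp.norm_apply_le_norm (by simp) b N)

@[simp] theorem ev_apply (N : ℕ) (b : BB 𝕜 r) : ev N b = b N := rfl

theorem norm_block_le (b : BB 𝕜 r) (N : ℕ) : ‖b N‖ ≤ ‖b‖ := lp.norm_apply_le_norm (by simp) b N

/-- A bounded family of operators into the blocks gives an operator into `B_{r,∞}`. -/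
noncomputable def toB (T : ∀ N : ℕ, Y →L[𝕜] V 𝕜 r (N + 1)) (C : ℝ) (hC : 0 ≤ C)
    (h : ∀ N y, ‖T N y‖ ≤ C * ‖y‖) : Y →L[𝕜] BB 𝕜 r :=
  LinearMap.mkContinuous
    { toFun := fun y => ⟨fun N => T N y, memℓp_infty ⟨C * ‖y‖, by
        rintro _ ⟨N, rfl⟩
        exact h N y⟩⟩
      map_add' := fun x y => by
        ext N : 2
        exact (T N).map_add x y
      map_smul' := fun c x => by
        ext N : 2
        exact (T N).map_smul c x } C (fun y => by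
      refine lp.norm_le_of_forall_le (by positivity) fun N => ?_
      exact h N y)

@[simp] theorem toB_apply (T : ∀ N : ℕ, Y →L[𝕜] V 𝕜 r (N + 1)) (C : ℝ) (hC : 0 ≤ C)
    (h : ∀ N y, ‖T N y‖ ≤ C * ‖y‖) (y : Y) (N : ℕ) : toB T C hC h y N = T N y := rfl

/-- A bounded sequence of operators gives an operator into `ℓ_∞(E)`. -/
noncomputable def toBCF {E : Type*} [NormedAddCommGroup E] [NormedSpace 𝕜 E] (T : ℕ → Y →L[𝕜] E)
    (C : ℝ) (hC : 0 ≤ C) (h : ∀ N y, ‖T N y‖ ≤ C * ‖y‖) : Y →L[𝕜] (ℕ →ᵇ E) :=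
  LinearMap.mkContinuous
    { toFun := fun y => BoundedContinuousFunction.ofNormedAddCommGroupDiscrete (fun N => T N y)
        (C * ‖y‖) (fun N => h N y)
      map_add' := fun x y => by
        ext N
        exact (T N).map_add x y
      map_smul' := fun c x => by
        ext N
        exact (T N).map_smul c x } C (fun y => by
      refine (BoundedContinuousFunction.norm_le (by positivity)).2 fun N => ?_
      exact h N y)

@[simp] theorem toBCF_apply {E : Type*} [NormedAddCommGroup E] [NormedSpace 𝕜 E] (T : ℕ → Y →L[𝕜] E)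
    (C : ℝ) (hC : 0 ≤ C) (h : ∀ N y, ‖T N y‖ ≤ C * ‖y‖) (y : Y) (N : ℕ) :
    toBCF T C hC h y N = T N y := rfl

end maps

/-- `ℓ_∞(B_{r,∞})` is complemented in `B_{r,∞}`. -/
theorem cpl_linfB (hr : r ≠ ∞) : Cpl 𝕜 (ℕ →ᵇ BB 𝕜 r) (BB 𝕜 r) := by
  -- evaluation at `(k, n)`
  let E0 : ℕ → (ℕ →ᵇ BB 𝕜 r) →L[𝕜] BB 𝕜 r := fun k => BoundedContinuousFunction.evalCLM 𝕜 k
  have hE0 : ∀ k g, ‖E0 k g‖ ≤ ‖g‖ := fun k g => g.norm_coe_le_norm k
  let T : ∀ N : ℕ, (ℕ →ᵇ BB 𝕜 r) →L[𝕜] V 𝕜 r (N + 1) := fun N =>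
    (rho hr ((Nat.unpair N).2 + 1) (N + 1)).comp ((ev (Nat.unpair N).2).comp (E0 (Nat.unpair N).1))
  have hT : ∀ N g, ‖T N g‖ ≤ 1 * ‖g‖ := by
    intro N g
    rw [one_mul]
    exact (rho_norm_le hr _ _ _).trans ((norm_block_le _ _).trans (hE0 _ _))
  let S1 : ∀ k n : ℕ, BB 𝕜 r →L[𝕜] V 𝕜 r (n + 1) := fun k n =>
    (rho hr (Nat.pair k n + 1) (n + 1)).comp (ev (Nat.pair k n))
  have hS1 : ∀ k n b, ‖S1 k n b‖ ≤ 1 * ‖b‖ := by
    intro k n b
    rw [one_mul]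
    exact (rho_norm_le hr _ _ _).trans (norm_block_le _ _)
  let S2 : ℕ → BB 𝕜 r →L[𝕜] BB 𝕜 r := fun k => toB (S1 k) 1 zero_le_one (hS1 k)
  have hS2 : ∀ k b, ‖S2 k b‖ ≤ 1 * ‖b‖ := by
    intro k b
    refine lp.norm_le_of_forall_le (by positivity) fun N => ?_
    exact hS1 k N b
  refine ⟨toB T 1 zero_le_one hT, toBCF S2 1 zero_le_one hS2, ?_⟩
  intro g
  ext k : 1
  rw [toBCF_apply]
  ext n : 2
  change (rho hr (Nat.pair k n + 1) (n + 1)) (T (Nat.pair k n) g) = g k n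
  have key : ∀ (N : ℕ) (p : ℕ × ℕ) (hp : p = (k, n)) (hN : n ≤ N),
      (rho hr (N + 1) (n + 1)) ((rho hr (p.2 + 1) (N + 1)) (g p.1 p.2)) = g k n := by
    intro N p hp hN
    subst hp
    exact rho_rho hr (by omega) _
  exact key (Nat.pair k n) (Nat.unpair (Nat.pair k n)) (Nat.unpair_pair k n) (Nat.right_le_pair k n)

end Pool.Agent.R275.LIso
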