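import Pool.Agent.R275.LIso2

/-!
Dyadic cells of `[0,1]` and basic integration facts.
-/

open Set Filter Topology MeasureTheory
open scoped ENNReal

set_option linter.unusedSectionVars false

namespace Pool.Agent.R275.LIso

/-- Lebesgue measure on `[0,1]`. -/
noncomputable abbrev μI : Measure ℝ := (volume : Measure ℝ).restrict (Icc (0 : ℝ) 1)

instance : IsProbabilityMeasure μI := ⟨by simp [μI]⟩

/-- Index of the dyadic cell of level `m`. -/
noncomputable def dy (m : ℕ) (x : ℝ) : ℕ := ⌊(2 : ℝ) ^ m * x⌋₊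

theorem measurable_dy (m : ℕ) : Measurable (dy m) :=
  Nat.measurable_floor.comp (measurable_const.mul measurable_id)

theorem dy_succ (m : ℕ) (x : ℝ) : dy (m + 1) x / 2 = dy m x := by
  unfold dy
  have := Nat.floor_div_natCast ((2 : ℝ) ^ (m + 1) * x) 2
  rw [← this]
  congr 1
  push_cast
  rw [pow_succ]; ring

/-- Dyadic cell. -/
noncomputable def cell (m k : ℕ) : Set ℝ := dy m ⁻¹' {k}

theorem measurableSet_cell (m k : ℕ) : MeasurableSet (cell m k) :=
  measurable_dy m (measurableSet_singleton k)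

theorem mem_cell {m k : ℕ} {x : ℝ} : x ∈ cell m k ↔ dy m x = k := Iff.rfl

theorem cell_disjoint {m k l : ℕ} (h : k ≠ l) : Disjoint (cell m k) (cell m l) := by
  rw [Set.disjoint_left]
  intro x h1 h2
  exact h (h1.symm.trans h2)

theorem cell_inter {m k : ℕ} (hk : k < 2 ^ m) :
    cell m k ∩ Icc (0 : ℝ) 1 = Ico ((k : ℝ) / 2 ^ m) ((k + 1 : ℝ) / 2 ^ m) := by
  have h2 : (0 : ℝ) < 2 ^ m := by positivity
  ext x
  simp only [mem_inter_iff, mem_cell, dy, mem_Icc, mem_Ico]
  constructor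
  · rintro ⟨h, h0, h1⟩
    rw [Nat.floor_eq_iff (by positivity)] at h
    constructor
    · rw [div_le_iff₀ h2]; linarith [h.1]
    · rw [lt_div_iff₀ h2]; linarith [h.2]
  · rintro ⟨h1, h3⟩
    rw [div_le_iff₀ h2] at h1
    rw [lt_div_iff₀ h2] at h3
    have hk' : (k : ℝ) + 1 ≤ 2 ^ m := by exact_mod_cast hk
    have hx0 : 0 ≤ x := by
      by_contra hx
      push Not at hx
      have : x * 2 ^ m < 0 := mul_neg_of_neg_of_pos hx h2
      have : (0 : ℝ) ≤ k := Nat.cast_nonneg k
      linarith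
    refine ⟨?_, hx0, ?_⟩
    · rw [Nat.floor_eq_iff (by positivity)]
      constructor <;> linarith
    · by_contra hx
      push Not at hx
      have : (2 : ℝ) ^ m < x * 2 ^ m := lt_mul_of_one_lt_left h2 hx
      linarith

theorem measure_cell {m k : ℕ} (hk : k < 2 ^ m) : μI (cell m k) = ENNReal.ofReal (((2 : ℝ) ^ m)⁻¹) := by
  rw [Measure.restrict_apply (measurableSet_cell m k), cell_inter hk, Real.volume_Ico]
  congr 1
  ring

theorem measureReal_cell {m k : ℕ} (hk : k < 2 ^ m) : μI.real (cell m k) = ((2 : ℝ) ^ m)⁻¹ := by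
  rw [Measure.real, measure_cell hk, ENNReal.toReal_ofReal (by positivity)]

theorem ae_dy_lt (m : ℕ) : ∀ᵐ x ∂μI, dy m x < 2 ^ m := by
  have h1 : ∀ᵐ x ∂μI, x ≠ 1 := by
    have : μI {(1 : ℝ)} = 0 := by
      rw [Measure.restrict_apply (measurableSet_singleton 1)]
      exact measure_mono_null inter_subset_left (by simp)
    rw [ae_iff]
    simp only [ne_eq, not_not]
    exact this
  have h2 : ∀ᵐ x ∂μI, x ∈ Icc (0 : ℝ) 1 := ae_restrict_mem measurableSet_Icc
  filter_upwards [h1, h2] with x hx1 hx2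
  have hx3 : x < 1 := lt_of_le_of_ne hx2.2 hx1
  have h2 : (0 : ℝ) < 2 ^ m := by positivity
  rw [dy, Nat.floor_lt (by have := hx2.1; positivity)]
  push_cast
  nlinarith

theorem cell_succ (m k : ℕ) : cell m k = cell (m + 1) (2 * k) ∪ cell (m + 1) (2 * k + 1) := by
  ext x
  simp only [mem_union, mem_cell]
  rw [← dy_succ m x]
  omega

theorem measure_cell_ge {m k : ℕ} (hk : ¬ k < 2 ^ m) : μI (cell m k) = 0 := by
  have h := ae_dy_lt m
  rw [ae_iff] at h
  refine measure_mono_null ?_ h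
  intro x hx
  have : dy m x = k := hx
  change ¬ dy m x < 2 ^ m
  rw [this]
  exact hk

/-- Lower integral of a function of the cell index. -/
theorem lintegral_dy (m : ℕ) (g : ℕ → ℝ≥0∞) :
    ∫⁻ x, g (dy m x) ∂μI = ∑ k ∈ Finset.range (2 ^ m), g k * ENNReal.ofReal (((2 : ℝ) ^ m)⁻¹) := by
  rw [← lintegral_map (μ := μI) (f := g) (g := dy m) (measurable_of_countable g) (measurable_dy m),
    lintegral_countable']
  rw [tsum_eq_sum (s := Finset.range (2 ^ m))]
  · refine Finset.sum_congr rfl fun k hk => ?_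
    rw [Measure.map_apply (measurable_dy m) (measurableSet_singleton k)]
    rw [show dy m ⁻¹' {k} = cell m k from rfl, measure_cell (Finset.mem_range.1 hk)]
  · intro k hk
    rw [Measure.map_apply (measurable_dy m) (measurableSet_singleton k)]
    rw [show dy m ⁻¹' {k} = cell m k from rfl, measure_cell_ge (by simpa using hk), mul_zero]

section intOn

variable {𝕜 : Type*} [RCLike 𝕜] {G : Type*} [NormedAddCommGroup G] [NormedSpace ℝ G] [NormedSpace 𝕜 G]
  [SMulCommClass ℝ 𝕜 G] [CompleteSpace G] {q : ℝ≥0∞} [Fact (1 ≤ q)]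

theorem integrable_Lp (u : Lp G q μI) : Integrable (u : ℝ → G) μI :=
  (Lp.memLp u).integrable Fact.out

theorem enorm_setIntegral_le (u : Lp G q μI) (S : Set ℝ) : ‖∫ x in S, u x ∂μI‖ₑ ≤ ‖u‖ₑ := by
  calc ‖∫ x in S, u x ∂μI‖ₑ ≤ ∫⁻ x in S, ‖u x‖ₑ ∂μI := enorm_integral_le_lintegral_enorm _
    _ ≤ ∫⁻ x, ‖u x‖ₑ ∂μI := setLIntegral_le_lintegral _ _
    _ = eLpNorm u 1 μI := (eLpNorm_one_eq_lintegral_enorm).symm
    _ ≤ eLpNorm u q μI := eLpNorm_le_eLpNorm_of_exponent_le Fact.out (Lp.aestronglyMeasurable u)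
    _ = ‖u‖ₑ := (Lp.enorm_def u).symm

theorem norm_setIntegral_le (u : Lp G q μI) (S : Set ℝ) : ‖∫ x in S, u x ∂μI‖ ≤ ‖u‖ :=
  enorm_le_iff_norm_le.1 (enorm_setIntegral_le u S)

variable (𝕜) in
/-- Integration over a set as a bounded operator. -/
noncomputable def intOn (S : Set ℝ) : Lp G q μI →L[𝕜] G :=
  LinearMap.mkContinuous
    { toFun := fun u => ∫ x in S, u x ∂μI
      map_add' := fun u v => by
        rw [← integral_add (integrable_Lp u).integrableOn (integrable_Lp v).integrableOn]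
        exact integral_congr_ae (ae_restrict_of_ae (Lp.coeFn_add u v))
      map_smul' := fun c u => by
        simp only [RingHom.id_apply]
        rw [← integral_smul]
        exact integral_congr_ae (ae_restrict_of_ae (Lp.coeFn_smul c u)) } 1 (fun u => by
      rw [one_mul]
      exact norm_setIntegral_le u S)

@[simp] theorem intOn_apply (S : Set ℝ) (u : Lp G q μI) : intOn 𝕜 S u = ∫ x in S, u x ∂μI := rfl

theorem intOn_union {S T : Set ℝ} (hT : MeasurableSet T) (h : Disjoint S T) (u : Lp G q μI) :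
    intOn 𝕜 (S ∪ T) u = intOn 𝕜 S u + intOn 𝕜 T u := by
  simp only [intOn_apply]
  exact setIntegral_union h hT (integrable_Lp u).integrableOn (integrable_Lp u).integrableOn

theorem intOn_cell_succ (m k : ℕ) (u : Lp G q μI) :
    intOn 𝕜 (cell m k) u = intOn 𝕜 (cell (m + 1) (2 * k)) u + intOn 𝕜 (cell (m + 1) (2 * k + 1)) u := by
  rw [cell_succ]
  exact intOn_union (measurableSet_cell _ _) (cell_disjoint (by omega)) u

end intOn

end Pool.Agent.R275.LIso
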