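import Pool.Agent.R275.LIso3

/-!
The finite-dimensional dyadic pieces of `L_r[0,1]`.
-/

open Set Filter Topology MeasureTheory
open scoped ENNReal

set_option linter.unusedSectionVars false

namespace Pool.Agent.R275.LIso

variable {𝕜 : Type*} [RCLike 𝕜] {r : ℝ≥0∞} [Fact (1 ≤ r)]

/-- The scaling factor `(2^m)^{1-1/r}`. -/
noncomputable def sc (r : ℝ≥0∞) (m : ℕ) : ℝ := ((2 : ℝ) ^ m) ^ (1 - 1 / r.toReal)

/-- The scaling factor `(2^m)^{1/r}`. -/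
noncomputable def wt (r : ℝ≥0∞) (m : ℕ) : ℝ := ((2 : ℝ) ^ m) ^ (1 / r.toReal)

theorem sc_pos (m : ℕ) : 0 < sc r m := by unfold sc; positivity
theorem wt_pos (m : ℕ) : 0 < wt r m := by unfold wt; positivity

theorem sc_mul_wt (m : ℕ) : sc r m * wt r m = 2 ^ m := by
  unfold sc wt
  rw [← Real.rpow_add (by positivity)]
  simp

theorem wt_rpow (hr : r ≠ ∞) (m : ℕ) : wt r m ^ r.toReal = 2 ^ m := by
  unfold wt
  rw [← Real.rpow_mul (by positivity), one_div, inv_mul_cancel₀ (toReal_pos hr).ne', Real.rpow_one]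

/-- Conversion of sums of powers to extended norms. -/
theorem sum_enorm_rpow (hr : r ≠ ∞) (s : Finset ℕ) (f : ℕ → 𝕜) :
    ENNReal.ofReal (∑ i ∈ s, ‖f i‖ ^ r.toReal) = ∑ i ∈ s, ‖f i‖ₑ ^ r.toReal := by
  rw [ENNReal.ofReal_sum_of_nonneg (fun i _ => by positivity)]
  refine Finset.sum_congr rfl fun i _ => ?_
  rw [← ENNReal.ofReal_rpow_of_nonneg (norm_nonneg _) (toReal_pos hr).le, ofReal_norm]

theorem enorm_rpow_V (hr : r ≠ ∞) {d : ℕ} (x : V 𝕜 r d) :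
    ‖x‖ₑ ^ r.toReal = ∑ i ∈ Finset.range d, ‖ext0 x i‖ₑ ^ r.toReal := by
  rw [← sum_enorm_rpow hr, ← norm_rpow hr,
    ← ENNReal.ofReal_rpow_of_nonneg (norm_nonneg _) (toReal_pos hr).le, ofReal_norm]

theorem eLpNorm_rpow (hr : r ≠ ∞) {G : Type*} [NormedAddCommGroup G] (f : ℝ → G) (ν : Measure ℝ) :
    eLpNorm f r ν ^ r.toReal = ∫⁻ x, ‖f x‖ₑ ^ r.toReal ∂ν := by
  have h0 := toReal_pos hr
  rw [eLpNorm_eq_lintegral_rpow_enorm_toReal
    (zero_lt_one.trans_le (Fact.out : (1 : ℝ≥0∞) ≤ r)).ne' hr, ← ENNReal.rpow_mul, one_div,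
    inv_mul_cancel₀ h0.ne', ENNReal.rpow_one]

theorem coef_bound (hr : r ≠ ∞) (u : Lp 𝕜 r μI) {m k : ℕ} (hk : k < 2 ^ m) :
    ‖((sc r m : ℝ) : 𝕜) * intOn 𝕜 (cell m k) u‖ₑ ^ r.toReal ≤
      ∫⁻ x in cell m k, ‖u x‖ₑ ^ r.toReal ∂μI := by
  have h0 := toReal_pos hr
  rw [← eLpNorm_rpow hr]
  refine ENNReal.rpow_le_rpow ?_ h0.le
  have h1 : ‖intOn 𝕜 (cell m k) u‖ₑ ≤ eLpNorm u r (μI.restrict (cell m k)) *
      (μI (cell m k)) ^ (1 - 1 / r.toReal) := by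
    calc ‖intOn 𝕜 (cell m k) u‖ₑ ≤ ∫⁻ x in cell m k, ‖u x‖ₑ ∂μI := enorm_integral_le_lintegral_enorm _
      _ = eLpNorm u 1 (μI.restrict (cell m k)) := (eLpNorm_one_eq_lintegral_enorm).symm
      _ ≤ eLpNorm u r (μI.restrict (cell m k)) *
          (μI.restrict (cell m k)) Set.univ ^ (1 / (1 : ℝ≥0∞).toReal - 1 / r.toReal) :=
        eLpNorm_le_eLpNorm_mul_rpow_measure_univ Fact.out (Lp.aestronglyMeasurable u).restrict
      _ = _ := by simp
  have hM : μI (cell m k) ^ (1 - 1 / r.toReal) = ENNReal.ofReal ((sc r m)⁻¹) := by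
    rw [measure_cell hk, ENNReal.ofReal_rpow_of_pos (by positivity)]
    congr 1
    unfold sc
    rw [Real.inv_rpow (by positivity)]
  have hs : ‖((sc r m : ℝ) : 𝕜)‖ₑ = ENNReal.ofReal (sc r m) := by
    rw [← ofReal_norm, RCLike.norm_ofReal, abs_of_pos (sc_pos m)]
  rw [enorm_mul, hs]
  calc ENNReal.ofReal (sc r m) * ‖intOn 𝕜 (cell m k) u‖ₑ
      ≤ ENNReal.ofReal (sc r m) * (eLpNorm u r (μI.restrict (cell m k)) * ENNReal.ofReal ((sc r m)⁻¹)) := by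
        rw [← hM]; gcongr
    _ = (ENNReal.ofReal (sc r m) * ENNReal.ofReal ((sc r m)⁻¹)) * eLpNorm u r (μI.restrict (cell m k)) := by
        ring
    _ = eLpNorm u r (μI.restrict (cell m k)) := by
        rw [← ENNReal.ofReal_mul (sc_pos m).le, mul_inv_cancel₀ (sc_pos m).ne', ENNReal.ofReal_one, one_mul]

/-- The coordinates of the dyadic averages of `u` at level `m`, normalised. -/
noncomputable def pif (u : Lp 𝕜 r μI) (m : ℕ) : V 𝕜 r (2 ^ m) :=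
  mk 𝕜 r (2 ^ m) (fun k => ((sc r m : ℝ) : 𝕜) * intOn 𝕜 (cell m k) u)

theorem pif_bound (hr : r ≠ ∞) (u : Lp 𝕜 r μI) (m : ℕ) : ‖pif u m‖ ≤ ‖u‖ := by
  have h0 := toReal_pos hr
  refine norm_le_of_rpow hr _ (norm_nonneg u) ?_
  have h1 : ∑ i ∈ Finset.range (2 ^ m), ‖ext0 (pif u m) i‖ₑ ^ r.toReal ≤ ‖u‖ₑ ^ r.toReal := by
    calc ∑ i ∈ Finset.range (2 ^ m), ‖ext0 (pif u m) i‖ₑ ^ r.toReal
        ≤ ∑ i ∈ Finset.range (2 ^ m), ∫⁻ x in cell m i, ‖u x‖ₑ ^ r.toReal ∂μI := by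
          refine Finset.sum_le_sum fun i hi => ?_
          rw [pif, ext0_mk, if_pos (Finset.mem_range.1 hi)]
          exact coef_bound hr u (Finset.mem_range.1 hi)
      _ = ∫⁻ x in ⋃ i ∈ Finset.range (2 ^ m), cell m i, ‖u x‖ₑ ^ r.toReal ∂μI := by
          rw [lintegral_biUnion_finset]
          · intro i _ j _ hij
            exact cell_disjoint hij
          · intro i _
            exact measurableSet_cell m i
      _ ≤ ∫⁻ x, ‖u x‖ₑ ^ r.toReal ∂μI := setLIntegral_le_lintegral _ _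
      _ = ‖u‖ₑ ^ r.toReal := by rw [← eLpNorm_rpow hr, Lp.enorm_def]
  rw [← sum_enorm_rpow hr, ← ofReal_norm,
    ENNReal.ofReal_rpow_of_nonneg (norm_nonneg _) h0.le] at h1
  exact (ENNReal.ofReal_le_ofReal_iff (by positivity)).1 h1

/-- `L_r → ℓ_r^{2^m}`. -/
noncomputable def pim (hr : r ≠ ∞) (m : ℕ) : Lp 𝕜 r μI →L[𝕜] V 𝕜 r (2 ^ m) :=
  LinearMap.mkContinuous
    { toFun := fun u => pif u m
      map_add' := fun u v => by
        ext i
        simp only [pif, PiLp.add_apply, mk_apply, map_add, mul_add]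
      map_smul' := fun c u => by
        ext i
        simp only [pif, PiLp.smul_apply, mk_apply, map_smul, RingHom.id_apply, smul_eq_mul]
        ring } 1 (fun u => by
      rw [one_mul]
      exact pif_bound hr u m)

theorem pim_apply (hr : r ≠ ∞) (m : ℕ) (u : Lp 𝕜 r μI) : pim hr m u = pif u m := rfl

theorem pim_norm_le (hr : r ≠ ∞) (m : ℕ) (u : Lp 𝕜 r μI) : ‖pim hr m u‖ ≤ ‖u‖ := pif_bound hr u m

theorem ext0_pim (hr : r ≠ ∞) (m : ℕ) (u : Lp 𝕜 r μI) {i : ℕ} (hi : i < 2 ^ m) :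
    ext0 (pim hr m u) i = ((sc r m : ℝ) : 𝕜) * intOn 𝕜 (cell m i) u := by
  rw [pim_apply, pif, ext0_mk, if_pos hi]

/-- Step function with given normalised values. -/
noncomputable def iof (m : ℕ) (a : V 𝕜 r (2 ^ m)) (x : ℝ) : 𝕜 :=
  ((wt r m : ℝ) : 𝕜) * ext0 a (dy m x)

theorem measurable_iof (m : ℕ) (a : V 𝕜 r (2 ^ m)) : Measurable (iof m a) :=
  (measurable_of_countable (fun n => ((wt r m : ℝ) : 𝕜) * ext0 a n)).comp (measurable_dy m)

theorem memLp_iof (m : ℕ) (a : V 𝕜 r (2 ^ m)) : MemLp (iof m a) r μI := by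
  refine MemLp.of_bound (measurable_iof m a).aestronglyMeasurable (wt r m * ‖a‖) ?_
  refine Filter.Eventually.of_forall fun x => ?_
  rw [iof, norm_mul, RCLike.norm_ofReal, abs_of_pos (wt_pos m)]
  exact mul_le_mul_of_nonneg_left (norm_ext0_le _ _) (wt_pos m).le

theorem eLpNorm_iof (hr : r ≠ ∞) (m : ℕ) (a : V 𝕜 r (2 ^ m)) : eLpNorm (iof m a) r μI = ‖a‖ₑ := by
  have h0 := toReal_pos hr
  refine (ENNReal.rpow_left_injective h0.ne') ?_
  change eLpNorm (iof m a) r μI ^ r.toReal = ‖a‖ₑ ^ r.toReal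
  rw [eLpNorm_rpow hr, enorm_rpow_V hr]
  have := lintegral_dy m (fun k => ‖((wt r m : ℝ) : 𝕜) * ext0 a k‖ₑ ^ r.toReal)
  unfold iof
  rw [this]
  refine Finset.sum_congr rfl fun i _ => ?_
  have hw : ‖((wt r m : ℝ) : 𝕜)‖ₑ ^ r.toReal = ENNReal.ofReal (2 ^ m) := by
    rw [← ofReal_norm, RCLike.norm_ofReal, abs_of_pos (wt_pos m),
      ENNReal.ofReal_rpow_of_pos (wt_pos m), wt_rpow hr]
  rw [enorm_mul, ENNReal.mul_rpow_of_nonneg _ _ h0.le, hw, mul_right_comm,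
    ← ENNReal.ofReal_mul (by positivity), mul_inv_cancel₀ (by positivity), ENNReal.ofReal_one, one_mul]

/-- `ℓ_r^{2^m} → L_r`. -/
noncomputable def iom (hr : r ≠ ∞) (m : ℕ) : V 𝕜 r (2 ^ m) →L[𝕜] Lp 𝕜 r μI :=
  LinearMap.mkContinuous
    { toFun := fun a => (memLp_iof m a).toLp _
      map_add' := fun a b => by
        rw [← MemLp.toLp_add]
        congr 1
        ext x
        simp only [Pi.add_apply, iof, ext0_add, mul_add]
      map_smul' := fun c a => by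
        rw [RingHom.id_apply, ← MemLp.toLp_const_smul]
        congr 1
        ext x
        simp only [Pi.smul_apply, iof, ext0_smul, smul_eq_mul]
        ring } 1 (fun a => by
      rw [one_mul]
      change ‖(memLp_iof m a).toLp _‖ ≤ ‖a‖
      rw [Lp.norm_toLp, eLpNorm_iof hr, toReal_enorm])

theorem iom_apply (hr : r ≠ ∞) (m : ℕ) (a : V 𝕜 r (2 ^ m)) : iom hr m a = (memLp_iof m a).toLp _ := rfl

theorem norm_iom (hr : r ≠ ∞) (m : ℕ) (a : V 𝕜 r (2 ^ m)) : ‖iom hr m a‖ = ‖a‖ := by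
  rw [iom_apply, Lp.norm_toLp, eLpNorm_iof hr, toReal_enorm]

theorem coeFn_iom (hr : r ≠ ∞) (m : ℕ) (a : V 𝕜 r (2 ^ m)) : iom hr m a =ᵐ[μI] iof m a :=
  MemLp.coeFn_toLp (memLp_iof m a)

theorem intOn_iom (hr : r ≠ ∞) (m : ℕ) (a : V 𝕜 r (2 ^ m)) {k : ℕ} (hk : k < 2 ^ m) :
    intOn 𝕜 (cell m k) (iom hr m a) = ((((2 : ℝ) ^ m)⁻¹ * wt r m : ℝ) : 𝕜) * ext0 a k := by
  rw [intOn_apply]
  have h1 : ∫ x in cell m k, (iom hr m a) x ∂μI = ∫ x in cell m k, ((wt r m : ℝ) : 𝕜) * ext0 a k ∂μI := by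
    refine setIntegral_congr_ae (measurableSet_cell m k) ?_
    filter_upwards [coeFn_iom hr m a] with x hx hxk
    rw [hx, iof, mem_cell.1 hxk]
  rw [h1, setIntegral_const, measureReal_cell hk]
  push_cast
  rw [RCLike.real_smul_eq_coe_mul]
  push_cast
  ring

theorem pim_iom (hr : r ≠ ∞) (m : ℕ) (a : V 𝕜 r (2 ^ m)) : pim hr m (iom hr m a) = a := by
  refine ext_ext0 fun i hi => ?_
  rw [ext0_pim hr m _ hi, intOn_iom hr m a hi, ← mul_assoc, ← RCLike.ofReal_mul]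
  have : sc r m * (((2 : ℝ) ^ m)⁻¹ * wt r m) = 1 := by
    rw [mul_left_comm, sc_mul_wt, inv_mul_cancel₀ (by positivity)]
  rw [this]
  simp

end Pool.Agent.R275.LIso
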