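import Pool.Agent.R275.LIso4

/-!
Measurability: functions with values in `L_r` versus functions of two variables.
-/

open Set Filter Topology MeasureTheory
open scoped ENNReal

set_option linter.unusedSectionVars false

namespace Pool.Agent.R275.LIso

theorem stronglyMeasurable_of_dist {α E : Type*} [MeasurableSpace α] [NormedAddCommGroup E]
    [SecondCountableTopology E] (F : α → E) (h : ∀ u : E, Measurable (fun t => ‖F t - u‖)) :
    StronglyMeasurable F := by
  let _ : MeasurableSpace E := borel E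
  have _ : BorelSpace E := ⟨rfl⟩
  refine Measurable.stronglyMeasurable ?_
  refine measurable_of_isOpen fun U hU => ?_
  let D : ℕ → E := TopologicalSpace.denseSeq E
  have hD : DenseRange D := TopologicalSpace.denseRange_denseSeq E
  have hU' : U = ⋃ (n : ℕ) (k : ℕ) (_ : Metric.ball (D n) (1 / ((k : ℝ) + 1)) ⊆ U),
      Metric.ball (D n) (1 / ((k : ℝ) + 1)) := by
    refine Set.Subset.antisymm ?_ ?_
    · intro x hx
      obtain ⟨ε, hε, hb⟩ := Metric.isOpen_iff.1 hU x hx
      obtain ⟨k, hk⟩ := exists_nat_one_div_lt (half_pos hε)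
      obtain ⟨n, hn⟩ := hD.exists_dist_lt x (ε := 1 / ((k : ℝ) + 1)) (by positivity)
      simp only [mem_iUnion]
      refine ⟨n, k, ?_, ?_⟩
      · intro y hy
        apply hb
        rw [Metric.mem_ball] at hy ⊢
        calc dist y x ≤ dist y (D n) + dist (D n) x := dist_triangle _ _ _
          _ < ε / 2 + ε / 2 := by
              have h1 := hy.trans hk
              have h2 := hn.trans hk
              rw [dist_comm] at h2
              linarith
          _ = ε := by ring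
      · rw [Metric.mem_ball]; exact hn
    · exact iUnion_subset fun n => iUnion_subset fun k => iUnion_subset fun hk => hk
  rw [hU']
  simp only [preimage_iUnion]
  refine MeasurableSet.iUnion fun n => MeasurableSet.iUnion fun k => MeasurableSet.iUnion fun _ => ?_
  have : F ⁻¹' Metric.ball (D n) (1 / ((k : ℝ) + 1)) = (fun t => ‖F t - D n‖) ⁻¹' Iio (1 / ((k : ℝ) + 1)) := by
    ext t
    simp [dist_eq_norm]
  rw [this]
  exact h (D n) measurableSet_Iio

variable {𝕜 : Type*} [RCLike 𝕜] {r : ℝ≥0∞} [Fact (1 ≤ r)]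

theorem measurable_eLpNorm_sec (hr : r ≠ ∞) (h : ℝ × ℝ → 𝕜) (hh : Measurable h) :
    Measurable (fun t => eLpNorm (fun x => h (t, x)) r μI) := by
  have h0 := toReal_pos hr
  have : (fun t => eLpNorm (fun x => h (t, x)) r μI) =
      fun t => (∫⁻ x, ‖h (t, x)‖ₑ ^ r.toReal ∂μI) ^ (1 / r.toReal) := by
    funext t
    exact eLpNorm_eq_lintegral_rpow_enorm_toReal
      (zero_lt_one.trans_le (Fact.out : (1 : ℝ≥0∞) ≤ r)).ne' hr
  rw [this]
  refine Measurable.pow_const ?_ _
  exact Measurable.lintegral_prod_right' (hh.enorm.pow_const _)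

open Classical in
/-- The section of `h` at `t`, as an element of `L_r` (zero if it is not in `L_r`). -/
noncomputable def sec (r : ℝ≥0∞) (h : ℝ × ℝ → 𝕜) (t : ℝ) : Lp 𝕜 r μI :=
  if hh : MemLp (fun x => h (t, x)) r μI then hh.toLp _ else 0

theorem sec_of {h : ℝ × ℝ → 𝕜} {t : ℝ} (hh : MemLp (fun x => h (t, x)) r μI) :
    sec r h t = hh.toLp _ := dif_pos hh

theorem coeFn_sec {h : ℝ × ℝ → 𝕜} {t : ℝ} (hh : MemLp (fun x => h (t, x)) r μI) :
    sec r h t =ᵐ[μI] fun x => h (t, x) := by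
  rw [sec_of hh]
  exact MemLp.coeFn_toLp hh

theorem stronglyMeasurable_sec (hr : r ≠ ∞) (h : ℝ × ℝ → 𝕜) (hh : Measurable h) :
    StronglyMeasurable (sec r h) := by
  have _ : Fact (r ≠ ∞) := ⟨hr⟩
  have hsec : ∀ t, Measurable (fun x => h (t, x)) := fun t => hh.comp measurable_prodMk_left
  refine stronglyMeasurable_of_dist _ fun u => ?_
  have hu : Measurable (u : ℝ → 𝕜) := (Lp.stronglyMeasurable u).measurable
  have h1 : (fun t => ‖sec r h t - u‖) = fun t =>
      {t | eLpNorm (fun x => h (t, x)) r μI < ∞}.indicator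
        (fun t => (eLpNorm (fun x => h (t, x) - u x) r μI).toReal) t +
      {t | eLpNorm (fun x => h (t, x)) r μI < ∞}ᶜ.indicator (fun _ => ‖u‖) t := by
    funext t
    by_cases ht : eLpNorm (fun x => h (t, x)) r μI < ∞
    · have hm : MemLp (fun x => h (t, x)) r μI := ⟨(hsec t).aestronglyMeasurable, ht⟩
      have hnm : t ∉ {t | eLpNorm (fun x => h (t, x)) r μI < ∞}ᶜ := fun hc => hc ht
      rw [indicator_of_mem (by exact ht), indicator_of_notMem hnm, add_zero, sec_of hm]
      have hu' : u = (Lp.memLp u).toLp _ := (Lp.toLp_coeFn u (Lp.memLp u)).symm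
      conv_lhs => rw [hu']
      rw [← MemLp.toLp_sub, Lp.norm_toLp]
      rfl
    · have hm : ¬ MemLp (fun x => h (t, x)) r μI := fun hm => ht hm.2
      rw [indicator_of_notMem (by exact ht), indicator_of_mem (by exact ht), zero_add, sec, dif_neg hm,
        zero_sub, norm_neg]
  rw [h1]
  have hset : MeasurableSet {t | eLpNorm (fun x => h (t, x)) r μI < ∞} :=
    measurable_eLpNorm_sec hr h hh measurableSet_Iio
  refine Measurable.add ?_ ?_
  · refine Measurable.indicator ?_ hset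
    have := measurable_eLpNorm_sec (r := r) hr (fun p : ℝ × ℝ => h p - u p.2)
      (hh.sub (hu.comp measurable_snd))
    exact this.ennreal_toReal
  · exact measurable_const.indicator hset.compl

/-- Fast convergence in `L_r` implies almost everywhere convergence. -/
theorem ae_tendsto_of_fast (g : ℕ → Lp 𝕜 r μI) (g₀ : Lp 𝕜 r μI)
    (h : ∀ m, ‖g₀ - g m‖ < (1 / 2 : ℝ) ^ m) :
    ∀ᵐ x ∂μI, Tendsto (fun m => g m x) atTop (𝓝 (g₀ x)) := by
  have h1 : ∀ m, ∫⁻ x, ‖(g₀ - g m : Lp 𝕜 r μI) x‖ₑ ∂μI ≤ ENNReal.ofReal ((1 / 2 : ℝ) ^ m) := by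
    intro m
    calc ∫⁻ x, ‖(g₀ - g m : Lp 𝕜 r μI) x‖ₑ ∂μI = eLpNorm (g₀ - g m : Lp 𝕜 r μI) 1 μI :=
          (eLpNorm_one_eq_lintegral_enorm).symm
      _ ≤ eLpNorm (g₀ - g m : Lp 𝕜 r μI) r μI :=
          eLpNorm_le_eLpNorm_of_exponent_le Fact.out (Lp.aestronglyMeasurable _)
      _ = ‖g₀ - g m‖ₑ := (Lp.enorm_def _).symm
      _ = ENNReal.ofReal ‖g₀ - g m‖ := (ofReal_norm _).symm
      _ ≤ _ := ENNReal.ofReal_le_ofReal (h m).le
  have hmeas : ∀ m, AEMeasurable (fun x => ‖(g₀ - g m : Lp 𝕜 r μI) x‖ₑ) μI := fun m =>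
    (Lp.aestronglyMeasurable _).enorm
  have h2 : ∫⁻ x, ∑' m, ‖(g₀ - g m : Lp 𝕜 r μI) x‖ₑ ∂μI ≠ ∞ := by
    rw [lintegral_tsum hmeas]
    refine ne_top_of_le_ne_top ?_ (ENNReal.tsum_le_tsum h1)
    rw [← ENNReal.ofReal_tsum_of_nonneg (fun m => by positivity)
      (summable_geometric_of_lt_one (by norm_num) (by norm_num))]
    exact ENNReal.ofReal_ne_top
  have h3 := ae_lt_top' (AEMeasurable.tsum hmeas) h2
  have h4 : ∀ᵐ x ∂μI, ∀ m, (g₀ - g m : Lp 𝕜 r μI) x = g₀ x - g m x :=
    ae_all_iff.2 fun m => Lp.coeFn_sub g₀ (g m)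
  filter_upwards [h3, h4] with x hx hx4
  have h5 : Tendsto (fun m => ‖(g₀ - g m : Lp 𝕜 r μI) x‖ₑ) atTop (𝓝 0) :=
    ENNReal.tendsto_atTop_zero_of_tsum_ne_top hx.ne
  simp only [hx4] at h5
  rw [tendsto_iff_norm_sub_tendsto_zero]
  have h6 : Tendsto (fun m => (‖g₀ x - g m x‖ₑ).toReal) atTop (𝓝 0) := by
    have := (ENNReal.tendsto_toReal (ENNReal.zero_ne_top)).comp h5
    rw [ENNReal.toReal_zero] at this
    exact this
  refine h6.congr fun m => ?_
  rw [toReal_enorm, norm_sub_rev]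

/-- Joint version of an `L_r`-valued strongly measurable function. -/
theorem exists_joint (hr : r ≠ ∞) (F : ℝ → Lp 𝕜 r μI) (hF : StronglyMeasurable F) :
    ∃ h : ℝ × ℝ → 𝕜, Measurable h ∧ ∀ t, ∀ᵐ x ∂μI, h (t, x) = F t x := by
  classical
  have _ : Fact (r ≠ ∞) := ⟨hr⟩
  let D : ℕ → Lp 𝕜 r μI := TopologicalSpace.denseSeq _
  have hD : DenseRange D := TopologicalSpace.denseRange_denseSeq _
  have hex : ∀ (m : ℕ) (p : ℝ × ℝ), ∃ n, ‖F p.1 - D n‖ < (1 / 2 : ℝ) ^ m := by
    intro m p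
    obtain ⟨n, hn⟩ := hD.exists_dist_lt (F p.1) (ε := (1 / 2 : ℝ) ^ m) (by positivity)
    exact ⟨n, by rwa [← dist_eq_norm]⟩
  let H : ℕ → ℝ × ℝ → 𝕜 := fun m p => D (Nat.find (hex m p)) p.2
  have hH : ∀ m, Measurable (H m) := by
    intro m
    refine Measurable.find (f := fun n (p : ℝ × ℝ) => D n p.2) ?_ ?_ (hex m)
    · intro n
      exact (Lp.stronglyMeasurable (D n)).measurable.comp measurable_snd
    · intro n
      have : Measurable (fun p : ℝ × ℝ => ‖F p.1 - D n‖) :=
        ((hF.sub stronglyMeasurable_const).norm.measurable).comp measurable_fst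
      exact this measurableSet_Iio
  refine ⟨fun p => limUnder atTop (fun m => H m p), ?_, ?_⟩
  · exact (StronglyMeasurable.limUnder (fun m => (hH m).stronglyMeasurable)).measurable
  · intro t
    have h1 := ae_tendsto_of_fast (fun m => D (Nat.find (hex m (t, 0)))) (F t)
      (fun m => Nat.find_spec (hex m (t, 0)))
    filter_upwards [h1] with x hx
    exact hx.limUnder_eq

end Pool.Agent.R275.LIso
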