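import Pool.Agent.R275.LIso5

/-!
Dyadic martingales on the square.
-/

open Set Filter Topology MeasureTheory
open scoped ENNReal

set_option linter.unusedSectionVars false

namespace Pool.Agent.R275.LIso

/-- Lebesgue measure on the square. -/
noncomputable abbrev νI : Measure (ℝ × ℝ) := μI.prod μI

/-- Index of the dyadic square. -/
noncomputable def dd (m : ℕ) (p : ℝ × ℝ) : ℕ × ℕ := (dy m p.1, dy m p.2)

theorem measurable_dd (m : ℕ) : Measurable (dd m) :=
  ((measurable_dy m).comp measurable_fst).prodMk ((measurable_dy m).comp measurable_snd)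

theorem dd_succ (m : ℕ) (p : ℝ × ℝ) : dd m p = ((dd (m + 1) p).1 / 2, (dd (m + 1) p).2 / 2) := by
  simp only [dd, dy_succ]

/-- The dyadic filtration. -/
noncomputable def fil : Filtration ℕ (inferInstance : MeasurableSpace (ℝ × ℝ)) where
  seq := fun m => MeasurableSpace.comap (dd m) ⊤
  mono' := by
    refine monotone_nat_of_le_succ fun m => ?_
    intro s hs
    obtain ⟨S, -, rfl⟩ := hs
    refine ⟨(fun q : ℕ × ℕ => (q.1 / 2, q.2 / 2)) ⁻¹' S, trivial, ?_⟩
    ext p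
    simp only [mem_preimage, dd_succ m p]
  le' := by
    intro m s hs
    obtain ⟨S, -, rfl⟩ := hs
    exact measurable_dd m (MeasurableSet.of_discrete)

/-- Dyadic square. -/
noncomputable def sq (m i j : ℕ) : Set (ℝ × ℝ) := cell m i ×ˢ cell m j

theorem measurableSet_sq (m i j : ℕ) : MeasurableSet (sq m i j) :=
  (measurableSet_cell m i).prod (measurableSet_cell m j)

theorem sq_eq (m i j : ℕ) : sq m i j = dd m ⁻¹' {(i, j)} := by
  ext p
  simp [sq, dd, mem_cell, Prod.ext_iff]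

theorem measureReal_sq {m i j : ℕ} (hi : i < 2 ^ m) (hj : j < 2 ^ m) :
    νI.real (sq m i j) = ((2 : ℝ) ^ m)⁻¹ * ((2 : ℝ) ^ m)⁻¹ := by
  rw [sq, Measure.real, Measure.prod_prod, ENNReal.toReal_mul]
  change μI.real (cell m i) * μI.real (cell m j) = _
  rw [measureReal_cell hi, measureReal_cell hj]

theorem measure_sq_ge {m i j : ℕ} (h : ¬ (i < 2 ^ m ∧ j < 2 ^ m)) : νI (sq m i j) = 0 := by
  rw [sq, Measure.prod_prod]
  by_cases hi : i < 2 ^ m
  · have hj : ¬ j < 2 ^ m := fun hj => h ⟨hi, hj⟩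
    rw [measure_cell_ge hj, mul_zero]
  · rw [measure_cell_ge hi, zero_mul]

/-- Equality of integrals over squares implies equality of integrals over all sets of the `σ`-algebra. -/
theorem setIntegral_eq_of_sq {G : Type*} [NormedAddCommGroup G] [NormedSpace ℝ G] (m : ℕ)
    {f g : ℝ × ℝ → G} (hf : Integrable f νI) (hg : Integrable g νI)
    (h : ∀ i j, i < 2 ^ m → j < 2 ^ m → ∫ p in sq m i j, f p ∂νI = ∫ p in sq m i j, g p ∂νI)
    {s : Set (ℝ × ℝ)} (hs : MeasurableSet[fil m] s) : ∫ p in s, f p ∂νI = ∫ p in s, g p ∂νI := by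
  obtain ⟨S, -, rfl⟩ := hs
  have hU : dd m ⁻¹' S = ⋃ k : S, dd m ⁻¹' {(k : ℕ × ℕ)} := by
    ext p
    simp
  have hm : ∀ k : S, MeasurableSet (dd m ⁻¹' {(k : ℕ × ℕ)}) := fun k =>
    measurable_dd m (measurableSet_singleton _)
  have hd : Pairwise (Function.onFun Disjoint fun k : S => dd m ⁻¹' {(k : ℕ × ℕ)}) := by
    intro a b hab
    rw [Function.onFun, Set.disjoint_left]
    intro p hp hq
    exact hab (Subtype.ext (hp.symm.trans hq))
  rw [hU]
  have h1 := hasSum_integral_iUnion hm hd hf.integrableOn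
  have h2 := hasSum_integral_iUnion hm hd hg.integrableOn
  have h3 : (fun k : S => ∫ p in dd m ⁻¹' {(k : ℕ × ℕ)}, f p ∂νI) =
      fun k : S => ∫ p in dd m ⁻¹' {(k : ℕ × ℕ)}, g p ∂νI := by
    funext k
    obtain ⟨⟨i, j⟩, hk⟩ := k
    change ∫ p in dd m ⁻¹' {(i, j)}, f p ∂νI = ∫ p in dd m ⁻¹' {(i, j)}, g p ∂νI
    rw [← sq_eq]
    by_cases hij : i < 2 ^ m ∧ j < 2 ^ m
    · exact h i j hij.1 hij.2
    · rw [setIntegral_measure_zero _ (measure_sq_ge hij), setIntegral_measure_zero _ (measure_sq_ge hij)]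
  rw [h3] at h1
  exact h1.unique h2

/-- Step function with values given on squares. -/
noncomputable def stp {G : Type*} (c : ℕ → ℕ → ℕ → G) (m : ℕ) (p : ℝ × ℝ) : G :=
  c m (dy m p.1) (dy m p.2)

theorem ae_dd_lt (m : ℕ) : ∀ᵐ p ∂νI, dy m p.1 < 2 ^ m ∧ dy m p.2 < 2 ^ m := by
  have h1 : ∀ᵐ p ∂νI, dy m p.1 < 2 ^ m :=
    Measure.quasiMeasurePreserving_fst.ae (ae_dy_lt m)
  have h2 : ∀ᵐ p ∂νI, dy m p.2 < 2 ^ m :=
    Measure.quasiMeasurePreserving_snd.ae (ae_dy_lt m)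
  filter_upwards [h1, h2] with p h1 h2 using ⟨h1, h2⟩

section stp

variable {G : Type*} [NormedAddCommGroup G] [NormedSpace ℝ G] [CompleteSpace G] [MeasurableSpace G]
  [BorelSpace G] [SecondCountableTopology G]

theorem stronglyMeasurable_stp (c : ℕ → ℕ → ℕ → G) (m : ℕ) : StronglyMeasurable[fil m] (stp c m) := by
  have : stp c m = (fun q : ℕ × ℕ => c m q.1 q.2) ∘ dd m := rfl
  rw [this]
  have h1 : StronglyMeasurable (fun q : ℕ × ℕ => c m q.1 q.2) :=
    (measurable_of_countable _).stronglyMeasurable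
  exact h1.comp_measurable (fun s _ => ⟨s, trivial, rfl⟩)

theorem measurable_stp (c : ℕ → ℕ → ℕ → G) (m : ℕ) : Measurable (stp c m) :=
  (measurable_of_countable (fun q : ℕ × ℕ => c m q.1 q.2)).comp (measurable_dd m)

theorem integrable_stp (c : ℕ → ℕ → ℕ → G) (m : ℕ) : Integrable (stp c m) νI := by
  refine Integrable.of_bound (measurable_stp c m).aestronglyMeasurable
    (∑ i ∈ Finset.range (2 ^ m), ∑ j ∈ Finset.range (2 ^ m), ‖c m i j‖) ?_
  filter_upwards [ae_dd_lt m] with p hp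
  calc ‖stp c m p‖ ≤ ∑ j ∈ Finset.range (2 ^ m), ‖c m (dy m p.1) j‖ :=
        Finset.single_le_sum (f := fun j => ‖c m (dy m p.1) j‖) (fun _ _ => norm_nonneg _)
          (Finset.mem_range.2 hp.2)
    _ ≤ _ := Finset.single_le_sum (f := fun i => ∑ j ∈ Finset.range (2 ^ m), ‖c m i j‖)
          (fun _ _ => Finset.sum_nonneg fun _ _ => norm_nonneg _) (Finset.mem_range.2 hp.1)

theorem integral_stp_sq (c : ℕ → ℕ → ℕ → G) {m i j : ℕ} (hi : i < 2 ^ m) (hj : j < 2 ^ m) :
    ∫ p in sq m i j, stp c m p ∂νI = (((2 : ℝ) ^ m)⁻¹ * ((2 : ℝ) ^ m)⁻¹) • c m i j := by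
  have h1 : ∫ p in sq m i j, stp c m p ∂νI = ∫ p in sq m i j, c m i j ∂νI := by
    refine setIntegral_congr_fun (measurableSet_sq m i j) ?_
    intro p hp
    obtain ⟨h1, h2⟩ := hp
    simp only [stp]
    rw [mem_cell.1 h1, mem_cell.1 h2]
  rw [h1, setIntegral_const, measureReal_sq hi hj]

theorem sq_succ (m i j : ℕ) : sq m i j = (sq (m + 1) (2 * i) (2 * j) ∪ sq (m + 1) (2 * i) (2 * j + 1)) ∪
    (sq (m + 1) (2 * i + 1) (2 * j) ∪ sq (m + 1) (2 * i + 1) (2 * j + 1)) := by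
  simp only [sq]
  rw [cell_succ m i, cell_succ m j, union_prod, prod_union, prod_union]

theorem setIntegral_sq_succ {f : ℝ × ℝ → G} (hf : Integrable f νI) (m i j : ℕ) :
    ∫ p in sq m i j, f p ∂νI =
      (∫ p in sq (m + 1) (2 * i) (2 * j), f p ∂νI + ∫ p in sq (m + 1) (2 * i) (2 * j + 1), f p ∂νI) +
      (∫ p in sq (m + 1) (2 * i + 1) (2 * j), f p ∂νI +
        ∫ p in sq (m + 1) (2 * i + 1) (2 * j + 1), f p ∂νI) := by
  have hd : ∀ {a b a' b' : ℕ}, (a, b) ≠ (a', b') → Disjoint (sq (m + 1) a b) (sq (m + 1) a' b') := by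
    intro a b a' b' h
    rw [sq_eq, sq_eq, Set.disjoint_left]
    intro p hp hq
    exact h (hp.symm.trans hq)
  rw [sq_succ m i j, setIntegral_union, setIntegral_union, setIntegral_union]
  · exact hd (by simp)
  · exact measurableSet_sq _ _ _
  · exact hf.integrableOn
  · exact hf.integrableOn
  · exact hd (by simp)
  · exact measurableSet_sq _ _ _
  · exact hf.integrableOn
  · exact hf.integrableOn
  · rw [Set.disjoint_union_left, Set.disjoint_union_right, Set.disjoint_union_right]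
    refine ⟨⟨hd (by simp), hd (by simp)⟩, ⟨hd (by simp), hd (by simp)⟩⟩
  · exact (measurableSet_sq _ _ _).union (measurableSet_sq _ _ _)
  · exact hf.integrableOn
  · exact hf.integrableOn

/-- The martingale relation for arrays. -/
def Mart {G : Type*} [NormedAddCommGroup G] [NormedSpace ℝ G] (c : ℕ → ℕ → ℕ → G) : Prop :=
  ∀ m i j, i < 2 ^ m → j < 2 ^ m → (4 : ℝ) • c m i j =
    (c (m + 1) (2 * i) (2 * j) + c (m + 1) (2 * i) (2 * j + 1)) +
      (c (m + 1) (2 * i + 1) (2 * j) + c (m + 1) (2 * i + 1) (2 * j + 1))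

theorem martingale_stp {c : ℕ → ℕ → ℕ → G} (hc : Mart c) : Martingale (stp c) fil νI := by
  refine martingale_of_setIntegral_eq_succ (fun m => stronglyMeasurable_stp c m)
    (fun m => integrable_stp c m) ?_
  intro m s hs
  refine setIntegral_eq_of_sq m (integrable_stp c m) (integrable_stp c (m + 1)) ?_ hs
  intro i j hi hj
  have h2 : 2 ^ (m + 1) = 2 * 2 ^ m := by rw [pow_succ]; ring
  rw [setIntegral_sq_succ (integrable_stp c (m + 1)), integral_stp_sq c hi hj,
    integral_stp_sq c (by omega) (by omega), integral_stp_sq c (by omega) (by omega),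
    integral_stp_sq c (by omega) (by omega), integral_stp_sq c (by omega) (by omega),
    ← smul_add, ← smul_add, ← smul_add, ← hc m i j hi hj, smul_smul]
  congr 1
  rw [pow_succ]
  field_simp
  norm_num

end stp

/-- `L_1` bound. -/
theorem eLpNorm_stp_le (c : ℕ → ℕ → ℕ → ℝ) (m : ℕ) (C : ℝ)
    (hC : ∀ i, i < 2 ^ m → ∑ j ∈ Finset.range (2 ^ m), |c m i j| ≤ C * 2 ^ m) :
    eLpNorm (stp c m) 1 νI ≤ ENNReal.ofReal C := by
  rw [eLpNorm_one_eq_lintegral_enorm, lintegral_prod _ (measurable_stp c m).enorm.aemeasurable]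
  have h1 : ∀ᵐ t ∂μI, ∫⁻ x, ‖stp c m (t, x)‖ₑ ∂μI ≤ ENNReal.ofReal C := by
    filter_upwards [ae_dy_lt m] with t ht
    have := lintegral_dy m (fun k => ‖c m (dy m t) k‖ₑ)
    simp only [stp]
    rw [this, ← Finset.sum_mul]
    have h2 : ∑ k ∈ Finset.range (2 ^ m), ‖c m (dy m t) k‖ₑ ≤ ENNReal.ofReal (C * 2 ^ m) := by
      have h3 : ∑ k ∈ Finset.range (2 ^ m), ‖c m (dy m t) k‖ₑ =
          ENNReal.ofReal (∑ k ∈ Finset.range (2 ^ m), |c m (dy m t) k|) := by
        rw [ENNReal.ofReal_sum_of_nonneg (fun _ _ => abs_nonneg _)]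
        refine Finset.sum_congr rfl fun k _ => ?_
        rw [← Real.norm_eq_abs, ofReal_norm]
      rw [h3]
      exact ENNReal.ofReal_le_ofReal (hC _ ht)
    calc (∑ k ∈ Finset.range (2 ^ m), ‖c m (dy m t) k‖ₑ) * ENNReal.ofReal (((2 : ℝ) ^ m)⁻¹)
        ≤ ENNReal.ofReal (C * 2 ^ m) * ENNReal.ofReal (((2 : ℝ) ^ m)⁻¹) := by gcongr
      _ = ENNReal.ofReal C := by
          rw [← ENNReal.ofReal_mul' (by positivity), mul_assoc, mul_inv_cancel₀ (by positivity), mul_one]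
  calc ∫⁻ t, ∫⁻ x, ‖stp c m (t, x)‖ₑ ∂μI ∂μI ≤ ∫⁻ _, ENNReal.ofReal C ∂μI := lintegral_mono_ae h1
    _ = ENNReal.ofReal C := by simp

/-- Almost everywhere convergence of bounded dyadic martingales. -/
theorem ae_tendsto_real (c : ℕ → ℕ → ℕ → ℝ) (hc : Mart c) (C : ℝ)
    (hC : ∀ m i, i < 2 ^ m → ∑ j ∈ Finset.range (2 ^ m), |c m i j| ≤ C * 2 ^ m) :
    ∀ᵐ p ∂νI, ∃ l, Tendsto (fun m => stp c m p) atTop (𝓝 l) := by
  have := (martingale_stp hc).submartingale.exists_ae_tendsto_of_bdd (R := C.toNNReal)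
    (fun m => by
      have := eLpNorm_stp_le c m C (hC m)
      exact this)
  exact this

end Pool.Agent.R275.LIso
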