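import Pool.Agent.R275.LIso6

/-!
Convergence of the dyadic averages of an integrable function on the square.
-/

open Set Filter Topology MeasureTheory
open scoped ENNReal

set_option linter.unusedSectionVars false

namespace Pool.Agent.R275.LIso

theorem tendsto_dy (t : ℝ) : Tendsto (fun m => (dy m t : ℝ) / 2 ^ m) atTop (𝓝 (max 0 t)) := by
  rcases le_or_gt 0 t with ht | ht
  · rw [max_eq_right ht]
    have h1 := tendsto_nat_floor_mul_div_atTop (R := ℝ) ht
    have h2 : Tendsto (fun m : ℕ => (2 : ℝ) ^ m) atTop atTop :=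
      tendsto_pow_atTop_atTop_of_one_lt (by norm_num)
    refine (h1.comp h2).congr fun m => ?_
    simp only [Function.comp, dy]
    rw [mul_comm]
  · rw [max_eq_left ht.le]
    refine tendsto_const_nhds.congr fun m => ?_
    have : dy m t = 0 := by
      unfold dy
      refine Nat.floor_of_nonpos ?_
      exact mul_nonpos_of_nonneg_of_nonpos (by positivity) ht.le
    rw [this]; simp

theorem measurable_clamp {α : Type*} [MeasurableSpace α] (a : α → ℝ)
    (ha : ∀ m, Measurable (fun x => dy m (a x))) : Measurable (fun x => max 0 (a x)) := by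
  refine measurable_of_tendsto_metrizable (f := fun m x => (dy m (a x) : ℝ) / 2 ^ m) ?_ ?_
  · intro m
    exact ((measurable_of_countable (fun n : ℕ => (n : ℝ))).comp (ha m)).div_const _
  · rw [tendsto_pi_nhds]
    intro x
    exact tendsto_dy (a x)

theorem measurable_clamp2 {α : Type*} [MeasurableSpace α] (a b : α → ℝ)
    (ha : ∀ m, Measurable (fun x => dy m (a x))) (hb : ∀ m, Measurable (fun x => dy m (b x))) :
    Measurable (fun x => (max 0 (a x), max 0 (b x))) :=
  (measurable_clamp a ha).prodMk (measurable_clamp b hb)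

theorem measurable_clamp_iSup :
    @Measurable _ _ (⨆ m, fil m) _ (fun p : ℝ × ℝ => (max 0 p.1, max 0 p.2)) := by
  have hle : ∀ m, (fil m : MeasurableSpace (ℝ × ℝ)) ≤ ⨆ m, fil m := fun m => le_iSup (fun m => fil m) m
  refine @measurable_clamp2 _ (⨆ m, fil m) _ _ ?_ ?_
  · intro m s _
    refine hle m _ ?_
    exact ⟨Prod.fst ⁻¹' s, trivial, rfl⟩
  · intro m s _
    refine hle m _ ?_
    exact ⟨Prod.snd ⁻¹' s, trivial, rfl⟩

theorem ae_clamp : ∀ᵐ p ∂νI, ((max 0 p.1, max 0 p.2) : ℝ × ℝ) = p := by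
  have h1 : ∀ᵐ t ∂μI, max 0 t = t := by
    filter_upwards [ae_restrict_mem measurableSet_Icc] with t ht
    exact max_eq_right ht.1
  have h2 : ∀ᵐ p ∂νI, max 0 p.1 = p.1 := Measure.quasiMeasurePreserving_fst.ae h1
  have h3 : ∀ᵐ p ∂νI, max 0 p.2 = p.2 := Measure.quasiMeasurePreserving_snd.ae h1
  filter_upwards [h2, h3] with p h2 h3
  rw [h2, h3]

/-- Levy's upward theorem for dyadic squares. -/
theorem ae_tendsto_of_integrals (f : ℝ × ℝ → ℝ) (hfm : Measurable f) (hf : Integrable f νI)
    (c : ℕ → ℕ → ℕ → ℝ)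
    (hc : ∀ m i j, i < 2 ^ m → j < 2 ^ m →
      ∫ p in sq m i j, f p ∂νI = (((2 : ℝ) ^ m)⁻¹ * ((2 : ℝ) ^ m)⁻¹) * c m i j) :
    ∀ᵐ p ∂νI, Tendsto (fun m => stp c m p) atTop (𝓝 (f p)) := by
  let f' : ℝ × ℝ → ℝ := fun p => f (max 0 p.1, max 0 p.2)
  have hff' : f' =ᵐ[νI] f := by
    filter_upwards [ae_clamp] with p hp
    simp only [f', hp]
  have hf'm : @StronglyMeasurable _ _ _ (⨆ m, fil m) f' := by
    have h0 : @Measurable _ _ (⨆ m, fil m) _ f' := hfm.comp measurable_clamp_iSup
    exact h0.stronglyMeasurable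
  have hf' : Integrable f' νI := hf.congr hff'.symm
  have h1 := hf'.tendsto_ae_condExp hf'm
  have h2 : ∀ᵐ p ∂νI, ∀ m, (MeasureTheory.condExp (fil m) νI f') p = stp c m p := by
    rw [ae_all_iff]
    intro m
    refine (ae_eq_condExp_of_forall_setIntegral_eq (fil.le m) hf' ?_ ?_ ?_).symm
    · intro s _ _
      exact (integrable_stp c m).integrableOn
    · intro s hs _
      have e1 : ∫ p in s, f' p ∂νI = ∫ p in s, f p ∂νI :=
        setIntegral_congr_ae (fil.le m s hs) (by filter_upwards [hff'] with p hp _ using hp)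
      rw [e1]
      refine setIntegral_eq_of_sq m (integrable_stp c m) hf ?_ hs
      intro i j hi hj
      rw [hc m i j hi hj, integral_stp_sq c hi hj, smul_eq_mul]
    · exact (stronglyMeasurable_stp c m).aestronglyMeasurable
  filter_upwards [h1, h2, hff'] with p h1 h2 h3
  rw [h3] at h1
  exact h1.congr h2

end Pool.Agent.R275.LIso
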