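import Pool.Agent.R275.LIso7

/-!
The operator from `L_∞(L_r)` to `B_{r,∞}` given by dyadic averages.
-/

open Set Filter Topology MeasureTheory
open scoped ENNReal

set_option linter.unusedSectionVars false

namespace Pool.Agent.R275.LIso

variable {𝕜 : Type*} [RCLike 𝕜] {r : ℝ≥0∞} [Fact (1 ≤ r)]

variable (𝕜 r) in
/-- `L_∞([0,1]; L_r[0,1])`. -/
abbrev XX : Type _ := Lp (Lp 𝕜 r μI) ∞ μI

theorem ae_norm_le (F : XX 𝕜 r) : ∀ᵐ t ∂μI, ‖F t‖ ≤ ‖F‖ := by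
  have h := ae_le_eLpNormEssSup (f := (F : ℝ → Lp 𝕜 r μI)) (μ := μI)
  have h2 : eLpNormEssSup (F : ℝ → Lp 𝕜 r μI) μI = ‖F‖ₑ := by
    rw [Lp.enorm_def, eLpNorm_exponent_top]
  rw [h2] at h
  filter_upwards [h] with t ht
  exact enorm_le_iff_norm_le.1 ht

theorem norm_intOn_cell_le (F : XX 𝕜 r) (m i : ℕ) :
    ‖((2 : 𝕜) ^ m) • intOn 𝕜 (cell m i) F‖ ≤ ‖F‖ := by
  by_cases hi : i < 2 ^ m
  · have h1 : ‖∫ t in cell m i, F t ∂μI‖ ≤ ‖F‖ * μI.real (cell m i) :=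
      norm_setIntegral_le_of_norm_le_const_ae (measure_lt_top _ _) (by
        exact (ae_restrict_of_ae (ae_norm_le F)))
    rw [measureReal_cell hi] at h1
    rw [intOn_apply, norm_smul, norm_pow, RCLike.norm_ofNat]
    calc (2 : ℝ) ^ m * ‖∫ t in cell m i, F t ∂μI‖ ≤ 2 ^ m * (‖F‖ * (2 ^ m)⁻¹) := by gcongr
      _ = ‖F‖ := by field_simp
  · have : ∫ t in cell m i, F t ∂μI = 0 := setIntegral_measure_zero _ (measure_cell_ge hi)
    rw [intOn_apply, this]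
    simp

/-- The block of level `m` and index `i` of the dyadic averages of `F`. -/
noncomputable def jb (hr : r ≠ ∞) (m i : ℕ) : XX 𝕜 r →L[𝕜] V 𝕜 r (2 ^ m) :=
  (pim hr m).comp (((2 : 𝕜) ^ m) • intOn 𝕜 (cell m i))

theorem jb_apply (hr : r ≠ ∞) (m i : ℕ) (F : XX 𝕜 r) :
    jb hr m i F = pim hr m (((2 : 𝕜) ^ m) • intOn 𝕜 (cell m i) F) := rfl

theorem norm_jb_le (hr : r ≠ ∞) (m i : ℕ) (F : XX 𝕜 r) : ‖jb hr m i F‖ ≤ ‖F‖ := by
  rw [jb_apply]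
  exact (pim_norm_le hr m _).trans (norm_intOn_cell_le F m i)

/-- Level of a block. -/
def lg (N : ℕ) : ℕ := Nat.log 2 (N + 1)
/-- Index of a block. -/
def ix (N : ℕ) : ℕ := N + 1 - 2 ^ lg N

theorem pow_lg_le (N : ℕ) : 2 ^ lg N ≤ N + 1 := Nat.pow_log_le_self 2 (by omega)

theorem lg_ix {m i N : ℕ} (hi : i < 2 ^ m) (hN : N = 2 ^ m + i - 1) : (lg N, ix N) = (m, i) := by
  have h1 : 0 < 2 ^ m := by positivity
  have h2 : N + 1 = 2 ^ m + i := by omega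
  have h3 : lg N = m := by
    unfold lg
    rw [Nat.log_eq_iff (Or.inr ⟨by norm_num, by omega⟩), h2, pow_succ]
    constructor <;> omega
  refine Prod.ext h3 ?_
  simp only [ix, h3, h2]
  omega

theorem eq_of_lg_ix (N : ℕ) : N = 2 ^ lg N + ix N - 1 := by
  have := pow_lg_le N
  unfold ix
  omega

theorem ix_lt (N : ℕ) : ix N < 2 ^ lg N := by
  have h1 : N + 1 < 2 ^ (lg N + 1) := Nat.lt_pow_succ_log_self (by norm_num) _
  rw [pow_succ] at h1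
  have := pow_lg_le N
  unfold ix
  omega

/-- Dyadic averages, as an operator `L_∞(L_r) → B_{r,∞}`. -/
noncomputable def JJ (hr : r ≠ ∞) : XX 𝕜 r →L[𝕜] BB 𝕜 r :=
  toB (fun N => (rho hr (2 ^ lg N) (N + 1)).comp (jb hr (lg N) (ix N))) 1 zero_le_one (fun N F => by
    rw [one_mul]
    exact (rho_norm_le hr _ _ _).trans (norm_jb_le hr _ _ F))

theorem JJ_apply (hr : r ≠ ∞) (F : XX 𝕜 r) (N : ℕ) :
    JJ hr F N = rho hr (2 ^ lg N) (N + 1) (jb hr (lg N) (ix N) F) := rfl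

/-- Blocks of an element of `B_{r,∞}`. -/
noncomputable def blk (hr : r ≠ ∞) (β : BB 𝕜 r) (m i : ℕ) : V 𝕜 r (2 ^ m) :=
  rho hr (2 ^ m + i - 1 + 1) (2 ^ m) (β (2 ^ m + i - 1))

theorem norm_blk_le (hr : r ≠ ∞) (β : BB 𝕜 r) (m i : ℕ) : ‖blk hr β m i‖ ≤ ‖β‖ :=
  (rho_norm_le hr _ _ _).trans (norm_block_le _ _)

theorem blk_add (hr : r ≠ ∞) (β β' : BB 𝕜 r) (m i : ℕ) :
    blk hr (β + β') m i = blk hr β m i + blk hr β' m i := by
  unfold blk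
  rw [← map_add]
  rfl

theorem blk_smul (hr : r ≠ ∞) (a : 𝕜) (β : BB 𝕜 r) (m i : ℕ) :
    blk hr (a • β) m i = a • blk hr β m i := by
  unfold blk
  rw [← map_smul]
  rfl

theorem blk_JJ (hr : r ≠ ∞) (F : XX 𝕜 r) {m i : ℕ} (hi : i < 2 ^ m) :
    blk hr (JJ hr F) m i = jb hr m i F := by
  unfold blk
  rw [JJ_apply]
  have key : ∀ (N : ℕ) (p : ℕ × ℕ) (hp : p = (m, i)) (hN : 2 ^ m ≤ N + 1),
      (rho hr (N + 1) (2 ^ m)) ((rho hr (2 ^ p.1) (N + 1)) (jb hr p.1 p.2 F)) = jb hr m i F := by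
    intro N p hp hN
    subst hp
    exact rho_rho hr hN _
  exact key (2 ^ m + i - 1) (lg _, ix _) (lg_ix hi rfl) (by omega)

/-- Array of values attached to an element of `B_{r,∞}`. -/
noncomputable def carr (hr : r ≠ ∞) (β : BB 𝕜 r) (m i j : ℕ) : 𝕜 :=
  ((wt r m : ℝ) : 𝕜) * ext0 (blk hr β m i) j

theorem carr_add (hr : r ≠ ∞) (β β' : BB 𝕜 r) (m i j : ℕ) :
    carr hr (β + β') m i j = carr hr β m i j + carr hr β' m i j := by
  simp only [carr, blk_add, ext0_add, mul_add]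

theorem carr_smul (hr : r ≠ ∞) (a : 𝕜) (β : BB 𝕜 r) (m i j : ℕ) :
    carr hr (a • β) m i j = a * carr hr β m i j := by
  simp only [carr, blk_smul, ext0_smul]
  ring

theorem carr_JJ (hr : r ≠ ∞) (F : XX 𝕜 r) {m i j : ℕ} (hi : i < 2 ^ m) (hj : j < 2 ^ m) :
    carr hr (JJ hr F) m i j = (4 : 𝕜) ^ m * intOn 𝕜 (cell m j) (intOn 𝕜 (cell m i) F) := by
  rw [carr, blk_JJ hr F hi, jb_apply, ext0_pim hr m _ hj, map_smul, smul_eq_mul, ← mul_assoc,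
    ← mul_assoc, ← RCLike.ofReal_mul, mul_comm (wt r m), sc_mul_wt]
  congr 1
  push_cast
  rw [← mul_pow]
  norm_num

theorem mart_JJ (hr : r ≠ ∞) (F : XX 𝕜 r) : Mart (carr hr (JJ hr F)) := by
  intro m i j hi hj
  have h2 : 2 ^ (m + 1) = 2 * 2 ^ m := by rw [pow_succ]; ring
  rw [carr_JJ hr F hi hj, carr_JJ hr F (by omega) (by omega), carr_JJ hr F (by omega) (by omega),
    carr_JJ hr F (by omega) (by omega), carr_JJ hr F (by omega) (by omega),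
    intOn_cell_succ m i F, map_add, intOn_cell_succ m j, intOn_cell_succ m j, pow_succ,
    RCLike.real_smul_eq_coe_mul]
  push_cast
  ring

end Pool.Agent.R275.LIso
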