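import Pool.Agent.R275.LIso8

/-!
From bounded dyadic martingales to `L_∞(L_r)`.
-/

open Set Filter Topology MeasureTheory
open scoped ENNReal

set_option linter.unusedSectionVars false

namespace Pool.Agent.R275.LIso

variable {𝕜 : Type*} [RCLike 𝕜] {r : ℝ≥0∞} [Fact (1 ≤ r)]

theorem sum_abs_le {m : ℕ} (hr : r ≠ ∞) (a : V 𝕜 r (2 ^ m)) :
    ∑ j ∈ Finset.range (2 ^ m), ‖((wt r m : ℝ) : 𝕜) * ext0 a j‖ ≤ ‖a‖ * 2 ^ m := by
  have h1 : eLpNorm (iof m a) 1 μI ≤ ‖a‖ₑ := by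
    rw [← eLpNorm_iof hr]
    exact eLpNorm_le_eLpNorm_of_exponent_le Fact.out (measurable_iof m a).aestronglyMeasurable
  rw [eLpNorm_one_eq_lintegral_enorm] at h1
  have h2 := lintegral_dy m (fun k => ‖((wt r m : ℝ) : 𝕜) * ext0 a k‖ₑ)
  unfold iof at h1
  rw [h2, ← Finset.sum_mul] at h1
  have h3 : ENNReal.ofReal ((∑ j ∈ Finset.range (2 ^ m), ‖((wt r m : ℝ) : 𝕜) * ext0 a j‖) *
      ((2 : ℝ) ^ m)⁻¹) ≤ ENNReal.ofReal ‖a‖ := by
    rw [ENNReal.ofReal_mul (Finset.sum_nonneg fun _ _ => norm_nonneg _),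
      ENNReal.ofReal_sum_of_nonneg (fun _ _ => norm_nonneg _)]
    simp only [ofReal_norm]
    exact h1
  rw [ENNReal.ofReal_le_ofReal_iff (norm_nonneg _)] at h3
  rwa [← div_eq_mul_inv, div_le_iff₀ (by positivity)] at h3

theorem re_mart {c : ℕ → ℕ → ℕ → 𝕜} (hc : Mart c) : Mart (fun m i j => RCLike.re (c m i j)) := by
  intro m i j hi hj
  have := congrArg RCLike.re (hc m i j hi hj)
  rw [RCLike.smul_re] at this
  simpa using this

theorem im_mart {c : ℕ → ℕ → ℕ → 𝕜} (hc : Mart c) : Mart (fun m i j => RCLike.im (c m i j)) := by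
  intro m i j hi hj
  have := congrArg RCLike.im (hc m i j hi hj)
  rw [RCLike.smul_im] at this
  simpa using this

theorem ae_tendsto_K (c : ℕ → ℕ → ℕ → 𝕜) (hc : Mart c) (C : ℝ)
    (hC : ∀ m i, i < 2 ^ m → ∑ j ∈ Finset.range (2 ^ m), ‖c m i j‖ ≤ C * 2 ^ m) :
    ∀ᵐ p ∂νI, ∃ l, Tendsto (fun m => stp c m p) atTop (𝓝 l) := by
  have h1 := ae_tendsto_real _ (re_mart hc) C (fun m i hi =>
    (Finset.sum_le_sum fun j _ => RCLike.abs_re_le_norm _).trans (hC m i hi))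
  have h2 := ae_tendsto_real _ (im_mart hc) C (fun m i hi =>
    (Finset.sum_le_sum fun j _ => RCLike.abs_im_le_norm _).trans (hC m i hi))
  filter_upwards [h1, h2] with p hp1 hp2
  obtain ⟨a, ha⟩ := hp1
  obtain ⟨b, hb⟩ := hp2
  refine ⟨(a : 𝕜) + (b : 𝕜) * RCLike.I, ?_⟩
  have h3 : Tendsto (fun m => ((stp (fun m i j => RCLike.re (c m i j)) m p : ℝ) : 𝕜) +
      ((stp (fun m i j => RCLike.im (c m i j)) m p : ℝ) : 𝕜) * RCLike.I) atTop
      (𝓝 ((a : 𝕜) + (b : 𝕜) * RCLike.I)) :=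
    (((RCLike.continuous_ofReal (K := 𝕜)).tendsto a).comp ha).add
      ((((RCLike.continuous_ofReal (K := 𝕜)).tendsto b).comp hb).mul_const _)
  refine h3.congr fun m => ?_
  exact RCLike.re_add_im (stp c m p)

theorem tendsto_of_re_im {c : ℕ → 𝕜} {z : 𝕜} (h1 : Tendsto (fun m => RCLike.re (c m)) atTop (𝓝 (RCLike.re z)))
    (h2 : Tendsto (fun m => RCLike.im (c m)) atTop (𝓝 (RCLike.im z))) : Tendsto c atTop (𝓝 z) := by
  have h3 : Tendsto (fun m => ((RCLike.re (c m) : ℝ) : 𝕜) + ((RCLike.im (c m) : ℝ) : 𝕜) * RCLike.I) atTop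
      (𝓝 (((RCLike.re z : ℝ) : 𝕜) + ((RCLike.im z : ℝ) : 𝕜) * RCLike.I)) :=
    (((RCLike.continuous_ofReal (K := 𝕜)).tendsto _).comp h1).add
      ((((RCLike.continuous_ofReal (K := 𝕜)).tendsto _).comp h2).mul_const _)
  rw [RCLike.re_add_im] at h3
  refine h3.congr fun m => ?_
  exact RCLike.re_add_im (c m)

/-- `G` is the almost everywhere limit of the martingale given by `γ`. -/
def IsLim (hr : r ≠ ∞) (γ : BB 𝕜 r) (G : XX 𝕜 r) : Prop :=
  ∀ᵐ t ∂μI, ∀ᵐ x ∂μI, Tendsto (fun m => stp (carr hr γ) m (t, x)) atTop (𝓝 (G t x))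

theorem exists_isLim (hr : r ≠ ∞) (γ : BB 𝕜 r) (hγ : Mart (carr hr γ)) :
    ∃ G : XX 𝕜 r, ‖G‖ ≤ ‖γ‖ ∧ IsLim hr γ G := by
  have h1 : ∀ᵐ p ∂νI, ∃ l, Tendsto (fun m => stp (carr hr γ) m p) atTop (𝓝 l) := by
    refine ae_tendsto_K _ hγ ‖γ‖ fun m i hi => ?_
    refine (sum_abs_le hr (blk hr γ m i)).trans ?_
    gcongr
    exact norm_blk_le hr γ m i
  let h : ℝ × ℝ → 𝕜 := fun p => limUnder atTop (fun m => stp (carr hr γ) m p)
  have hmeas : Measurable h :=
    (StronglyMeasurable.limUnder (fun m => (measurable_stp (carr hr γ) m).stronglyMeasurable)).measurable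
  have h2 : ∀ᵐ p ∂νI, Tendsto (fun m => stp (carr hr γ) m p) atTop (𝓝 (h p)) := by
    filter_upwards [h1] with p hp
    exact tendsto_nhds_limUnder hp
  have h3 : ∀ᵐ t ∂μI, ∀ᵐ x ∂μI, Tendsto (fun m => stp (carr hr γ) m (t, x)) atTop (𝓝 (h (t, x))) :=
    Measure.ae_ae_of_ae_prod h2
  have hsec : ∀ t, Measurable (fun x => h (t, x)) := fun t => hmeas.comp measurable_prodMk_left
  have h4 : ∀ᵐ t ∂μI, eLpNorm (fun x => h (t, x)) r μI ≤ ‖γ‖ₑ := by
    filter_upwards [h3] with t ht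
    have h5 := Lp.eLpNorm_lim_le_liminf_eLpNorm (p := r) (μ := μI)
      (f := fun m x => stp (carr hr γ) m (t, x)) (fun m =>
        ((measurable_stp (carr hr γ) m).comp measurable_prodMk_left).aestronglyMeasurable)
      (fun x => h (t, x)) ht
    refine h5.trans ?_
    refine (liminf_le_liminf (v := fun _ => ‖γ‖ₑ) ?_).trans_eq ?_
    · refine Filter.Eventually.of_forall fun m => ?_
      change eLpNorm (iof m (blk hr γ m (dy m t))) r μI ≤ ‖γ‖ₑ
      rw [eLpNorm_iof hr]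
      exact enorm_le_iff_norm_le.2 (norm_blk_le hr γ m _)
    · simp
  have h6 : ∀ᵐ t ∂μI, ‖sec r h t‖ ≤ ‖γ‖ := by
    filter_upwards [h4] with t ht
    have hm : MemLp (fun x => h (t, x)) r μI :=
      ⟨(hsec t).aestronglyMeasurable, lt_of_le_of_lt ht enorm_lt_top⟩
    rw [sec_of hm, Lp.norm_toLp]
    have := ENNReal.toReal_mono enorm_lt_top.ne ht
    rwa [toReal_enorm] at this
  have hL : MemLp (sec r h) ∞ μI :=
    memLp_top_of_bound (stronglyMeasurable_sec hr h hmeas).aestronglyMeasurable ‖γ‖ h6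
  refine ⟨hL.toLp _, ?_, ?_⟩
  · rw [Lp.norm_toLp]
    refine ENNReal.toReal_le_of_le_ofReal (norm_nonneg _) ?_
    rw [eLpNorm_exponent_top]
    exact eLpNormEssSup_le_of_ae_bound h6
  · unfold IsLim
    filter_upwards [h3, h4, hL.coeFn_toLp] with t ht ht4 ht5
    have hm : MemLp (fun x => h (t, x)) r μI :=
      ⟨(hsec t).aestronglyMeasurable, lt_of_le_of_lt ht4 enorm_lt_top⟩
    filter_upwards [ht, coeFn_sec hm] with x hx hx2
    rw [ht5, hx2]
    exact hx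

theorem IsLim.unique {hr : r ≠ ∞} {γ : BB 𝕜 r} {G G' : XX 𝕜 r} (h : IsLim hr γ G) (h' : IsLim hr γ G') :
    G = G' := by
  refine Lp.ext ?_
  filter_upwards [h, h'] with t ht ht'
  refine Lp.ext ?_
  filter_upwards [ht, ht'] with x hx hx'
  exact tendsto_nhds_unique hx hx'

theorem IsLim.add {hr : r ≠ ∞} {γ γ' : BB 𝕜 r} {G G' : XX 𝕜 r} (h : IsLim hr γ G) (h' : IsLim hr γ' G') :
    IsLim hr (γ + γ') (G + G') := by
  unfold IsLim
  filter_upwards [h, h', Lp.coeFn_add G G'] with t ht ht' h3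
  filter_upwards [ht, ht', Lp.coeFn_add (G t) (G' t)] with x hx hx' hx3
  rw [h3, Pi.add_apply, hx3, Pi.add_apply]
  refine (hx.add hx').congr fun m => ?_
  simp only [stp, carr_add]

theorem IsLim.smul {hr : r ≠ ∞} {γ : BB 𝕜 r} {G : XX 𝕜 r} (a : 𝕜) (h : IsLim hr γ G) :
    IsLim hr (a • γ) (a • G) := by
  unfold IsLim
  filter_upwards [h, Lp.coeFn_smul a G] with t ht h3
  filter_upwards [ht, Lp.coeFn_smul a (G t)] with x hx hx3
  rw [h3, Pi.smul_apply, hx3, Pi.smul_apply]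
  refine (hx.const_mul a).congr fun m => ?_
  simp only [stp, carr_smul]

/-- The martingale of `F` converges to `F`. -/
theorem isLim_JJ (hr : r ≠ ∞) (F : XX 𝕜 r) : IsLim hr (JJ hr F) F := by
  obtain ⟨f, hfm, hf⟩ := exists_joint hr (F : ℝ → Lp 𝕜 r μI) (Lp.stronglyMeasurable F)
  have hint : ∀ t, Integrable (fun x => f (t, x)) μI := fun t =>
    ((Lp.memLp (F t)).integrable Fact.out).congr ((hf t).mono fun x hx => hx.symm)
  have hnorm : ∀ t, ∫ x, ‖f (t, x)‖ ∂μI ≤ ‖F t‖ := by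
    intro t
    have h1 : ENNReal.ofReal (∫ x, ‖f (t, x)‖ ∂μI) = ∫⁻ x, ‖f (t, x)‖ₑ ∂μI := by
      rw [ofReal_integral_norm_eq_lintegral_enorm (hint t)]
    have h2 : ∫⁻ x, ‖f (t, x)‖ₑ ∂μI ≤ ‖F t‖ₑ := by
      calc ∫⁻ x, ‖f (t, x)‖ₑ ∂μI = ∫⁻ x, ‖F t x‖ₑ ∂μI :=
            lintegral_congr_ae ((hf t).mono fun x hx => by simp only [hx])
        _ = eLpNorm (F t) 1 μI := (eLpNorm_one_eq_lintegral_enorm).symm
        _ ≤ eLpNorm (F t) r μI :=
            eLpNorm_le_eLpNorm_of_exponent_le Fact.out (Lp.aestronglyMeasurable _)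
        _ = ‖F t‖ₑ := (Lp.enorm_def _).symm
    rw [← h1, ← ofReal_norm] at h2
    exact (ENNReal.ofReal_le_ofReal_iff (norm_nonneg _)).1 h2
  have hfi : Integrable f νI := by
    rw [integrable_prod_iff hfm.aestronglyMeasurable]
    refine ⟨Filter.Eventually.of_forall hint, ?_⟩
    refine Integrable.mono' (g := fun _ => ‖F‖) (integrable_const _)
      (hfm.aestronglyMeasurable.norm.integral_prod_right') ?_
    filter_upwards [ae_norm_le F] with t ht
    rw [Real.norm_eq_abs, abs_of_nonneg (integral_nonneg fun _ => norm_nonneg _)]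
    exact (hnorm t).trans ht
  have hsq : ∀ m i j, i < 2 ^ m → j < 2 ^ m → ∫ p in sq m i j, f p ∂νI =
      (((((2 : ℝ) ^ m)⁻¹ * ((2 : ℝ) ^ m)⁻¹ : ℝ)) : 𝕜) * carr hr (JJ hr F) m i j := by
    intro m i j hi hj
    rw [carr_JJ hr F hi hj]
    have h1 : ∫ p in sq m i j, f p ∂νI = ∫ t in cell m i, ∫ x in cell m j, f (t, x) ∂μI ∂μI := by
      rw [sq, setIntegral_prod _ hfi.integrableOn]
    have h2 : ∀ t, ∫ x in cell m j, f (t, x) ∂μI = intOn 𝕜 (cell m j) (F t) := by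
      intro t
      rw [intOn_apply]
      exact integral_congr_ae (ae_restrict_of_ae (hf t))
    rw [h1]
    simp only [h2]
    have h3 : ∫ t in cell m i, intOn 𝕜 (cell m j) (F t) ∂μI = intOn 𝕜 (cell m j) (intOn 𝕜 (cell m i) F) := by
      rw [intOn_apply (cell m i) F]
      exact ContinuousLinearMap.integral_comp_comm _ (integrable_Lp F).integrableOn
    rw [h3, ← mul_assoc]
    have h4 : (((((2 : ℝ) ^ m)⁻¹ * ((2 : ℝ) ^ m)⁻¹ : ℝ)) : 𝕜) * (4 : 𝕜) ^ m = 1 := by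
      push_cast
      rw [show (4 : 𝕜) = 2 * 2 by norm_num, mul_pow]
      have : ((2 : 𝕜) ^ m) ≠ 0 := pow_ne_zero _ (by norm_num)
      field_simp
    rw [h4, one_mul]
  have hre := ae_tendsto_of_integrals (fun p => RCLike.re (f p)) (RCLike.measurable_re.comp hfm) hfi.re
    (fun m i j => RCLike.re (carr hr (JJ hr F) m i j)) (by
      intro m i j hi hj
      have h1 := congrArg RCLike.re (hsq m i j hi hj)
      rw [RCLike.re_ofReal_mul] at h1
      rw [← h1]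
      exact (integral_re hfi.integrableOn))
  have him := ae_tendsto_of_integrals (fun p => RCLike.im (f p)) (RCLike.measurable_im.comp hfm) hfi.im
    (fun m i j => RCLike.im (carr hr (JJ hr F) m i j)) (by
      intro m i j hi hj
      have h1 := congrArg RCLike.im (hsq m i j hi hj)
      rw [RCLike.im_ofReal_mul] at h1
      rw [← h1]
      exact (integral_im hfi.integrableOn))
  have hall : ∀ᵐ p ∂νI, Tendsto (fun m => stp (carr hr (JJ hr F)) m p) atTop (𝓝 (f p)) := by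
    filter_upwards [hre, him] with p h1 h2
    exact tendsto_of_re_im h1 h2
  unfold IsLim
  filter_upwards [Measure.ae_ae_of_ae_prod hall] with t ht
  filter_upwards [ht, hf t] with x hx hx2
  rw [← hx2]
  exact hx

end Pool.Agent.R275.LIso
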