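import Mathlib

/-!
# Tools for the real space `L₁(μ)`: cutting with measurable sets, densities of functionals
-/

set_option autoImplicit false

open MeasureTheory

namespace Pool.Agent.R275

section L1

variable {Ω : Type*} [MeasurableSpace Ω] {μ : Measure Ω}

lemma memInd {s : Set Ω} (hs : MeasurableSet s) (f : Lp ℝ 1 μ) :
    MemLp (s.indicator (f : Ω → ℝ)) 1 μ := (Lp.memLp f).indicator hs

/-- Multiplication by the indicator function of a measurable set. -/
noncomputable def cutF {s : Set Ω} (hs : MeasurableSet s) (f : Lp ℝ 1 μ) : Lp ℝ 1 μ :=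
  (memInd hs f).toLp _

lemma cutF_coe {s : Set Ω} (hs : MeasurableSet s) (f : Lp ℝ 1 μ) :
    (cutF hs f : Ω → ℝ) =ᵐ[μ] s.indicator (f : Ω → ℝ) := (memInd hs f).coeFn_toLp

lemma cutF_add {s : Set Ω} (hs : MeasurableSet s) (f g : Lp ℝ 1 μ) :
    cutF hs (f + g) = cutF hs f + cutF hs g := by
  ext1
  have h1 := cutF_coe hs (f + g)
  have h2 := Lp.coeFn_add (cutF hs f) (cutF hs g)
  have h3 := cutF_coe hs f
  have h4 := cutF_coe hs g
  have h5 := Lp.coeFn_add f g
  filter_upwards [h1, h2, h3, h4, h5] with t h1 h2 h3 h4 h5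
  rw [h1, h2, Pi.add_apply, h3, h4]
  by_cases ht : t ∈ s
  · simp only [Set.indicator_of_mem ht]
    rw [h5, Pi.add_apply]
  · simp only [Set.indicator_of_notMem ht, add_zero]

lemma cutF_smul {s : Set Ω} (hs : MeasurableSet s) (c : ℝ) (f : Lp ℝ 1 μ) :
    cutF hs (c • f) = c • cutF hs f := by
  ext1
  have h1 := cutF_coe hs (c • f)
  have h2 := Lp.coeFn_smul c (cutF hs f)
  have h3 := cutF_coe hs f
  have h5 := Lp.coeFn_smul c f
  filter_upwards [h1, h2, h3, h5] with t h1 h2 h3 h5
  rw [h1, h2, Pi.smul_apply, h3]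
  by_cases ht : t ∈ s
  · simp only [Set.indicator_of_mem ht]
    rw [h5, Pi.smul_apply]
  · simp only [Set.indicator_of_notMem ht, smul_zero]

lemma norm_cutF_le {s : Set Ω} (hs : MeasurableSet s) (f : Lp ℝ 1 μ) :
    ‖cutF hs f‖ ≤ 1 * ‖f‖ := by
  rw [one_mul]
  refine Lp.norm_le_norm_of_ae_le ?_
  filter_upwards [cutF_coe hs f] with t h1
  rw [h1]
  exact norm_indicator_le_norm_self _ _

/-- Multiplication by the indicator function of a measurable set, as an operator. -/
noncomputable def cut (μ : Measure Ω) {s : Set Ω} (hs : MeasurableSet s) :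
    Lp ℝ 1 μ →L[ℝ] Lp ℝ 1 μ :=
  LinearMap.mkContinuous
    { toFun := cutF hs
      map_add' := cutF_add hs
      map_smul' := cutF_smul hs } 1 (norm_cutF_le hs)

lemma cut_coeFn {s : Set Ω} (hs : MeasurableSet s) (f : Lp ℝ 1 μ) :
    (cut μ hs f : Ω → ℝ) =ᵐ[μ] s.indicator (f : Ω → ℝ) := cutF_coe hs f

lemma cut_sub_coeFn {s : Set Ω} (hs : MeasurableSet s) (f : Lp ℝ 1 μ) :
    ((f - cut μ hs f : Lp ℝ 1 μ) : Ω → ℝ) =ᵐ[μ] sᶜ.indicator (f : Ω → ℝ) := by
  filter_upwards [Lp.coeFn_sub f (cut μ hs f), cut_coeFn hs f] with t h1 h2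
  rw [h1, Pi.sub_apply, h2]
  by_cases ht : t ∈ s
  · simp [ht]
  · simp [ht]

lemma norm_cut {s : Set Ω} (hs : MeasurableSet s) (f : Lp ℝ 1 μ) :
    ‖f‖ = ‖cut μ hs f‖ + ‖f - cut μ hs f‖ := by
  have hi : Integrable (fun t => ‖f t‖) μ := (L1.integrable_coeFn f).norm
  rw [L1.norm_eq_integral_norm, L1.norm_eq_integral_norm, L1.norm_eq_integral_norm,
    ← integral_add_compl hs hi]
  congr 1
  · rw [← integral_indicator hs]
    refine integral_congr_ae ?_
    filter_upwards [cut_coeFn hs f] with t h1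
    rw [h1]
    by_cases ht : t ∈ s <;> simp [ht]
  · rw [← integral_indicator hs.compl]
    refine integral_congr_ae ?_
    filter_upwards [cut_sub_coeFn hs f] with t h1
    rw [h1]
    by_cases ht : t ∈ s <;> simp [ht]

lemma norm_cut_le {s : Set Ω} (hs : MeasurableSet s) (f : Lp ℝ 1 μ) : ‖cut μ hs f‖ ≤ ‖f‖ := by
  have := norm_cutF_le hs f
  rwa [one_mul] at this

/-- cutting with `s` and then with `t` is cutting with `s ∩ t` -/
lemma cut_cut {s t : Set Ω} (hs : MeasurableSet s) (ht : MeasurableSet t) (f : Lp ℝ 1 μ) :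
    cut μ ht (cut μ hs f) = cut μ (hs.inter ht) f := by
  ext1
  filter_upwards [cut_coeFn ht (cut μ hs f), cut_coeFn hs f, cut_coeFn (hs.inter ht) f]
    with r h1 h2 h3
  rw [h1, h3]
  by_cases hr : r ∈ t
  · rw [Set.indicator_of_mem hr, h2]
    by_cases hr' : r ∈ s
    · rw [Set.indicator_of_mem hr', Set.indicator_of_mem (show r ∈ s ∩ t from ⟨hr', hr⟩)]
    · rw [Set.indicator_of_notMem hr', Set.indicator_of_notMem (fun h => hr' h.1)]
  · rw [Set.indicator_of_notMem hr, Set.indicator_of_notMem (fun h => hr h.2)]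

lemma cut_congr {s t : Set Ω} (hs : MeasurableSet s) (ht : MeasurableSet t) (h : s = t) :
    cut μ hs = cut μ ht := by
  subst h; rfl

/-- The functional `f ↦ ∫_s f`. -/
noncomputable def phi (μ : Measure Ω) {s : Set Ω} (hs : MeasurableSet s) : Lp ℝ 1 μ →L[ℝ] ℝ :=
  (L1.integralCLM (α := Ω) (E := ℝ) (μ := μ)).comp (cut μ hs)

lemma phi_apply {s : Set Ω} (hs : MeasurableSet s) (f : Lp ℝ 1 μ) :
    phi μ hs f = ∫ t in s, f t ∂μ := by
  have e : phi μ hs f = L1.integral (cut μ hs f) := by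
    rw [L1.integral_eq]; rfl
  rw [e, L1.integral_eq_integral, ← integral_indicator hs]
  exact integral_congr_ae (cut_coeFn hs f)

lemma phi_cut {s t : Set Ω} (hs : MeasurableSet s) (ht : MeasurableSet t) (f : Lp ℝ 1 μ) :
    phi μ ht (cut μ hs f) = phi μ (hs.inter ht) f := by
  change (L1.integralCLM (α := Ω) (E := ℝ) (μ := μ)) (cut μ ht (cut μ hs f)) = _
  rw [cut_cut]; rfl

lemma abs_phi_le {s : Set Ω} (hs : MeasurableSet s) (f : Lp ℝ 1 μ) :
    |phi μ hs f| ≤ ‖cut μ hs f‖ := by
  have e : phi μ hs f = L1.integral (cut μ hs f) := by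
    rw [L1.integral_eq]; rfl
  rw [e]
  exact L1.norm_integral_le (cut μ hs f)

/-- Every functional on `L₁(μ)`, `μ` finite, is given by a bounded density. -/
theorem exists_density [IsFiniteMeasure μ] (h : Lp ℝ 1 μ →L[ℝ] ℝ) :
    ∃ g : Ω → ℝ, Measurable g ∧ (∀ᵐ t ∂μ, |g t| ≤ ‖h‖) ∧
      ∀ f : Lp ℝ 1 μ, h f = ∫ t, g t * f t ∂μ := by
  classical
  set m : Set Ω → ℝ := fun s => if hs : MeasurableSet s then
    h (indicatorConstLp 1 hs (measure_ne_top μ s) (1 : ℝ)) else 0 with hm
  have hms : ∀ (s : Set Ω) (hs : MeasurableSet s),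
      m s = h (indicatorConstLp 1 hs (measure_ne_top μ s) (1 : ℝ)) := fun s hs => by
    rw [hm]; simp only [dif_pos hs]
  have hnorm : ∀ (s : Set Ω) (hs : MeasurableSet s),
      ‖indicatorConstLp 1 hs (measure_ne_top μ s) (1 : ℝ)‖ = μ.real s := fun s hs => by
    rw [norm_indicatorConstLp one_ne_zero ENNReal.one_ne_top]; simp
  have hmle : ∀ (s : Set Ω), MeasurableSet s → |m s| ≤ ‖h‖ * μ.real s := fun s hs => by
    rw [hms s hs, ← hnorm s hs]
    exact h.le_opNorm _
  set ν : Measure Ω := (‖h‖₊ : ENNReal) • μ with hν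
  have hνfin : IsFiniteMeasure ν := by
    refine ⟨?_⟩
    rw [hν, Measure.smul_apply]
    exact ENNReal.mul_lt_top ENNReal.coe_lt_top (measure_lt_top μ _)
  have hle : ∀ s, ‖m s‖ₑ ≤ ν s := by
    intro s
    by_cases hs : MeasurableSet s
    · have h1 := hmle s hs
      rw [hν, Measure.smul_apply, smul_eq_mul, ← ofReal_norm, Real.norm_eq_abs]
      refine (ENNReal.ofReal_le_ofReal h1).trans (le_of_eq ?_)
      rw [ENNReal.ofReal_mul (norm_nonneg _), measureReal_def,
        ENNReal.ofReal_toReal (measure_ne_top _ _)]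
      congr 1
      rw [ofReal_norm]; rfl
    · rw [hm]; simp only [dif_neg hs]; simp
  have hadd : ∀ s t, MeasurableSet s → MeasurableSet t → Disjoint s t →
      m (s ∪ t) = m s + m t := by
    intro s t hs ht hst
    rw [hms _ (hs.union ht), hms _ hs, hms _ ht, ← map_add]
    congr 1
    exact indicatorConstLp_disjoint_union hs ht (measure_ne_top _ _) (measure_ne_top _ _) hst _
  have hnot : ∀ s, ¬ MeasurableSet s → m s = 0 := fun s hs => by
    rw [hm]; simp only [dif_neg hs]
  let v : SignedMeasure Ω := VectorMeasure.of_additive_of_le_measure m hle hadd hnot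
  have hv : ∀ s, v s = m s := fun s => rfl
  have hac : VectorMeasure.AbsolutelyContinuous v μ.toENNRealVectorMeasure := by
    refine VectorMeasure.AbsolutelyContinuous.mk fun s hs h0 => ?_
    rw [Measure.toENNRealVectorMeasure_apply_measurable hs] at h0
    rw [hv]
    have h1 := hmle s hs
    rw [measureReal_def, h0] at h1
    simpa using h1
  have hd := (SignedMeasure.absolutelyContinuous_iff_withDensityᵥ_rnDeriv_eq v μ).1 hac
  set g : Ω → ℝ := v.rnDeriv μ with hg
  have hgm : Measurable g := SignedMeasure.measurable_rnDeriv v μ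
  have hgi : Integrable g μ := SignedMeasure.integrable_rnDeriv v μ
  have hint : ∀ s, MeasurableSet s → ∫ t in s, g t ∂μ = m s := fun s hs => by
    rw [← hv, ← hd, withDensityᵥ_apply hgi hs]
  have hb1 : ∀ᵐ t ∂μ, g t ≤ ‖h‖ := by
    refine ae_le_of_forall_setIntegral_le hgi (integrable_const _) fun s hs _ => ?_
    rw [hint s hs, setIntegral_const, smul_eq_mul, mul_comm]
    exact (le_abs_self _).trans (hmle s hs)
  have hb2 : ∀ᵐ t ∂μ, -g t ≤ ‖h‖ := by
    refine ae_le_of_forall_setIntegral_le hgi.neg (integrable_const _) fun s hs _ => ?_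
    rw [integral_neg, hint s hs, setIntegral_const, smul_eq_mul, mul_comm]
    exact (neg_le_abs _).trans (hmle s hs)
  have hb : ∀ᵐ t ∂μ, |g t| ≤ ‖h‖ := by
    filter_upwards [hb1, hb2] with t h1 h2
    exact abs_le.2 ⟨by linarith, h1⟩
  refine ⟨g, hgm, hb, ?_⟩
  have hgf : ∀ f : Lp ℝ 1 μ, Integrable (fun t => g t * f t) μ := fun f =>
    (L1.integrable_coeFn f).bdd_mul hgm.aestronglyMeasurable
      (by filter_upwards [hb] with t ht; exact ht)
  -- the two functionals agree
  let Λ : Lp ℝ 1 μ →L[ℝ] ℝ := LinearMap.mkContinuous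
    { toFun := fun f => ∫ t, g t * f t ∂μ
      map_add' := by
        intro f f'
        rw [← integral_add (hgf f) (hgf f')]
        refine integral_congr_ae ?_
        filter_upwards [Lp.coeFn_add f f'] with t ht
        rw [ht, Pi.add_apply]; ring
      map_smul' := by
        intro c f
        rw [RingHom.id_apply, smul_eq_mul, ← integral_const_mul]
        refine integral_congr_ae ?_
        filter_upwards [Lp.coeFn_smul c f] with t ht
        rw [ht, Pi.smul_apply, smul_eq_mul]; ring } ‖h‖ (by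
      intro f
      change ‖∫ t, g t * f t ∂μ‖ ≤ _
      rw [L1.norm_eq_integral_norm, ← integral_const_mul]
      refine norm_integral_le_of_norm_le ((L1.integrable_coeFn f).norm.const_mul _) ?_
      filter_upwards [hb] with t ht
      rw [norm_mul]
      exact mul_le_mul_of_nonneg_right ht (norm_nonneg _))
  have hΛ : ∀ f, Λ f = ∫ t, g t * f t ∂μ := fun f => rfl
  suffices hs : ∀ f : Lp ℝ 1 μ, h f = Λ f from fun f => by rw [hs f, hΛ]
  intro f
  refine Lp.induction (p := 1) ENNReal.one_ne_top (motive := fun f => h f = Λ f) ?_ ?_ ?_ f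
  · intro c s hs hμs
    have e : (Lp.simpleFunc.indicatorConst 1 hs hμs.ne c : Lp ℝ 1 μ) =
        c • indicatorConstLp 1 hs (measure_ne_top μ s) (1 : ℝ) := by
      rw [Lp.simpleFunc.coe_indicatorConst]
      ext1
      filter_upwards [indicatorConstLp_coeFn (p := 1) (hs := hs) (hμs := hμs.ne) (c := c),
        Lp.coeFn_smul c (indicatorConstLp 1 hs (measure_ne_top μ s) (1 : ℝ)),
        indicatorConstLp_coeFn (p := 1) (hs := hs) (hμs := measure_ne_top μ s) (c := (1 : ℝ))]
        with t h1 h2 h3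
      rw [h1, h2, Pi.smul_apply, h3]
      by_cases ht : t ∈ s <;> simp [ht]
    rw [e, map_smul, map_smul, ← hms s hs, ← hint s hs, hΛ, ← integral_indicator hs]
    congr 1
    refine integral_congr_ae ?_
    filter_upwards [indicatorConstLp_coeFn (p := 1) (hs := hs) (hμs := measure_ne_top μ s)
      (c := (1 : ℝ))] with t h3
    rw [h3]
    by_cases ht : t ∈ s <;> simp [ht]
  · intro f g hf hg _ h1 h2
    rw [map_add, map_add, h1, h2]
  · exact isClosed_eq h.continuous Λ.continuous

end L1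

end Pool.Agent.R275
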