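import Pool.Agent.R275.LOne

/-!
# Atoms in the bidual of `L₁(μ)`, `μ` finite

For an ultrafilter `W` of sets containing all conull sets, the density of a functional on `L₁(μ)` has
a limit along `W`.  This defines a functional `D` of norm one on the dual of `L₁(μ)`.
-/

set_option autoImplicit false

open MeasureTheory Filter Topology

namespace Pool.Agent.R275

variable {Ω : Type*} [MeasurableSpace Ω] {μ : Measure Ω}

/-- `c` is the limit of the density of `h` along `W`. -/
def IsLim (μ : Measure Ω) (W : Ultrafilter Ω) (h : Lp ℝ 1 μ →L[ℝ] ℝ) (c : ℝ) : Prop :=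
  ∀ ε > (0 : ℝ), ∃ (A : Set Ω) (hA : MeasurableSet A), A ∈ W ∧
    ‖h.comp (cut μ hA) - c • phi μ hA‖ ≤ ε

lemma comp_cut_cut {A B : Set Ω} (hA : MeasurableSet A) (hB : MeasurableSet B)
    (h : Lp ℝ 1 μ →L[ℝ] ℝ) :
    (h.comp (cut μ hA)).comp (cut μ hB) = h.comp (cut μ (hB.inter hA)) := by
  ext f
  change h (cut μ hA (cut μ hB f)) = h (cut μ _ f)
  rw [cut_cut]

lemma phi_comp_cut {A B : Set Ω} (hA : MeasurableSet A) (hB : MeasurableSet B) :
    (phi μ hA).comp (cut μ hB) = phi μ (hB.inter hA) := by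
  ext f
  exact phi_cut hB hA f

lemma norm_comp_cut_le {B : Set Ω} (hB : MeasurableSet B) (h : Lp ℝ 1 μ →L[ℝ] ℝ) :
    ‖h.comp (cut μ hB)‖ ≤ ‖h‖ := by
  refine ContinuousLinearMap.opNorm_le_bound _ (norm_nonneg _) fun f => ?_
  refine (h.le_opNorm _).trans ?_
  exact mul_le_mul_of_nonneg_left (norm_cut_le hB f) (norm_nonneg _)

/-- The approximation persists on smaller sets. -/
lemma approx_inter {A B : Set Ω} (hA : MeasurableSet A) (hB : MeasurableSet B)
    {h : Lp ℝ 1 μ →L[ℝ] ℝ} {c ε : ℝ} (he : ‖h.comp (cut μ hA) - c • phi μ hA‖ ≤ ε) :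
    ‖h.comp (cut μ (hB.inter hA)) - c • phi μ (hB.inter hA)‖ ≤ ε := by
  refine le_trans ?_ he
  have e : h.comp (cut μ (hB.inter hA)) - c • phi μ (hB.inter hA)
      = (h.comp (cut μ hA) - c • phi μ hA).comp (cut μ hB) := by
    rw [← comp_cut_cut hA hB, ← phi_comp_cut hA hB]
    ext f
    rfl
  rw [e]
  exact norm_comp_cut_le hB _

lemma norm_phi_ge [IsFiniteMeasure μ] {A : Set Ω} (hA : MeasurableSet A) (hμ : μ A ≠ 0) (c : ℝ) :
    |c| ≤ ‖c • phi μ hA‖ := by
  have hpos : 0 < μ.real A := by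
    rw [measureReal_def]
    exact ENNReal.toReal_pos hμ (measure_ne_top _ _)
  set u : Lp ℝ 1 μ := indicatorConstLp 1 hA (measure_ne_top μ A) (1 : ℝ) with hu
  have hun : ‖u‖ = μ.real A := by
    rw [hu, norm_indicatorConstLp one_ne_zero ENNReal.one_ne_top]; simp
  have hpu : phi μ hA u = μ.real A := by
    rw [phi_apply]
    have : ∫ t in A, u t ∂μ = ∫ t in A, (1 : ℝ) ∂μ := by
      refine setIntegral_congr_ae hA ?_
      filter_upwards [indicatorConstLp_coeFn (p := 1) (hs := hA) (hμs := measure_ne_top μ A)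
        (c := (1 : ℝ))] with t ht htA
      rw [hu, ht, Set.indicator_of_mem htA]
    rw [this, setIntegral_const]; simp
  have h1 := (c • phi μ hA).le_opNorm u
  rw [smul_apply, hpu, hun, smul_eq_mul, norm_mul, Real.norm_eq_abs,
    Real.norm_of_nonneg hpos.le] at h1
  exact le_of_mul_le_mul_right h1 hpos

section

variable [IsFiniteMeasure μ] {W : Ultrafilter Ω}

lemma ne_zero_of_mem (hW : (W : Filter Ω) ≤ ae μ) {A : Set Ω} (hA : A ∈ W) : μ A ≠ 0 := by
  intro h0
  have h1 : Aᶜ ∈ ae μ := by rw [mem_ae_iff, compl_compl]; exact h0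
  have h2 : Aᶜ ∈ (W : Filter Ω) := hW h1
  exact (Ultrafilter.compl_mem_iff_notMem.1 h2) hA

lemma IsLim.unique (hW : (W : Filter Ω) ≤ ae μ) {h : Lp ℝ 1 μ →L[ℝ] ℝ} {c d : ℝ}
    (hc : IsLim μ W h c) (hd : IsLim μ W h d) : c = d := by
  have key : ∀ ε > (0 : ℝ), |c - d| ≤ 2 * ε := by
    intro ε hε
    obtain ⟨A, hA, hAW, h1⟩ := hc ε hε
    obtain ⟨B, hB, hBW, h2⟩ := hd ε hε
    have h1' := approx_inter hA hB h1
    have h2' := approx_inter hB hA h2
    have e : (A ∩ B) = (B ∩ A) := Set.inter_comm _ _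
    have h2'' : ‖h.comp (cut μ (hB.inter hA)) - d • phi μ (hB.inter hA)‖ ≤ ε := by
      have e2 : cut μ (hA.inter hB) = cut μ (hB.inter hA) := cut_congr _ _ e
      have e3 : phi μ (hA.inter hB) = phi μ (hB.inter hA) := by
        unfold phi; rw [e2]
      rw [← e2, ← e3]; exact h2'
    have hmem : B ∩ A ∈ W := inter_mem hBW hAW
    refine (norm_phi_ge (hB.inter hA) (ne_zero_of_mem hW hmem) (c - d)).trans ?_
    have e4 : (c - d) • phi μ (hB.inter hA)
        = (h.comp (cut μ (hB.inter hA)) - d • phi μ (hB.inter hA))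
          - (h.comp (cut μ (hB.inter hA)) - c • phi μ (hB.inter hA)) := by
      ext f
      change (c - d) * phi μ (hB.inter hA) f
        = (h (cut μ (hB.inter hA) f) - d * phi μ (hB.inter hA) f)
          - (h (cut μ (hB.inter hA) f) - c * phi μ (hB.inter hA) f)
      ring
    rw [e4]
    refine (norm_sub_le _ _).trans ?_
    linarith
  have h0 : |c - d| ≤ 0 := by
    refine le_of_forall_pos_le_add fun ε hε => ?_
    have := key (ε / 2) (by positivity)
    linarith
  exact sub_eq_zero.1 (abs_eq_zero.1 (le_antisymm h0 (abs_nonneg _)))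

lemma IsLim.abs_le (hW : (W : Filter Ω) ≤ ae μ) {h : Lp ℝ 1 μ →L[ℝ] ℝ} {c : ℝ}
    (hc : IsLim μ W h c) : |c| ≤ ‖h‖ := by
  refine le_of_forall_pos_le_add fun ε hε => ?_
  obtain ⟨A, hA, hAW, h1⟩ := hc ε hε
  refine (norm_phi_ge hA (ne_zero_of_mem hW hAW) c).trans ?_
  have e : c • phi μ hA = h.comp (cut μ hA) - (h.comp (cut μ hA) - c • phi μ hA) := by abel
  rw [e]
  exact (norm_sub_le _ _).trans (add_le_add (norm_comp_cut_le hA h) h1)

lemma IsLim.add {h k : Lp ℝ 1 μ →L[ℝ] ℝ} {c d : ℝ} (hc : IsLim μ W h c) (hd : IsLim μ W k d) :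
    IsLim μ W (h + k) (c + d) := by
  intro ε hε
  obtain ⟨A, hA, hAW, h1⟩ := hc (ε / 2) (by positivity)
  obtain ⟨B, hB, hBW, h2⟩ := hd (ε / 2) (by positivity)
  have h1' := approx_inter hA hB h1
  have h2' := approx_inter hB hA h2
  have e : (A ∩ B) = (B ∩ A) := Set.inter_comm _ _
  have e2 : cut μ (hA.inter hB) = cut μ (hB.inter hA) := cut_congr _ _ e
  have e3 : phi μ (hA.inter hB) = phi μ (hB.inter hA) := by
    unfold phi; rw [e2]
  rw [e2, e3] at h2'
  refine ⟨B ∩ A, hB.inter hA, inter_mem hBW hAW, ?_⟩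
  have e4 : (h + k).comp (cut μ (hB.inter hA)) - (c + d) • phi μ (hB.inter hA)
      = (h.comp (cut μ (hB.inter hA)) - c • phi μ (hB.inter hA))
        + (k.comp (cut μ (hB.inter hA)) - d • phi μ (hB.inter hA)) := by
    rw [add_smul, ContinuousLinearMap.add_comp]; abel
  rw [e4]
  refine (norm_add_le _ _).trans ?_
  linarith

lemma IsLim.smul {h : Lp ℝ 1 μ →L[ℝ] ℝ} {c : ℝ} (hc : IsLim μ W h c) (r : ℝ) :
    IsLim μ W (r • h) (r * c) := by
  intro ε hε
  obtain ⟨A, hA, hAW, h1⟩ := hc (ε / (|r| + 1)) (by positivity)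
  refine ⟨A, hA, hAW, ?_⟩
  have e : (r • h).comp (cut μ hA) - (r * c) • phi μ hA
      = r • (h.comp (cut μ hA) - c • phi μ hA) := by
    rw [smul_sub, smul_smul, ContinuousLinearMap.smul_comp]
  rw [e, norm_smul, Real.norm_eq_abs]
  calc |r| * ‖h.comp (cut μ hA) - c • phi μ hA‖ ≤ |r| * (ε / (|r| + 1)) := by gcongr
    _ ≤ ε := by
      rw [mul_div_assoc', div_le_iff₀ (by positivity)]
      nlinarith [abs_nonneg r]

lemma IsLim.of_cut {h : Lp ℝ 1 μ →L[ℝ] ℝ} {c : ℝ} {A : Set Ω} (hA : MeasurableSet A)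
    (hAW : A ∈ W) (e : h.comp (cut μ hA) = c • phi μ hA) : IsLim μ W h c := by
  intro ε hε
  refine ⟨A, hA, hAW, ?_⟩
  rw [e, sub_self, norm_zero]
  exact hε.le

/-- The limit exists. -/
theorem exists_isLim (hW : (W : Filter Ω) ≤ ae μ) (h : Lp ℝ 1 μ →L[ℝ] ℝ) :
    ∃ c, IsLim μ W h c := by
  obtain ⟨g, hgm, hgb, hg⟩ := exists_density h
  have hb : g ⁻¹' Set.Icc (-‖h‖) ‖h‖ ∈ (W : Filter Ω) := by
    refine hW ?_
    filter_upwards [hgb] with t ht
    exact abs_le.1 ht
  have hle : ((W.map g : Ultrafilter ℝ) : Filter ℝ) ≤ 𝓟 (Set.Icc (-‖h‖) ‖h‖) := by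
    rw [le_principal_iff]; exact hb
  obtain ⟨c, -, hc⟩ := isCompact_Icc.ultrafilter_le_nhds (W.map g) hle
  refine ⟨c, fun ε hε => ?_⟩
  have hA : MeasurableSet (g ⁻¹' Metric.closedBall c ε) := hgm Metric.isClosed_closedBall.measurableSet
  have hAW : g ⁻¹' Metric.closedBall c ε ∈ W := hc (Metric.closedBall_mem_nhds c hε)
  refine ⟨_, hA, hAW, ?_⟩
  refine ContinuousLinearMap.opNorm_le_bound _ hε.le fun f => ?_
  have e : (h.comp (cut μ hA) - c • phi μ hA) f
      = ∫ t, (g t - c) * (cut μ hA f : Ω → ℝ) t ∂μ := by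
    have hi1 : Integrable (fun t => (cut μ hA f : Ω → ℝ) t) μ := L1.integrable_coeFn _
    have hi2 : Integrable (fun t => g t * (cut μ hA f : Ω → ℝ) t) μ :=
      hi1.bdd_mul hgm.aestronglyMeasurable (by filter_upwards [hgb] with t ht; exact ht)
    have e1 : h (cut μ hA f) = ∫ t, g t * (cut μ hA f : Ω → ℝ) t ∂μ := hg _
    have e2 : phi μ hA f = ∫ t, (cut μ hA f : Ω → ℝ) t ∂μ := by
      rw [phi_apply, ← integral_indicator hA]
      exact (integral_congr_ae (cut_coeFn hA f)).symm
    change h (cut μ hA f) - c * phi μ hA f = _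
    rw [e1, e2, ← integral_const_mul, ← integral_sub hi2 (hi1.const_mul c)]
    congr 1
    ext t
    ring
  rw [e, L1.norm_eq_integral_norm f, ← integral_const_mul]
  refine norm_integral_le_of_norm_le ((L1.integrable_coeFn f).norm.const_mul _) ?_
  filter_upwards [cut_coeFn hA f] with t ht
  rw [ht, norm_mul]
  by_cases htA : t ∈ g ⁻¹' Metric.closedBall c ε
  · rw [Set.indicator_of_mem htA]
    refine mul_le_mul_of_nonneg_right ?_ (norm_nonneg _)
    exact htA
  · rw [Set.indicator_of_notMem htA, norm_zero, mul_zero]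
    positivity

/-- The functional `D` on the dual: the limit of the density along `W`. -/
noncomputable def atom (μ : Measure Ω) [IsFiniteMeasure μ] (W : Ultrafilter Ω)
    (hW : (W : Filter Ω) ≤ ae μ) : (Lp ℝ 1 μ →L[ℝ] ℝ) →L[ℝ] ℝ :=
  LinearMap.mkContinuous
    { toFun := fun h => (exists_isLim hW h).choose
      map_add' := fun h k => ((exists_isLim hW (h + k)).choose_spec).unique hW
        (((exists_isLim hW h).choose_spec).add ((exists_isLim hW k).choose_spec))
      map_smul' := fun r h => ((exists_isLim hW (r • h)).choose_spec).unique hW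
        (((exists_isLim hW h).choose_spec).smul r) } 1 (fun h => by
      rw [one_mul]
      exact ((exists_isLim hW h).choose_spec).abs_le hW)

lemma atom_spec (hW : (W : Filter Ω) ≤ ae μ) (h : Lp ℝ 1 μ →L[ℝ] ℝ) :
    IsLim μ W h (atom μ W hW h) := (exists_isLim hW h).choose_spec

lemma atom_eq (hW : (W : Filter Ω) ≤ ae μ) {h : Lp ℝ 1 μ →L[ℝ] ℝ} {c : ℝ}
    (hc : IsLim μ W h c) : atom μ W hW h = c := (atom_spec hW h).unique hW hc

lemma norm_atom_le (hW : (W : Filter Ω) ≤ ae μ) : ‖atom μ W hW‖ ≤ 1 :=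
  LinearMap.mkContinuous_norm_le _ zero_le_one _

/-- adding a positive multiple of an atom to a functional in which the atom has a larger weight than
the perturbation `z` -/
theorem norm_add_atom (hW : (W : Filter Ω) ≤ ae μ) {B : Set Ω} (hB : MeasurableSet B)
    (hBW : B ∈ W) (E z : (Lp ℝ 1 μ →L[ℝ] ℝ) →L[ℝ] ℝ)
    (hE : ∀ h : Lp ℝ 1 μ →L[ℝ] ℝ, h.comp (cut μ hB) = h → E h = 0) {t s : ℝ} (hz : ‖z‖ ≤ t)
    (hs : 0 ≤ s) :
    ‖(t • atom μ W hW + E + z) + s • atom μ W hW‖ = ‖t • atom μ W hW + E + z‖ + s := by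
  set D := atom μ W hW with hD
  set w := t • D + E + z with hw
  refine le_antisymm ?_ ?_
  · have h0 : ‖w + s • D‖ ≤ ‖w‖ + ‖s • D‖ := norm_add_le w (s • D)
    have h1 : ‖s • D‖ ≤ ‖s‖ * ‖D‖ := ContinuousLinearMap.opNorm_smul_le s D
    rw [Real.norm_of_nonneg hs] at h1
    have := norm_atom_le (μ := μ) hW
    have h2 : s * ‖D‖ ≤ s * 1 := mul_le_mul_of_nonneg_left this hs
    linarith
  · have key : ∀ ε > (0 : ℝ), ‖w‖ - ε * (1 + ‖w‖) + s ≤ ‖w + s • D‖ := by
      intro ε hε
      -- an almost norming `h`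
      obtain ⟨h, hh, hwh⟩ : ∃ h : Lp ℝ 1 μ →L[ℝ] ℝ, ‖h‖ ≤ 1 ∧ ‖w‖ - ε ≤ w h := by
        by_cases hneg : ‖w‖ - ε < 0
        · exact ⟨0, by simp, by rw [map_zero]; exact hneg.le⟩
        · obtain ⟨h, hh, hlt⟩ := w.exists_lt_apply_of_lt_opNorm (r := ‖w‖ - ε) (by linarith)
          rw [Real.norm_eq_abs] at hlt
          rcases le_total 0 (w h) with h0 | h0
          · exact ⟨h, hh.le, by rw [abs_of_nonneg h0] at hlt; exact hlt.le⟩
          · exact ⟨-h, by rw [norm_neg]; exact hh.le, by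
              rw [abs_of_nonpos h0] at hlt; rw [map_neg]; exact hlt.le⟩
      set c := D h with hc
      have hc1 : c ≤ 1 := by
        have h1 := (atom_spec hW h).abs_le hW
        exact (le_abs_self _).trans (h1.trans hh)
      obtain ⟨A', hA', hAW', h1'⟩ := atom_spec hW h ε hε
      -- shrink the set into `B`
      have hA : MeasurableSet (B ∩ A') := hB.inter hA'
      have hAW : B ∩ A' ∈ W := inter_mem hBW hAW'
      have h1 := approx_inter hA' hB h1'
      set r : Lp ℝ 1 μ →L[ℝ] ℝ := h.comp (cut μ hA) - c • phi μ hA with hr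
      set k : Lp ℝ 1 μ →L[ℝ] ℝ := h - h.comp (cut μ hA) + phi μ hA with hk
      have hk1 : ‖k‖ ≤ 1 := by
        refine ContinuousLinearMap.opNorm_le_bound _ zero_le_one fun f => ?_
        have e : k f = h (f - cut μ hA f) + phi μ hA f := by
          change h f - h (cut μ hA f) + phi μ hA f = _
          rw [map_sub]
        rw [e, one_mul, norm_cut hA f]
        refine (norm_add_le _ _).trans ?_
        have e1 : ‖h (f - cut μ hA f)‖ ≤ ‖f - cut μ hA f‖ :=
          (h.le_opNorm _).trans (mul_le_of_le_one_left (norm_nonneg _) hh)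
        have e2 : ‖phi μ hA f‖ ≤ ‖cut μ hA f‖ := abs_phi_le hA f
        linarith
      have hDk : D k = 1 := by
        refine atom_eq hW (IsLim.of_cut hA hAW ?_)
        rw [one_smul]
        ext f
        change h (cut μ hA f) - h (cut μ hA (cut μ hA f)) + phi μ hA (cut μ hA f) = phi μ hA f
        rw [cut_cut, phi_cut]
        have e1 : cut μ (hA.inter hA) = cut μ hA := cut_congr _ _ (Set.inter_self _)
        have e2 : phi μ (hA.inter hA) = phi μ hA := by unfold phi; rw [e1]
        rw [e1, e2]; ring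
      have hDphi : D (phi μ hA) = 1 := by
        refine atom_eq hW (IsLim.of_cut hA hAW ?_)
        rw [one_smul, phi_comp_cut]
        unfold phi
        rw [cut_congr (hA.inter hA) hA (Set.inter_self _)]
      have hEphi : E (phi μ hA) = 0 := by
        refine hE _ ?_
        rw [phi_comp_cut]
        unfold phi
        rw [cut_congr (hB.inter hA) hA (by
          rw [← Set.inter_assoc, Set.inter_self])]
      have hphin : ‖phi μ hA‖ ≤ 1 := by
        refine ContinuousLinearMap.opNorm_le_bound _ zero_le_one fun f => ?_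
        rw [one_mul]
        exact (abs_phi_le hA f).trans (norm_cut_le hA f)
      have hwphi : 0 ≤ w (phi μ hA) := by
        have e : w (phi μ hA) = t * D (phi μ hA) + E (phi μ hA) + z (phi μ hA) := rfl
        rw [e, hDphi, hEphi]
        have h3 : |z (phi μ hA)| ≤ ‖z‖ := by
          have := z.le_opNorm (phi μ hA)
          rw [Real.norm_eq_abs] at this
          exact this.trans (mul_le_of_le_one_right (norm_nonneg _) hphin)
        have h4 := (abs_le.1 h3).1
        linarith
      have hwr : |w r| ≤ ‖w‖ * ε := by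
        have := w.le_opNorm r
        rw [Real.norm_eq_abs] at this
        exact this.trans (mul_le_mul_of_nonneg_left h1 (norm_nonneg _))
      have hwk : w k = w h + (1 - c) * w (phi μ hA) - w r := by
        have e : k = h + (1 - c) • phi μ hA - r := by
          ext f
          change h f - h (cut μ hA f) + phi μ hA f
            = h f + (1 - c) * phi μ hA f - (h (cut μ hA f) - c * phi μ hA f)
          ring
        rw [e, map_sub, map_add, map_smul, smul_eq_mul]
      have h5 : (w + s • D) k = w k + s := by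
        change w k + s * D k = _
        rw [hDk, mul_one]
      have h6 : (w + s • D) k ≤ ‖w + s • D‖ := by
        have := (w + s • D).le_opNorm k
        rw [Real.norm_eq_abs] at this
        exact (le_abs_self _).trans (this.trans (mul_le_of_le_one_right (norm_nonneg _) hk1))
      have h7 : 0 ≤ (1 - c) * w (phi μ hA) := mul_nonneg (by linarith) hwphi
      have h8 := (abs_le.1 hwr).2
      rw [h5, hwk] at h6
      linarith
    refine le_of_forall_pos_le_add fun δ hδ => ?_
    have h9 := key (δ / (1 + ‖w‖)) (by positivity)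
    rw [div_mul_cancel₀ _ (by positivity)] at h9
    linarith

end

end Pool.Agent.R275
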