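import Mathlib

/-!
Step-isometries, part 1: basic facts and Busemann functions.
-/

namespace Pool.Agent.R275.StepIso

open Filter Topology Set

variable {X : Type*} [NormedAddCommGroup X] [NormedSpace ℝ X]

/-- The two-sided step condition for a bijection, in the form `‖x - y‖ < k ↔ ‖T x - T y‖ < k`. -/
def Step (T : X ≃ X) : Prop :=
  ∀ (k : ℕ) (x y : X), ‖x - y‖ < k ↔ ‖T x - T y‖ < k

theorem Step.symm {T : X ≃ X} (hT : Step T) : Step T.symm := by
  intro k x y
  have := hT k (T.symm x) (T.symm y)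
  simpa using this.symm

theorem Step.le_of_le {T : X ≃ X} (hT : Step T) {k : ℕ} {x y : X} (h : ‖x - y‖ ≤ k) :
    ‖T x - T y‖ ≤ k := by
  by_contra hcon
  push Not at hcon
  set d := ‖T x - T y‖ with hd
  have hdpos : 0 < d := lt_of_le_of_lt (Nat.cast_nonneg k) hcon
  set η : ℝ := min (1 / 2) (d - k) with hη
  have hη0 : 0 < η := lt_min (by norm_num) (by linarith)
  have hη1 : η ≤ 1 / 2 := min_le_left _ _
  have hη2 : η ≤ d - k := min_le_right _ _
  set r : ℝ := 1 - η with hr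
  have hr0 : 0 < r := by rw [hr]; linarith
  set z' : X := T y + (r / d) • (T y - T x) with hz'
  have h1 : ‖z' - T y‖ = r := by
    rw [hz']
    rw [add_sub_cancel_left, norm_smul, norm_sub_rev, ← hd, Real.norm_of_nonneg (by positivity)]
    field_simp
  have h2 : ‖z' - T x‖ = d + r := by
    have : z' - T x = (1 + r / d) • (T y - T x) := by
      rw [hz']; module
    rw [this, norm_smul, norm_sub_rev, ← hd, Real.norm_of_nonneg (by positivity)]
    field_simp
  have h3 : ‖T.symm z' - y‖ < (1 : ℕ) := by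
    rw [hT 1]
    rw [Equiv.apply_symm_apply, h1, hr]
    push_cast; linarith
  have h4 : ¬ ‖T.symm z' - x‖ < ((k + 1 : ℕ) : ℝ) := by
    rw [hT (k + 1)]
    rw [Equiv.apply_symm_apply, h2, hr]
    push_cast; linarith
  apply h4
  have : T.symm z' - x = (T.symm z' - y) + (y - x) := by abel
  calc ‖T.symm z' - x‖ ≤ ‖T.symm z' - y‖ + ‖y - x‖ := by rw [this]; exact norm_add_le _ _
    _ < 1 + k := by
        have : ‖y - x‖ ≤ k := by rw [norm_sub_rev]; exact h
        push_cast at h3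
        linarith
    _ = ((k + 1 : ℕ) : ℝ) := by push_cast; ring

theorem Step.eq_of_eq {T : X ≃ X} (hT : Step T) {k : ℕ} {x y : X} (h : ‖x - y‖ = k) :
    ‖T x - T y‖ = k := by
  apply le_antisymm (hT.le_of_le h.le)
  by_contra hcon
  push Not at hcon
  have := (hT k x y).2 hcon
  linarith

/-- The Busemann function of a sequence of points moving away with unit speed. -/
noncomputable def bus (a : ℕ → X) (x : X) : ℝ := ⨅ m : ℕ, (‖a m - x‖ - m)

/-- A sequence of points with `‖a m - a n‖ = |m - n|`. -/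
def Ray (a : ℕ → X) : Prop := (∀ m, ‖a (m + 1) - a m‖ ≤ 1) ∧ (∀ m : ℕ, (m : ℝ) ≤ ‖a m - a 0‖)

theorem Ray.bddBelow {a : ℕ → X} (ha : Ray a) (x : X) :
    BddBelow (Set.range (fun m : ℕ => ‖a m - x‖ - m)) := by
  refine ⟨-‖x - a 0‖, ?_⟩
  rintro _ ⟨m, rfl⟩
  have h1 := ha.2 m
  have h2 : ‖a m - a 0‖ ≤ ‖a m - x‖ + ‖x - a 0‖ := by
    have : a m - a 0 = (a m - x) + (x - a 0) := by abel
    rw [this]; exact norm_add_le _ _
  show -‖x - a 0‖ ≤ ‖a m - x‖ - m
  linarith

theorem Ray.antitone {a : ℕ → X} (ha : Ray a) (x : X) :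
    Antitone (fun m : ℕ => ‖a m - x‖ - m) := by
  apply antitone_nat_of_succ_le
  intro m
  have h1 := ha.1 m
  have h2 : ‖a (m + 1) - x‖ ≤ ‖a (m + 1) - a m‖ + ‖a m - x‖ := by
    have : a (m + 1) - x = (a (m + 1) - a m) + (a m - x) := by abel
    rw [this]; exact norm_add_le _ _
  push_cast
  linarith

theorem Ray.tendsto {a : ℕ → X} (ha : Ray a) (x : X) :
    Tendsto (fun m : ℕ => ‖a m - x‖ - m) atTop (𝓝 (bus a x)) :=
  tendsto_atTop_ciInf (ha.antitone x) (ha.bddBelow x)

theorem Ray.bus_le {a : ℕ → X} (ha : Ray a) (x : X) (m : ℕ) : bus a x ≤ ‖a m - x‖ - m :=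
  ciInf_le (ha.bddBelow x) m

theorem exists_lt_of_bus_lt {a : ℕ → X} {x : X} {r : ℝ} (h : bus a x < r) :
    ∃ m : ℕ, ‖a m - x‖ - m < r := exists_lt_of_ciInf_lt h

theorem le_bus {a : ℕ → X} {x : X} {r : ℝ} (h : ∀ m : ℕ, r ≤ ‖a m - x‖ - m) : r ≤ bus a x :=
  le_ciInf h

theorem Ray.bus_sub_le {a : ℕ → X} (ha : Ray a) (x y : X) : bus a x - bus a y ≤ ‖x - y‖ := by
  rw [sub_le_iff_le_add]
  have : bus a x - ‖x - y‖ ≤ bus a y := by
    apply le_bus
    intro m
    have h1 := ha.bus_le x m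
    have h2 : ‖a m - x‖ ≤ ‖a m - y‖ + ‖x - y‖ := by
      have : a m - x = (a m - y) - (x - y) := by abel
      rw [this]; exact norm_sub_le _ _
    linarith
  linarith

theorem Ray.continuous_bus {a : ℕ → X} (ha : Ray a) : Continuous (bus a) := by
  have : LipschitzWith 1 (bus a) := by
    apply LipschitzWith.of_dist_le_mul
    intro x y
    rw [Real.dist_eq, abs_le, dist_eq_norm]
    have h1 := ha.bus_sub_le x y
    have h2 := ha.bus_sub_le y x
    rw [norm_sub_rev] at h2
    simp only [NNReal.coe_one, one_mul]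
    constructor <;> linarith
  exact this.continuous

theorem Ray.convex {a : ℕ → X} (ha : Ray a) (x y : X) {t : ℝ} (ht0 : 0 ≤ t) (ht1 : t ≤ 1) :
    bus a ((1 - t) • x + t • y) ≤ (1 - t) * bus a x + t * bus a y := by
  have h1 := (ha.tendsto x).const_mul (1 - t)
  have h2 := (ha.tendsto y).const_mul t
  refine le_of_tendsto_of_tendsto' (ha.tendsto _) (h1.add h2) ?_
  intro m
  have : a m - ((1 - t) • x + t • y) = (1 - t) • (a m - x) + t • (a m - y) := by module
  rw [this]
  have h3 : ‖(1 - t) • (a m - x) + t • (a m - y)‖ ≤ (1 - t) * ‖a m - x‖ + t * ‖a m - y‖ := by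
    refine (norm_add_le _ _).trans ?_
    rw [norm_smul, norm_smul, Real.norm_of_nonneg ht0, Real.norm_of_nonneg (by linarith)]
  nlinarith

end Pool.Agent.R275.StepIso
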