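import Pool.Agent.R275.StepIso1

/-!
Step-isometries, part 2: the pair lemma.
-/

namespace Pool.Agent.R275.StepIso

open Filter Topology Set

variable {X : Type*} [NormedAddCommGroup X] [NormedSpace ℝ X]

section Affine

variable {Y : Submodule ℝ X} {D : Set X} (hdense : (Y : Set X) ⊆ closure D)

include hdense

theorem const_sum {a a' : ℕ → X} (ha : Ray a) (ha' : Ray a')
    (hlow : ∀ x, 0 ≤ bus a x + bus a' x) (hup : ∀ x ∈ D, bus a x + bus a' x ≤ 2)
    {x y : X} (hx : x ∈ Y) (hy : y ∈ Y) :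
    bus a x + bus a' x = bus a y + bus a' y := by
  have hup' : ∀ x ∈ Y, bus a x + bus a' x ≤ 2 := by
    intro x hx
    have hcl : IsClosed {x : X | bus a x + bus a' x ≤ 2} :=
      isClosed_le (ha.continuous_bus.add ha'.continuous_bus) continuous_const
    exact closure_minimal hup hcl (hdense hx)
  have key : ∀ x ∈ Y, ∀ y ∈ Y, bus a y + bus a' y ≤ bus a x + bus a' x := by
    intro x hx y hy
    apply le_of_forall_pos_le_add
    intro ε hε
    obtain ⟨N, hN⟩ := exists_nat_gt (2 / ε)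
    have hNpos : (0 : ℝ) < N := lt_trans (by positivity) hN
    have hN1 : (1 : ℝ) ≤ N := by
      have : (0 : ℕ) < N := by exact_mod_cast hNpos
      exact_mod_cast this
    set t : ℝ := 1 / N with ht
    have ht0 : 0 ≤ t := by positivity
    have ht1 : t ≤ 1 := by rw [ht, div_le_one hNpos]; exact hN1
    set z : X := x + (N : ℝ) • (y - x) with hz
    have hzY : z ∈ Y := Y.add_mem hx (Y.smul_mem _ (Y.sub_mem hy hx))
    have hyz : y = (1 - t) • x + t • z := by
      rw [hz, smul_add, smul_smul, ht, one_div, inv_mul_cancel₀ hNpos.ne']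
      module
    have h1 := ha.convex x z ht0 ht1
    have h2 := ha'.convex x z ht0 ht1
    rw [← hyz] at h1 h2
    have h3 := hup' z hzY
    have h4 := hlow x
    have h5 : t * 2 < ε := by
      rw [ht, one_div, inv_mul_lt_iff₀ hNpos]
      rwa [div_lt_iff₀ hε] at hN
    nlinarith
  exact le_antisymm (key y hy x hx) (key x hx y hy)

theorem midpoint_bus {a a' : ℕ → X} (ha : Ray a) (ha' : Ray a')
    (hlow : ∀ x, 0 ≤ bus a x + bus a' x) (hup : ∀ x ∈ D, bus a x + bus a' x ≤ 2)
    {x y : X} (hx : x ∈ Y) (hy : y ∈ Y) :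
    bus a ((1 / 2 : ℝ) • x + (1 / 2 : ℝ) • y) = (bus a x + bus a y) / 2 := by
  have h1 := ha.convex x y (t := 1 / 2) (by norm_num) (by norm_num)
  have h2 := ha'.convex x y (t := 1 / 2) (by norm_num) (by norm_num)
  have e : (1 - 1 / 2 : ℝ) = 1 / 2 := by norm_num
  rw [e] at h1 h2
  have hz : (1 / 2 : ℝ) • x + (1 / 2 : ℝ) • y ∈ Y := Y.add_mem (Y.smul_mem _ hx) (Y.smul_mem _ hy)
  have h3 := const_sum hdense ha ha' hlow hup hx hy
  have h4 := const_sum hdense ha ha' hlow hup hx hz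
  linarith

theorem exists_linear {a a' : ℕ → X} (ha : Ray a) (ha' : Ray a')
    (hlow : ∀ x, 0 ≤ bus a x + bus a' x) (hup : ∀ x ∈ D, bus a x + bus a' x ≤ 2) :
    ∃ f : Y →L[ℝ] ℝ, ‖f‖ ≤ 1 ∧ ∀ x : Y, bus a x = bus a 0 - f x := by
  have hmid : ∀ x y : Y, bus a (((1 / 2 : ℝ) • x + (1 / 2 : ℝ) • y : Y) : X) =
      (bus a x + bus a y) / 2 := fun x y => midpoint_bus hdense ha ha' hlow hup x.2 y.2
  set φ : Y → ℝ := fun x => bus a 0 - bus a x with hφ
  have hφ0 : φ 0 = 0 := by simp [hφ]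
  have hφmid : ∀ x y : Y, φ ((1 / 2 : ℝ) • x + (1 / 2 : ℝ) • y) = (φ x + φ y) / 2 := by
    intro x y
    simp only [hφ]
    rw [hmid]; ring
  have hφ2 : ∀ x : Y, φ ((2 : ℝ) • x) = 2 * φ x := by
    intro x
    have := hφmid ((2 : ℝ) • x) 0
    rw [smul_zero, add_zero, smul_smul, hφ0] at this
    norm_num at this
    linarith
  have hφadd : ∀ x y : Y, φ (x + y) = φ x + φ y := by
    intro x y
    have := hφmid ((2 : ℝ) • x) ((2 : ℝ) • y)
    rw [smul_smul, smul_smul, hφ2, hφ2] at this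
    norm_num at this
    rw [this]; ring
  have hcont : Continuous φ := by
    have := ha.continuous_bus
    simp only [hφ]
    fun_prop
  let F : Y →+ ℝ := AddMonoidHom.mk' φ hφadd
  refine ⟨F.toRealLinearMap hcont, ?_, ?_⟩
  · apply ContinuousLinearMap.opNorm_le_bound _ zero_le_one
    intro x
    show ‖φ x‖ ≤ 1 * ‖x‖
    rw [Real.norm_eq_abs, abs_le, one_mul]
    have h1 := ha.bus_sub_le 0 (x : X)
    have h2 := ha.bus_sub_le (x : X) 0
    rw [zero_sub, norm_neg] at h1
    rw [sub_zero] at h2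
    simp only [hφ]
    have h3 : ‖(x : X)‖ = ‖x‖ := rfl
    constructor <;> linarith
  · intro x
    show bus a x = bus a 0 - φ x
    simp only [hφ]; ring

end Affine

/-- A linear functional which is bounded as a function vanishes. -/
theorem eq_zero_of_bounded {Y : Submodule ℝ X} (h : Y →L[ℝ] ℝ) {C : ℝ} (hC : ∀ x, |h x| ≤ C) :
    h = 0 := by
  ext x
  by_contra hne
  have hpos : 0 < |h x| := abs_pos.2 hne
  obtain ⟨N, hN⟩ := exists_nat_gt (C / |h x|)
  rw [div_lt_iff₀ hpos] at hN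
  have := hC ((N : ℝ) • x)
  rw [map_smul, smul_eq_mul, abs_mul, Nat.abs_cast] at this
  linarith

section Pair

variable {T : X ≃ X}

/-- The image under the inverse of the forward ray through `s • u`. -/
noncomputable def rayP (T : X ≃ X) (u : X) (s : ℝ) (m : ℕ) : X := T.symm ((s + m) • u)

/-- The image under the inverse of the backward ray through `s • u`. -/
noncomputable def rayM (T : X ≃ X) (u : X) (s : ℝ) (m : ℕ) : X := T.symm ((s - m) • u)

theorem ray_rayP (hT : Step T) {u : X} (hu : ‖u‖ = 1) (s : ℝ) : Ray (rayP T u s) := by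
  constructor
  · intro m
    apply le_of_eq
    have := hT.symm.eq_of_eq (k := 1) (x := (s + ((m + 1 : ℕ) : ℝ)) • u) (y := (s + m) • u) (by
      rw [← sub_smul, norm_smul, hu]
      push_cast
      have : s + (m + 1 : ℝ) - (s + m) = 1 := by ring
      rw [this]; simp)
    simpa [rayP] using this
  · intro m
    apply le_of_eq
    have := hT.symm.eq_of_eq (k := m) (x := (s + (m : ℝ)) • u) (y := (s + (0 : ℕ)) • u) (by
      rw [← sub_smul, norm_smul, hu]
      push_cast
      have : s + (m : ℝ) - (s + 0) = m := by ring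
      rw [this]; simp)
    simpa [rayP] using this.symm

theorem ray_rayM (hT : Step T) {u : X} (hu : ‖u‖ = 1) (s : ℝ) : Ray (rayM T u s) := by
  constructor
  · intro m
    apply le_of_eq
    have := hT.symm.eq_of_eq (k := 1) (x := (s - ((m + 1 : ℕ) : ℝ)) • u) (y := (s - m) • u) (by
      rw [← sub_smul, norm_smul, hu]
      push_cast
      have : s - (m + 1 : ℝ) - (s - m) = -1 := by ring
      rw [this]; simp)
    simpa [rayM] using this
  · intro m
    apply le_of_eq
    have := hT.symm.eq_of_eq (k := m) (x := (s - (m : ℝ)) • u) (y := (s - (0 : ℕ)) • u) (by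
      rw [← sub_smul, norm_smul, hu]
      push_cast
      have : s - (m : ℝ) - (s - 0) = -m := by ring
      rw [this]; simp)
    simpa [rayM] using this.symm

theorem sum_nonneg' (hT : Step T) {u : X} (hu : ‖u‖ = 1) (s : ℝ) (x : X) :
    0 ≤ bus (rayP T u s) x + bus (rayM T u s) x := by
  have h1 := (ray_rayP hT hu s).tendsto x
  have h2 := (ray_rayM hT hu s).tendsto x
  apply ge_of_tendsto' (h1.add h2)
  intro m
  have h3 := hT.symm.eq_of_eq (k := 2 * m) (x := (s + (m : ℝ)) • u) (y := (s - (m : ℝ)) • u) (by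
      rw [← sub_smul, norm_smul, hu]
      push_cast
      have : s + (m : ℝ) - (s - m) = 2 * m := by ring
      rw [this]; simp)
  have h4 : ‖rayP T u s m - rayM T u s m‖ = 2 * m := by
    simpa [rayP, rayM] using h3
  have h5 : ‖rayP T u s m - rayM T u s m‖ ≤ ‖rayP T u s m - x‖ + ‖rayM T u s m - x‖ := by
    have : rayP T u s m - rayM T u s m = (rayP T u s m - x) - (rayM T u s m - x) := by abel
    rw [this]; exact norm_sub_le _ _
  linarith

/-- The norm is differentiable at `u` (as seen from infinity) in the direction `w`. -/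
def Smooth (u w : X) : Prop :=
  Tendsto (fun M : ℝ => ‖M • u + w‖ + ‖M • u - w‖ - 2 * M) atTop (𝓝 0)

variable {u : X} {g : X →L[ℝ] ℝ}

theorem le_norm (hg : ‖g‖ ≤ 1) (x : X) : g x ≤ ‖x‖ := by
  have := g.le_opNorm x
  have h2 := le_abs_self (g x)
  rw [← Real.norm_eq_abs] at h2
  nlinarith [norm_nonneg x]

theorem sub_le_g (hg : ‖g‖ ≤ 1) (hgu : g u = 1) (M : ℝ) (w : X) : M - ‖M • u - w‖ ≤ g w := by
  have := le_norm hg (M • u - w)
  rw [map_sub, map_smul, hgu, smul_eq_mul, mul_one] at this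
  linarith

theorem g_le_add (hg : ‖g‖ ≤ 1) (hgu : g u = 1) (M : ℝ) (w : X) : g w ≤ ‖M • u + w‖ - M := by
  have := le_norm hg (M • u + w)
  rw [map_add, map_smul, hgu, smul_eq_mul, mul_one] at this
  linarith

theorem tendsto_sub (hg : ‖g‖ ≤ 1) (hgu : g u = 1) {w : X} (hw : Smooth u w) :
    Tendsto (fun M : ℝ => ‖M • u - w‖ - M) atTop (𝓝 (-g w)) := by
  refine tendsto_of_tendsto_of_tendsto_of_le_of_le (g := fun _ => -g w)
    (h := fun M : ℝ => (‖M • u + w‖ + ‖M • u - w‖ - 2 * M) - g w) tendsto_const_nhds ?_ ?_ ?_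
  · have := hw.sub_const (g w)
    simpa using this
  · intro M
    have := sub_le_g hg hgu M w
    show -g w ≤ ‖M • u - w‖ - M
    linarith
  · intro M
    have := g_le_add hg hgu M w
    show ‖M • u - w‖ - M ≤ (‖M • u + w‖ + ‖M • u - w‖ - 2 * M) - g w
    linarith

theorem tendsto_add (hg : ‖g‖ ≤ 1) (hgu : g u = 1) {w : X} (hw : Smooth u w) :
    Tendsto (fun M : ℝ => ‖M • u + w‖ - M) atTop (𝓝 (g w)) := by
  have h1 := tendsto_sub hg hgu hw
  have h2 : Tendsto (fun M : ℝ => ‖M • u + w‖ + ‖M • u - w‖ - 2 * M) atTop (𝓝 0) := hw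
  have := h2.sub h1
  simp only [sub_neg_eq_add, zero_add] at this
  refine this.congr ?_
  intro M
  ring

theorem tendsto_shift (s : ℝ) : Tendsto (fun m : ℕ => s + (m : ℝ)) atTop atTop :=
  tendsto_const_nhds.add_atTop tendsto_natCast_atTop_atTop

theorem busP_le (hT : Step T) (hu : ‖u‖ = 1) (hg : ‖g‖ ≤ 1) (hgu : g u = 1) {w : X}
    (hw : Smooth u w) {s : ℝ} {j : ℤ} (hj : s - g w < j) :
    bus (rayP T u s) (T.symm w) ≤ j := by
  have h1 := (tendsto_sub hg hgu hw).comp (tendsto_shift s)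
  have h2 : ∀ᶠ m : ℕ in atTop, ‖(s + (m : ℝ)) • u - w‖ - (s + m) < j - s :=
    h1.eventually (gt_mem_nhds (by linarith))
  have h3 : ∀ᶠ m : ℕ in atTop, (0 : ℤ) ≤ m + j := by
    filter_upwards [eventually_ge_atTop (-j).toNat] with m hm
    have : -j ≤ m := by
      have := Int.self_le_toNat (-j)
      have h5 : (((-j).toNat : ℤ)) ≤ m := by exact_mod_cast hm
      linarith
    linarith
  obtain ⟨m, hm1, hm2⟩ := (h2.and h3).exists
  obtain ⟨k, hk⟩ := Int.eq_ofNat_of_zero_le hm2
  have hk' : (k : ℝ) = m + j := by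
    have : ((k : ℤ) : ℝ) = ((m + j : ℤ) : ℝ) := by rw [hk]
    push_cast at this
    exact this
  have h4 : ‖(s + (m : ℝ)) • u - w‖ < k := by rw [hk']; linarith
  have h5 := (hT.symm k _ _).1 h4
  have h6 := (ray_rayP hT hu s).bus_le (T.symm w) m
  have h7 : rayP T u s m = T.symm ((s + (m : ℝ)) • u) := rfl
  rw [h7] at h6
  linarith

theorem busM_le (hT : Step T) (hu : ‖u‖ = 1) (hg : ‖g‖ ≤ 1) (hgu : g u = 1) {w : X}
    (hw : Smooth u w) {s : ℝ} {j : ℤ} (hj : g w - s < j) :
    bus (rayM T u s) (T.symm w) ≤ j := by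
  have h1 := (tendsto_add hg hgu hw).comp (tendsto_shift (-s))
  have h2 : ∀ᶠ m : ℕ in atTop, ‖(-s + (m : ℝ)) • u + w‖ - (-s + m) < j + s :=
    h1.eventually (gt_mem_nhds (by linarith))
  have h3 : ∀ᶠ m : ℕ in atTop, (0 : ℤ) ≤ m + j := by
    filter_upwards [eventually_ge_atTop (-j).toNat] with m hm
    have : -j ≤ m := by
      have := Int.self_le_toNat (-j)
      have h5 : (((-j).toNat : ℤ)) ≤ m := by exact_mod_cast hm
      linarith
    linarith
  obtain ⟨m, hm1, hm2⟩ := (h2.and h3).exists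
  obtain ⟨k, hk⟩ := Int.eq_ofNat_of_zero_le hm2
  have hk' : (k : ℝ) = m + j := by
    have : ((k : ℤ) : ℝ) = ((m + j : ℤ) : ℝ) := by rw [hk]
    push_cast at this
    exact this
  have h4 : ‖(s - (m : ℝ)) • u - w‖ < k := by
    have e : (s - (m : ℝ)) • u - w = -((-s + (m : ℝ)) • u + w) := by module
    rw [e, norm_neg, hk']
    linarith
  have h5 := (hT.symm k _ _).1 h4
  have h6 := (ray_rayM hT hu s).bus_le (T.symm w) m
  have h7 : rayM T u s m = T.symm ((s - (m : ℝ)) • u) := rfl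
  rw [h7] at h6
  linarith

theorem le_busP (hT : Step T) (hg : ‖g‖ ≤ 1) (hgu : g u = 1) {w : X}
    {s : ℝ} {j : ℤ} (hj : (j : ℝ) ≤ s - g w) :
    (j : ℝ) ≤ bus (rayP T u s) (T.symm w) := by
  apply le_bus
  intro m
  by_cases hm : (0 : ℤ) ≤ m + j
  · obtain ⟨k, hk⟩ := Int.eq_ofNat_of_zero_le hm
    have hk' : (k : ℝ) = m + j := by
      have : ((k : ℤ) : ℝ) = ((m + j : ℤ) : ℝ) := by rw [hk]
      push_cast at this
      exact this
    have h1 := sub_le_g hg hgu (s + m) w
    have h2 : ¬ ‖(s + (m : ℝ)) • u - w‖ < k := by rw [hk']; linarith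
    rw [hT.symm k] at h2
    have h7 : rayP T u s m = T.symm ((s + (m : ℝ)) • u) := rfl
    rw [h7]
    linarith
  · have : (m : ℝ) + j < 0 := by
      push Not at hm
      exact_mod_cast hm
    have := norm_nonneg (rayP T u s m - T.symm w)
    linarith

/-- The pair lemma. -/
theorem exists_pair (hT : Step T) (h0 : T 0 = 0) {Y : Submodule ℝ X} {D : Set X}
    (hdense : (Y : Set X) ⊆ closure D) (hDT : ∀ x ∈ D, T x ∈ D) (hD0 : (0 : X) ∈ D)
    (hu : ‖u‖ = 1) (hsm : ∀ w ∈ D, Smooth u w) :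
    ∃ (f : Y →L[ℝ] ℝ) (g : X →L[ℝ] ℝ) (c : ℝ → ℝ), ‖f‖ ≤ 1 ∧ ‖g‖ ≤ 1 ∧
      (∀ (M : ℝ) (w : X), M - ‖M • u - w‖ ≤ g w) ∧
      (∀ s, s - 1 ≤ c s ∧ c s ≤ s + 1) ∧
      (∀ v : Y, (v : X) ∈ D → ∀ s, s < g (T v) → c s < f v) ∧
      (∀ v : Y, ∀ s, g (T v) ≤ s → f v ≤ c s) ∧
      (∀ (z : Y) (s : ℝ), c s < f z → ∃ M : ℝ, ‖M • u - T z‖ < M - s) := by
  obtain ⟨g, hg1, hgu⟩ := exists_dual_vector ℝ u (by rw [← norm_ne_zero_iff, hu]; norm_num)
  have hg : ‖g‖ ≤ 1 := hg1.le
  have hgu' : g u = 1 := by rw [hgu, hu]; simp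
  have hT0 : T.symm 0 = 0 := by rw [Equiv.symm_apply_eq, h0]
  -- the sum of the Busemann functions is bounded on D
  have hup : ∀ s : ℝ, ∀ x ∈ D, bus (rayP T u s) x + bus (rayM T u s) x ≤ 2 := by
    intro s x hx
    have hw := hsm _ (hDT x hx)
    have h1 := busP_le hT hu hg hgu' hw (s := s) (j := ⌊s - g (T x)⌋ + 1) (by
      push_cast; exact Int.lt_floor_add_one _)
    have h2 := busM_le hT hu hg hgu' hw (s := s) (j := ⌊g (T x) - s⌋ + 1) (by
      push_cast; exact Int.lt_floor_add_one _)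
    rw [Equiv.symm_apply_apply] at h1 h2
    push_cast at h1 h2
    have h3 := Int.floor_le (s - g (T x))
    have h4 := Int.floor_le (g (T x) - s)
    linarith
  have hlin : ∀ s : ℝ, ∃ f : Y →L[ℝ] ℝ, ‖f‖ ≤ 1 ∧
      ∀ x : Y, bus (rayP T u s) x = bus (rayP T u s) 0 - f x := fun s =>
    exists_linear hdense (ray_rayP hT hu s) (ray_rayM hT hu s) (sum_nonneg' hT hu s) (hup s)
  choose F hF1 hF using hlin
  have hFeq : ∀ s, F s = F 0 := by
    intro s
    obtain ⟨k, hk⟩ := exists_nat_gt |s|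
    have hb : ∀ x : X, |bus (rayP T u s) x - bus (rayP T u 0) x| ≤ k := by
      intro x
      have hlim := ((ray_rayP hT hu s).tendsto x).sub ((ray_rayP hT hu 0).tendsto x)
      have hpt : ∀ m : ℕ, |(‖rayP T u s m - x‖ - m) - (‖rayP T u 0 m - x‖ - m)| ≤ k := by
        intro m
        have h1 : ‖(s + (m : ℝ)) • u - (0 + (m : ℝ)) • u‖ < k := by
          rw [← sub_smul, norm_smul, hu]
          have : s + (m : ℝ) - (0 + m) = s := by ring
          rw [this, Real.norm_eq_abs, mul_one]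
          exact hk
        have h2 := (hT.symm k _ _).1 h1
        have h3 : ‖rayP T u s m - rayP T u 0 m‖ < k := h2
        have h4 := abs_norm_sub_norm_le (rayP T u s m - x) (rayP T u 0 m - x)
        have h5 : (rayP T u s m - x) - (rayP T u 0 m - x) = rayP T u s m - rayP T u 0 m := by abel
        rw [h5] at h4
        have h6 : (‖rayP T u s m - x‖ - m) - (‖rayP T u 0 m - x‖ - m) =
          ‖rayP T u s m - x‖ - ‖rayP T u 0 m - x‖ := by ring
        rw [h6]
        linarith
      exact le_of_tendsto' hlim.abs hpt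
    have h1 : F s - F 0 = 0 := by
      apply eq_zero_of_bounded (C := 2 * k)
      intro x
      have e1 := hF s x
      have e2 := hF 0 x
      have e3 := abs_le.1 (hb x)
      have e4 := abs_le.1 (hb 0)
      rw [ContinuousLinearMap.sub_apply, abs_le]
      constructor <;> linarith
    exact sub_eq_zero.1 h1
  refine ⟨F 0, g, fun s => bus (rayP T u s) 0, hF1 0, hg, fun M w => sub_le_g hg hgu' M w,
    ?_, ?_, ?_, ?_⟩
  · intro s
    have h1 := busP_le hT hu hg hgu' (hsm 0 hD0) (s := s) (j := ⌊s⌋ + 1) (by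
      push_cast; rw [map_zero, sub_zero]; exact Int.lt_floor_add_one _)
    have h2 := le_busP hT hg hgu' (w := 0) (s := s) (j := ⌊s⌋) (by
      rw [map_zero, sub_zero]; exact Int.floor_le _)
    rw [hT0] at h1 h2
    push_cast at h1
    have h3 := Int.floor_le s
    have h4 := Int.lt_floor_add_one s
    constructor
    · show s - 1 ≤ bus (rayP T u s) 0
      linarith
    · show bus (rayP T u s) 0 ≤ s + 1
      linarith
  · intro v hv s hs
    have hw := hsm _ (hDT v hv)
    have h1 := (tendsto_sub hg hgu' hw).comp (tendsto_shift s)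
    have h2 : ∀ᶠ m : ℕ in atTop, ‖(s + (m : ℝ)) • u - T v‖ - (s + m) < -s :=
      h1.eventually (gt_mem_nhds (by linarith))
    obtain ⟨m, hm⟩ := h2.exists
    have h3 : ‖(s + (m : ℝ)) • u - T v‖ < m := by linarith
    have h4 := (hT.symm m _ _).1 h3
    rw [Equiv.symm_apply_apply] at h4
    have h5 := (ray_rayP hT hu s).bus_le (v : X) m
    have h6 : rayP T u s m = T.symm ((s + (m : ℝ)) • u) := rfl
    rw [h6] at h5
    have h7 := hF s v
    rw [hFeq s] at h7
    show bus (rayP T u s) 0 < F 0 v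
    linarith
  · intro v s hs
    have h2 := le_busP hT hg hgu' (w := T v) (s := s) (j := 0) (by
      push_cast; linarith)
    rw [Equiv.symm_apply_apply] at h2
    have h7 := hF s v
    rw [hFeq s] at h7
    show F 0 v ≤ bus (rayP T u s) 0
    push_cast at h2
    linarith
  · intro z s hs
    have hs' : bus (rayP T u s) 0 < F 0 z := hs
    have h7 := hF s z
    rw [hFeq s] at h7
    have h8 : bus (rayP T u s) z < 0 := by linarith
    obtain ⟨m, hm⟩ := exists_lt_of_bus_lt h8
    have h9 : ‖T.symm ((s + (m : ℝ)) • u) - z‖ < m := by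
      have : rayP T u s m = T.symm ((s + (m : ℝ)) • u) := rfl
      rw [this] at hm
      linarith
    have h10 := (hT m _ _).1 h9
    rw [Equiv.apply_symm_apply] at h10
    exact ⟨s + m, by linarith⟩

end Pair

end Pool.Agent.R275.StepIso
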