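import Pool.Agent.R275.StepIso2

/-!
Step-isometries, part 3: limits of pairs vanish; smooth directions; countable hulls.
-/

namespace Pool.Agent.R275.StepIso

open Filter Topology Set

variable {X : Type*} [NormedAddCommGroup X] [NormedSpace ℝ X]

theorem dense_coe {Y : Submodule ℝ X} {D : Set X} (hDY : D ⊆ Y)
    (hdense : (Y : Set X) ⊆ closure D) : Dense {v : Y | (v : X) ∈ D} := by
  intro y
  rw [Metric.mem_closure_iff]
  intro ε hε
  obtain ⟨b, hb, hbd⟩ := Metric.mem_closure_iff.1 (hdense y.2) ε hε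
  exact ⟨⟨b, hDY hb⟩, hb, hbd⟩

theorem opNorm_le_of_large {Y : Submodule ℝ X} {D : Set X} (hd : Dense {v : Y | (v : X) ∈ D})
    (h : Y →L[ℝ] ℝ) {K C : ℝ} (hK : 0 ≤ K)
    (hle : ∀ v : Y, (v : X) ∈ D → h v ≤ K * ‖v‖ + C) : ‖h‖ ≤ K := by
  have hle' : ∀ v : Y, h v ≤ K * ‖v‖ + C := by
    intro v
    have hcl : IsClosed {v : Y | h v ≤ K * ‖v‖ + C} :=
      isClosed_le h.continuous (by fun_prop)
    exact closure_minimal hle hcl (hd v)
  have hle2 : ∀ v : Y, h v ≤ K * ‖v‖ := by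
    intro v
    apply le_of_forall_pos_le_add
    intro ε hε
    obtain ⟨N, hN⟩ := exists_nat_gt (max (C / ε) 0)
    have hN0 : (0 : ℝ) < N := lt_of_le_of_lt (le_max_right _ _) hN
    have hN1 : C / ε < N := lt_of_le_of_lt (le_max_left _ _) hN
    rw [div_lt_iff₀ hε] at hN1
    have := hle' ((N : ℝ) • v)
    rw [map_smul, smul_eq_mul, norm_smul, Real.norm_of_nonneg hN0.le] at this
    have h2 : N * h v ≤ N * (K * ‖v‖ + ε) := by nlinarith
    exact le_of_mul_le_mul_left h2 hN0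
  apply ContinuousLinearMap.opNorm_le_bound _ hK
  intro v
  rw [Real.norm_eq_abs, abs_le]
  have h1 := hle2 v
  have h2 := hle2 (-v)
  rw [map_neg, norm_neg] at h2
  constructor <;> linarith

theorem exists_dense_of_lt_norm {Y : Submodule ℝ X} {D : Set X}
    (hd : Dense {v : Y | (v : X) ∈ D}) (h : Y →L[ℝ] ℝ) {r : ℝ} (hr : r < ‖h‖) :
    ∃ v : Y, (v : X) ∈ D ∧ ‖v‖ < 1 ∧ r < h v := by
  obtain ⟨x, hx1, hx2⟩ := h.exists_lt_apply_of_lt_opNorm hr
  have hex : ∃ x : Y, ‖x‖ < 1 ∧ r < h x := by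
    rcases le_total 0 (h x) with h0 | h0
    · exact ⟨x, hx1, by rwa [Real.norm_of_nonneg h0] at hx2⟩
    · refine ⟨-x, by rwa [norm_neg], ?_⟩
      rw [map_neg]
      rwa [Real.norm_of_nonpos h0] at hx2
  have hopen : IsOpen {v : Y | ‖v‖ < 1 ∧ r < h v} := by
    apply IsOpen.inter
    · exact isOpen_lt continuous_norm continuous_const
    · exact isOpen_lt continuous_const h.continuous
  obtain ⟨v, hv1, hv2⟩ := hd.inter_open_nonempty _ hopen hex
  exact ⟨v, hv2, hv1.1, hv1.2⟩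

section Limit

variable {T : X ≃ X} {Y : Submodule ℝ X} {D : Set X}

theorem norm_g_le (hT : Step T) (h0 : T 0 = 0) (hDY : D ⊆ Y) (hd : Dense {v : Y | (v : X) ∈ D})
    (hDT : ∀ x ∈ D, T x ∈ D) (hDT' : ∀ x ∈ D, T.symm x ∈ D)
    {f g : Y →L[ℝ] ℝ} {c : ℝ → ℝ} (hc : ∀ s, s - 1 ≤ c s)
    (h2 : ∀ v : Y, ∀ hv : (v : X) ∈ D, ∀ s, s < g ⟨T v, hDY (hDT v hv)⟩ → c s ≤ f v) :
    ‖g‖ ≤ ‖f‖ := by
  apply opNorm_le_of_large hd g (K := ‖f‖) (C := ‖f‖ + 1) f.opNorm_nonneg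
  intro w hw
  have hv : T.symm (w : X) ∈ D := hDT' _ hw
  have hT0 : T.symm 0 = 0 := by rw [Equiv.symm_apply_eq, h0]
  have hnorm : ‖T.symm (w : X)‖ ≤ ‖(w : X)‖ + 1 := by
    have h1 := (hT.symm (⌊‖(w : X)‖⌋₊ + 1) (w : X) 0).1 (by
      rw [sub_zero]; push_cast; exact Nat.lt_floor_add_one _)
    rw [hT0, sub_zero] at h1
    have h3 := Nat.floor_le (norm_nonneg (w : X))
    push_cast at h1
    linarith
  apply le_of_forall_lt_imp_le_of_dense
  intro s hs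
  have h3 := h2 ⟨T.symm w, hDY hv⟩ hv s (by
    have : (⟨T (T.symm (w : X)), hDY (hDT _ hv)⟩ : Y) = w := by
      apply Subtype.ext; simp
    rw [this]; exact hs)
  have h4 := hc s
  have h5 : f ⟨T.symm w, hDY hv⟩ ≤ ‖f‖ * ‖T.symm (w : X)‖ := by
    have := f.le_opNorm ⟨T.symm w, hDY hv⟩
    have h6 := le_abs_self (f ⟨T.symm w, hDY hv⟩)
    rw [← Real.norm_eq_abs] at h6
    exact h6.trans this
  have h7 : ‖w‖ = ‖(w : X)‖ := rfl
  rw [h7]
  have h8 := mul_le_mul_of_nonneg_left hnorm f.opNorm_nonneg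
  linarith

theorem norm_f_le (hT : Step T) (h0 : T 0 = 0) (hDY : D ⊆ Y) (hd : Dense {v : Y | (v : X) ∈ D})
    (hDT : ∀ x ∈ D, T x ∈ D)
    {f g : Y →L[ℝ] ℝ} {c : ℝ → ℝ} (hc : ∀ s, c s ≤ s + 1)
    (h3 : ∀ v : Y, ∀ hv : (v : X) ∈ D, ∀ s, g ⟨T v, hDY (hDT v hv)⟩ < s → f v ≤ c s) :
    ‖f‖ ≤ ‖g‖ := by
  apply opNorm_le_of_large hd f (K := ‖g‖) (C := ‖g‖ + 1) g.opNorm_nonneg
  intro v hv
  have hnorm : ‖T (v : X)‖ ≤ ‖(v : X)‖ + 1 := by
    have h1 := (hT (⌊‖(v : X)‖⌋₊ + 1) (v : X) 0).1 (by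
      rw [sub_zero]; push_cast; exact Nat.lt_floor_add_one _)
    rw [h0, sub_zero] at h1
    have h3 := Nat.floor_le (norm_nonneg (v : X))
    push_cast at h1
    linarith
  have h5 : g ⟨T v, hDY (hDT v hv)⟩ ≤ ‖g‖ * ‖T (v : X)‖ := by
    have := g.le_opNorm ⟨T v, hDY (hDT v hv)⟩
    have h6 := le_abs_self (g ⟨T v, hDY (hDT v hv)⟩)
    rw [← Real.norm_eq_abs] at h6
    exact h6.trans this
  have h6 : f v ≤ g ⟨T v, hDY (hDT v hv)⟩ + 1 := by
    apply le_of_forall_pos_le_add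
    intro ε hε
    have := h3 v hv (g ⟨T v, hDY (hDT v hv)⟩ + ε) (by linarith)
    have := hc (g ⟨T v, hDY (hDT v hv)⟩ + ε)
    linarith
  have h7 : ‖v‖ = ‖(v : X)‖ := rfl
  rw [h7]
  have h8 := mul_le_mul_of_nonneg_left hnorm g.opNorm_nonneg
  linarith

/-- A pair of functionals with a jump in the monotone relation vanishes. -/
theorem pair_eq_zero (hT : Step T) (h0 : T 0 = 0) (hDY : D ⊆ Y)
    (hd : Dense {v : Y | (v : X) ∈ D})
    (hDT : ∀ x ∈ D, T x ∈ D) (hDT' : ∀ x ∈ D, T.symm x ∈ D)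
    {f g : Y →L[ℝ] ℝ} {c : ℝ → ℝ} (hc : ∀ s, s - 1 ≤ c s ∧ c s ≤ s + 1)
    (h2 : ∀ v : Y, ∀ hv : (v : X) ∈ D, ∀ s, s < g ⟨T v, hDY (hDT v hv)⟩ → c s ≤ f v)
    (h3 : ∀ v : Y, ∀ hv : (v : X) ∈ D, ∀ s, g ⟨T v, hDY (hDT v hv)⟩ < s → f v ≤ c s)
    {δ : ℝ} (hδ : 0 < δ) (h4 : ∀ s, 0 < s → s < δ → c s ≤ 0) :
    f = 0 ∧ g = 0 := by
  have hfg : ‖f‖ = ‖g‖ := le_antisymm
    (norm_f_le hT h0 hDY hd hDT (fun s => (hc s).2) h3)
    (norm_g_le hT h0 hDY hd hDT hDT' (fun s => (hc s).1) h2)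
  by_contra hcon
  have hκ : 0 < ‖g‖ := by
    rcases g.opNorm_nonneg.lt_or_eq with h | h
    · exact h
    · exfalso
      apply hcon
      constructor
      · exact f.opNorm_zero_iff.1 (hfg.trans h.symm)
      · exact g.opNorm_zero_iff.1 h.symm
  set κ := ‖g‖ with hκdef
  -- the value of `c` at `κ`
  have hcκ : κ ≤ c κ := by
    by_contra hlt
    push Not at hlt
    rw [← hfg] at hlt
    obtain ⟨v, hvD, hv1, hv2⟩ := exists_dense_of_lt_norm hd f hlt
    rw [hfg] at hv2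
    have hTv : ‖T (v : X)‖ < 1 := by
      have := (hT 1 (v : X) 0).1 (by rw [sub_zero]; simpa using hv1)
      rw [h0, sub_zero] at this
      simpa using this
    have h5 : g ⟨T v, hDY (hDT v hvD)⟩ < κ := by
      have h6 := g.le_opNorm ⟨T v, hDY (hDT v hvD)⟩
      have h7 := le_abs_self (g ⟨T v, hDY (hDT v hvD)⟩)
      rw [← Real.norm_eq_abs] at h7
      have h8 : ‖(⟨T v, hDY (hDT v hvD)⟩ : Y)‖ = ‖T (v : X)‖ := rfl
      rw [h8, ← hκdef] at h6
      nlinarith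
    have := h3 v hvD κ h5
    linarith
  -- choice of two points
  set θ : ℝ := min (1 / 4) (δ / (4 * (κ + 1))) with hθ
  have hθ0 : 0 < θ := lt_min (by norm_num) (by positivity)
  have hθ1 : θ ≤ 1 / 4 := min_le_left _ _
  have hθ2 : 3 * θ * κ < δ := by
    have : θ ≤ δ / (4 * (κ + 1)) := min_le_right _ _
    rw [le_div_iff₀ (by positivity)] at this
    nlinarith
  obtain ⟨e, _, he1, he2⟩ := exists_dense_of_lt_norm hd g (r := κ * (1 - θ)) (by
    rw [← hκdef]; nlinarith)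
  have hopen2 : IsOpen {w : Y | κ < g w ∧ ‖w - (3 * θ) • e‖ < 1} := by
    apply IsOpen.inter
    · exact isOpen_lt continuous_const g.continuous
    · exact isOpen_lt (continuous_id.sub continuous_const).norm continuous_const
  obtain ⟨w2, ⟨hw21, hw22⟩, hw2D⟩ := hd.inter_open_nonempty _ hopen2 ⟨(1 + 2 * θ) • e, by
    constructor
    · rw [map_smul, smul_eq_mul]
      nlinarith [mul_pos hκ hθ0]
    · have : (1 + 2 * θ) • e - (3 * θ) • e = (1 - θ) • e := by module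
      rw [this, norm_smul, Real.norm_of_nonneg (by linarith)]
      nlinarith [norm_nonneg e]⟩
  have hopen1 : IsOpen {w : Y | g w < δ ∧ ‖w2 - w‖ < 1} := by
    apply IsOpen.inter
    · exact isOpen_lt g.continuous continuous_const
    · exact isOpen_lt (continuous_const.sub continuous_id).norm continuous_const
  obtain ⟨w1, ⟨hw11, hw12⟩, hw1D⟩ := hd.inter_open_nonempty _ hopen1 ⟨(3 * θ) • e, by
    constructor
    · rw [map_smul, smul_eq_mul]
      have h6 := g.le_opNorm e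
      have h7 := le_abs_self (g e)
      rw [← Real.norm_eq_abs] at h7
      have h8 : g e ≤ κ := by
        have : κ * ‖e‖ ≤ κ * 1 := mul_le_mul_of_nonneg_left he1.le hκ.le
        linarith
      have : 3 * θ * g e ≤ 3 * θ * κ := mul_le_mul_of_nonneg_left h8 (by positivity)
      linarith
    · exact hw22⟩
  have hw2D' : (w2 : X) ∈ D := hw2D
  have hw1D' : (w1 : X) ∈ D := hw1D
  have hv2 : T.symm (w2 : X) ∈ D := hDT' _ hw2D'
  have hv1 : T.symm (w1 : X) ∈ D := hDT' _ hw1D'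
  have e2 : (⟨T (T.symm (w2 : X)), hDY (hDT _ hv2)⟩ : Y) = w2 := by
    apply Subtype.ext; simp
  have e1 : (⟨T (T.symm (w1 : X)), hDY (hDT _ hv1)⟩ : Y) = w1 := by
    apply Subtype.ext; simp
  have h5 := h2 ⟨T.symm w2, hDY hv2⟩ hv2 κ (by rw [e2]; exact hw21)
  have h6 := h3 ⟨T.symm w1, hDY hv1⟩ hv1 ((max (g w1) 0 + δ) / 2) (by
    rw [e1]
    have := le_max_left (g w1) 0
    linarith)
  have h7 := h4 ((max (g w1) 0 + δ) / 2) (by
    have := le_max_right (g w1) 0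
    linarith) (by
    have : max (g w1) 0 < δ := max_lt hw11 hδ
    linarith)
  have h8 : ‖T.symm (w2 : X) - T.symm (w1 : X)‖ < 1 := by
    have := (hT.symm 1 (w2 : X) (w1 : X)).1 (by
      have : ‖w2 - w1‖ < 1 := hw12
      simpa using this)
    simpa using this
  have h9 : f (⟨T.symm w2, hDY hv2⟩ - ⟨T.symm w1, hDY hv1⟩) < κ := by
    have h6 := f.le_opNorm (⟨T.symm w2, hDY hv2⟩ - ⟨T.symm w1, hDY hv1⟩)
    have h7 := le_abs_self (f (⟨T.symm w2, hDY hv2⟩ - ⟨T.symm w1, hDY hv1⟩))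
    rw [← Real.norm_eq_abs] at h7
    have h10 : ‖(⟨T.symm w2, hDY hv2⟩ - ⟨T.symm w1, hDY hv1⟩ : Y)‖ =
      ‖T.symm (w2 : X) - T.symm (w1 : X)‖ := rfl
    rw [h10, hfg] at h6
    nlinarith
  rw [map_sub] at h9
  linarith

end Limit

section Seq

variable {T : X ≃ X} {Y : Submodule ℝ X} {D : Set X}

theorem exists_ultralimit (U : Ultrafilter ℕ) (f : ℕ → Y →L[ℝ] ℝ) (hf : ∀ n, ‖f n‖ ≤ 1) :
    ∃ φ : Y →L[ℝ] ℝ, ∀ y, Tendsto (fun n => f n y) U (𝓝 (φ y)) := by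
  have hex : ∀ y : Y, ∃ l : ℝ, Tendsto (fun n => f n y) U (𝓝 l) := by
    intro y
    have hc : IsCompact (Icc (-‖y‖) ‖y‖) := isCompact_Icc
    have hle : (U.map (fun n => f n y) : Filter ℝ) ≤ 𝓟 (Icc (-‖y‖) ‖y‖) := by
      rw [Ultrafilter.coe_map, le_principal_iff]
      apply Filter.mem_map.2
      apply Filter.univ_mem'
      intro n
      have := (f n).le_opNorm y
      rw [Real.norm_eq_abs, abs_le] at this
      have h2 := mul_le_mul_of_nonneg_right (hf n) (norm_nonneg y)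
      constructor
      · show -‖y‖ ≤ f n y
        linarith
      · show f n y ≤ ‖y‖
        linarith
    obtain ⟨l, _, hl⟩ := hc.ultrafilter_le_nhds _ hle
    exact ⟨l, hl⟩
  choose φ hφ using hex
  let L : Y →ₗ[ℝ] ℝ :=
    { toFun := φ
      map_add' := by
        intro x y
        have h1 := hφ (x + y)
        have h2 := (hφ x).add (hφ y)
        refine tendsto_nhds_unique h1 (h2.congr ?_)
        intro n; rw [map_add]
      map_smul' := by
        intro r x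
        have h1 := hφ (r • x)
        have h2 := (hφ x).const_mul r
        refine tendsto_nhds_unique h1 (h2.congr ?_)
        intro n; rw [map_smul, smul_eq_mul] }
  refine ⟨L.mkContinuous 1 ?_, fun y => hφ y⟩
  intro y
  show ‖φ y‖ ≤ 1 * ‖y‖
  apply le_of_tendsto (hφ y).norm
  apply Filter.univ_mem'
  intro n
  have := (f n).le_opNorm y
  exact this.trans (mul_le_mul_of_nonneg_right (hf n) (norm_nonneg y))

theorem seq_tendsto_zero (hT : Step T) (h0 : T 0 = 0) (hDY : D ⊆ Y)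
    (hd : Dense {v : Y | (v : X) ∈ D})
    (hDT : ∀ x ∈ D, T x ∈ D) (hDT' : ∀ x ∈ D, T.symm x ∈ D)
    {f g : ℕ → Y →L[ℝ] ℝ} {c : ℕ → ℝ → ℝ} (hf : ∀ n, ‖f n‖ ≤ 1) (hg : ∀ n, ‖g n‖ ≤ 1)
    (hc : ∀ n s, s - 1 ≤ c n s ∧ c n s ≤ s + 1)
    (h2 : ∀ n, ∀ v : Y, ∀ hv : (v : X) ∈ D, ∀ s, s < g n ⟨T v, hDY (hDT v hv)⟩ → c n s ≤ f n v)
    (h3 : ∀ n, ∀ v : Y, ∀ hv : (v : X) ∈ D, ∀ s, g n ⟨T v, hDY (hDT v hv)⟩ < s → f n v ≤ c n s)
    {x : ℕ → Y} (hx : ∀ n, (x n : X) ∈ D) (hx0 : Tendsto (fun n => ‖x n‖) atTop (𝓝 0))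
    {δ : ℝ} (hδ : 0 < δ) (hgx : ∀ n, δ < g n ⟨T (x n), hDY (hDT _ (hx n))⟩) :
    ∀ y, Tendsto (fun n => f n y) atTop (𝓝 0) ∧ Tendsto (fun n => g n y) atTop (𝓝 0) := by
  have key : ∀ U : Ultrafilter ℕ, (U : Filter ℕ) ≤ atTop → ∀ y,
      Tendsto (fun n => f n y) U (𝓝 0) ∧ Tendsto (fun n => g n y) U (𝓝 0) := by
    intro U hU
    obtain ⟨φ, hφ⟩ := exists_ultralimit U f hf
    obtain ⟨γ, hγ⟩ := exists_ultralimit U g hg
    have hex : ∀ s : ℝ, ∃ l : ℝ, Tendsto (fun n => c n s) U (𝓝 l) := by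
      intro s
      have hcomp : IsCompact (Icc (s - 1) (s + 1)) := isCompact_Icc
      have hle : (U.map (fun n => c n s) : Filter ℝ) ≤ 𝓟 (Icc (s - 1) (s + 1)) := by
        rw [Ultrafilter.coe_map, le_principal_iff]
        apply Filter.mem_map.2
        apply Filter.univ_mem'
        intro n
        exact hc n s
      obtain ⟨l, _, hl⟩ := hcomp.ultrafilter_le_nhds _ hle
      exact ⟨l, hl⟩
    choose C hC using hex
    have hz := pair_eq_zero hT h0 hDY hd hDT hDT' (f := φ) (g := γ) (c := C) (δ := δ) ?_ ?_ ?_ hδ ?_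
    · intro y
      have h1 := hφ y
      have h2 := hγ y
      rw [hz.1] at h1
      rw [hz.2] at h2
      exact ⟨h1, h2⟩
    · intro s
      constructor
      · exact ge_of_tendsto (hC s) (Filter.univ_mem' fun n => (hc n s).1)
      · exact le_of_tendsto (hC s) (Filter.univ_mem' fun n => (hc n s).2)
    · intro v hv s hs
      have h4 : ∀ᶠ n in (U : Filter ℕ), s < g n ⟨T v, hDY (hDT v hv)⟩ :=
        (hγ _).eventually (lt_mem_nhds hs)
      refine le_of_tendsto_of_tendsto (hC s) (hφ v) ?_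
      filter_upwards [h4] with n hn
      exact h2 n v hv s hn
    · intro v hv s hs
      have h4 : ∀ᶠ n in (U : Filter ℕ), g n ⟨T v, hDY (hDT v hv)⟩ < s :=
        (hγ _).eventually (gt_mem_nhds hs)
      refine le_of_tendsto_of_tendsto (hφ v) (hC s) ?_
      filter_upwards [h4] with n hn
      exact h3 n v hv s hn
    · intro s _ hs
      refine le_of_tendsto_of_tendsto (hC s) (hx0.mono_left hU) ?_
      apply Filter.univ_mem'
      intro n
      have h5 := h2 n (x n) (hx n) s (hs.trans (hgx n))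
      have h6 := (f n).le_opNorm (x n)
      have h7 := le_abs_self (f n (x n))
      rw [← Real.norm_eq_abs] at h7
      have h8 := mul_le_mul_of_nonneg_right (hf n) (norm_nonneg (x n))
      show c n s ≤ ‖x n‖
      linarith
  intro y
  constructor
  · rw [tendsto_iff_ultrafilter]
    intro U hU
    exact (key U hU y).1
  · rw [tendsto_iff_ultrafilter]
    intro U hU
    exact (key U hU y).2

end Seq

end Pool.Agent.R275.StepIso
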