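import Pool.Agent.R275.StepIso3

/-!
Step-isometries, part 4: smooth directions, countable hulls, the Baire step and the main theorem.
-/

namespace Pool.Agent.R275.StepIso

open Filter Topology Set

variable {X : Type*} [NormedAddCommGroup X] [NormedSpace ℝ X]

/-- Points at which the second difference in direction `w` is small relative to the step. -/
def goodSet (w : X) (n : ℕ) : Set X :=
  ⋃ t ∈ Ioi (0 : ℝ), {x : X | ‖x + t • w‖ + ‖x - t • w‖ - 2 * ‖x‖ < t / (n + 1)}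

theorem isOpen_goodSet (w : X) (n : ℕ) : IsOpen (goodSet w n) := by
  apply isOpen_biUnion
  intro t _
  exact isOpen_lt (by fun_prop) continuous_const

theorem dense_goodSet (w : X) (n : ℕ) : Dense (goodSet w n) := by
  intro x
  rw [Metric.mem_closure_iff]
  intro ε hε
  obtain ⟨N, hN⟩ := exists_nat_gt (2 * (n + 1) * ‖w‖)
  have hN0 : (0 : ℝ) < N := lt_of_le_of_lt (by positivity) hN
  set τ : ℝ := ε / (2 * (N + 1) * (‖w‖ + 1)) with hτ
  have hτ0 : 0 < τ := by positivity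
  -- the sequence of norms along the line
  set h : ℕ → ℝ := fun i => ‖x + ((i : ℝ) * τ) • w‖ with hh
  have hsum : ∑ i ∈ Finset.range N, (h (i + 2) + h i - 2 * h (i + 1)) =
      (h (N + 1) - h N) - (h 1 - h 0) := by
    have : ∀ i ∈ Finset.range N, h (i + 2) + h i - 2 * h (i + 1) =
        (h (i + 1 + 1) - h (i + 1)) - (h (i + 1) - h i) := by intro i _; ring
    rw [Finset.sum_congr rfl this]
    exact Finset.sum_range_sub (fun i => h (i + 1) - h i) N
  have hdiff : ∀ i, |h (i + 1) - h i| ≤ τ * ‖w‖ := by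
    intro i
    have h1 := abs_norm_sub_norm_le (x + (((i + 1 : ℕ) : ℝ) * τ) • w) (x + ((i : ℝ) * τ) • w)
    have h2 : (x + (((i + 1 : ℕ) : ℝ) * τ) • w) - (x + ((i : ℝ) * τ) • w) = τ • w := by
      push_cast; module
    rw [h2, norm_smul, Real.norm_of_nonneg hτ0.le] at h1
    exact h1
  have hex : ∃ i < N, h (i + 2) + h i - 2 * h (i + 1) < τ / (n + 1) := by
    by_contra hcon
    push Not at hcon
    have h1 : (N : ℝ) * (τ / (n + 1)) ≤
        ∑ i ∈ Finset.range N, (h (i + 2) + h i - 2 * h (i + 1)) := by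
      have := Finset.card_nsmul_le_sum (Finset.range N)
        (fun i => h (i + 2) + h i - 2 * h (i + 1)) (τ / (n + 1))
        (fun i hi => hcon i (Finset.mem_range.1 hi))
      rw [Finset.card_range, nsmul_eq_mul] at this
      exact this
    rw [hsum] at h1
    have h2 := (abs_le.1 (hdiff N)).2
    have h3 := (abs_le.1 (hdiff 0)).1
    have h4 : (N : ℝ) * (τ / (n + 1)) ≤ 2 * (τ * ‖w‖) := by
      simp only [zero_add] at h3
      linarith
    have h5 : (N : ℝ) * τ ≤ 2 * (τ * ‖w‖) * (n + 1) := by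
      rw [mul_div_assoc', div_le_iff₀ (by positivity)] at h4
      exact h4
    have h6 : (N : ℝ) ≤ 2 * (n + 1) * ‖w‖ := by
      have : (N : ℝ) * τ ≤ (2 * (n + 1) * ‖w‖) * τ := by linarith
      exact le_of_mul_le_mul_right this hτ0
    linarith
  obtain ⟨i, hiN, hi⟩ := hex
  refine ⟨x + (((i + 1 : ℕ) : ℝ) * τ) • w, ?_, ?_⟩
  · apply mem_biUnion (x := τ) hτ0
    show ‖x + (((i + 1 : ℕ) : ℝ) * τ) • w + τ • w‖ + ‖x + (((i + 1 : ℕ) : ℝ) * τ) • w - τ • w‖ -
      2 * ‖x + (((i + 1 : ℕ) : ℝ) * τ) • w‖ < τ / (n + 1)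
    have e1 : x + (((i + 1 : ℕ) : ℝ) * τ) • w + τ • w = x + (((i + 2 : ℕ) : ℝ) * τ) • w := by
      push_cast; module
    have e2 : x + (((i + 1 : ℕ) : ℝ) * τ) • w - τ • w = x + ((i : ℝ) * τ) • w := by
      push_cast; module
    rw [e1, e2]
    exact hi
  · rw [dist_eq_norm]
    have : x - (x + (((i + 1 : ℕ) : ℝ) * τ) • w) = -((((i + 1 : ℕ) : ℝ) * τ) • w) := by abel
    rw [this, norm_neg, norm_smul, Real.norm_of_nonneg (by positivity)]
    have h1 : ((i + 1 : ℕ) : ℝ) ≤ N := by exact_mod_cast hiN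
    calc ((i + 1 : ℕ) : ℝ) * τ * ‖w‖ ≤ (N + 1) * τ * (‖w‖ + 1) := by
          gcongr
          · linarith
          · linarith
      _ = ε / 2 := by rw [hτ]; field_simp
      _ < ε := by linarith

theorem exists_smooth [CompleteSpace X] {D : Set X} (hD : D.Countable) {e : X} (he : ‖e‖ = 1)
    {ε : ℝ} (hε : 0 < ε) :
    ∃ u : X, ‖u‖ = 1 ∧ ‖u - e‖ < ε ∧ ∀ w ∈ D, Smooth u w := by
  have hG : Dense (⋂ w ∈ D, ⋂ n : ℕ, goodSet w n) := by
    apply dense_biInter_of_Gδ _ hD
    · intro w _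
      exact dense_iInter_of_isOpen (fun n => isOpen_goodSet w n) (fun n => dense_goodSet w n)
    · intro w _
      exact IsGδ.iInter_of_isOpen (fun n => isOpen_goodSet w n)
  obtain ⟨x, hxd, hx⟩ := hG.exists_dist_lt e (ε := min (ε / 2) (1 / 2)) (by positivity)
  have hxe : ‖x - e‖ < ε / 2 := by
    rw [norm_sub_rev, ← dist_eq_norm]; exact hx.trans_le (min_le_left _ _)
  have hxe2 : ‖x - e‖ < 1 / 2 := by
    rw [norm_sub_rev, ← dist_eq_norm]; exact hx.trans_le (min_le_right _ _)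
  have hnx := abs_norm_sub_norm_le x e
  rw [he, abs_le] at hnx
  have hx0 : 0 < ‖x‖ := by linarith
  refine ⟨‖x‖⁻¹ • x, ?_, ?_, ?_⟩
  · rw [norm_smul, norm_inv, norm_norm, inv_mul_cancel₀ hx0.ne']
  · have h1 : ‖x‖⁻¹ • x - x = (‖x‖⁻¹ - 1) • x := by module
    have h2 : ‖‖x‖⁻¹ • x - x‖ = |1 - ‖x‖| := by
      rw [h1, norm_smul, Real.norm_eq_abs]
      rw [← abs_of_pos hx0, ← abs_mul, abs_of_pos hx0, sub_mul, inv_mul_cancel₀ hx0.ne', one_mul]
    have h3 : ‖‖x‖⁻¹ • x - x‖ ≤ ‖x - e‖ := by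
      rw [h2, abs_le]
      constructor <;> linarith
    calc ‖‖x‖⁻¹ • x - e‖ = ‖(‖x‖⁻¹ • x - x) + (x - e)‖ := by congr 1; abel
      _ ≤ ‖‖x‖⁻¹ • x - x‖ + ‖x - e‖ := norm_add_le _ _
      _ < ε := by linarith
  · intro w hw
    have hxw : ∀ n : ℕ, x ∈ goodSet w n := by
      intro n
      exact mem_iInter.1 (mem_iInter₂.1 hxd w hw) n
    set u := ‖x‖⁻¹ • x with hu
    have hu1 : ‖u‖ = 1 := by rw [hu, norm_smul, norm_inv, norm_norm, inv_mul_cancel₀ hx0.ne']
    show Tendsto (fun M : ℝ => ‖M • u + w‖ + ‖M • u - w‖ - 2 * M) atTop (𝓝 0)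
    have hnn : ∀ M : ℝ, 0 ≤ ‖M • u + w‖ + ‖M • u - w‖ - 2 * M := by
      intro M
      have h1 : (2 * M) • u = (M • u + w) + (M • u - w) := by module
      have h2 : ‖(2 * M) • u‖ ≤ ‖M • u + w‖ + ‖M • u - w‖ := by rw [h1]; exact norm_add_le _ _
      rw [norm_smul, hu1, mul_one, Real.norm_eq_abs] at h2
      have := le_abs_self (2 * M)
      linarith
    rw [Metric.tendsto_atTop]
    intro ε' hε'
    obtain ⟨n, hn⟩ := exists_nat_one_div_lt hε'
    have hmem := hxw n
    unfold goodSet at hmem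
    rw [mem_iUnion₂] at hmem
    obtain ⟨t, ht, htx⟩ := hmem
    have ht0 : (0 : ℝ) < t := ht
    have htx' : ‖x + t • w‖ + ‖x - t • w‖ - 2 * ‖x‖ < t / (n + 1) := htx
    refine ⟨‖x‖ / t, ?_⟩
    intro M hM
    have hx' : (‖x‖ / t) • u = t⁻¹ • x := by
      rw [hu, smul_smul]
      congr 1
      field_simp
    have e1 : ‖(‖x‖ / t) • u + w‖ = t⁻¹ * ‖x + t • w‖ := by
      rw [hx']
      have : t⁻¹ • x + w = t⁻¹ • (x + t • w) := by
        rw [smul_add, smul_smul, inv_mul_cancel₀ ht0.ne', one_smul]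
      rw [this, norm_smul, Real.norm_of_nonneg (by positivity)]
    have e2 : ‖(‖x‖ / t) • u - w‖ = t⁻¹ * ‖x - t • w‖ := by
      rw [hx']
      have : t⁻¹ • x - w = t⁻¹ • (x - t • w) := by
        rw [smul_sub, smul_smul, inv_mul_cancel₀ ht0.ne', one_smul]
      rw [this, norm_smul, Real.norm_of_nonneg (by positivity)]
    have h1 : ‖M • u + w‖ ≤ (M - ‖x‖ / t) + ‖(‖x‖ / t) • u + w‖ := by
      have : M • u + w = (M - ‖x‖ / t) • u + ((‖x‖ / t) • u + w) := by module
      rw [this]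
      refine (norm_add_le _ _).trans ?_
      rw [norm_smul, hu1, mul_one, Real.norm_of_nonneg (by linarith)]
    have h2 : ‖M • u - w‖ ≤ (M - ‖x‖ / t) + ‖(‖x‖ / t) • u - w‖ := by
      have : M • u - w = (M - ‖x‖ / t) • u + ((‖x‖ / t) • u - w) := by module
      rw [this]
      refine (norm_add_le _ _).trans ?_
      rw [norm_smul, hu1, mul_one, Real.norm_of_nonneg (by linarith)]
    rw [e1] at h1
    rw [e2] at h2
    rw [Real.dist_eq, sub_zero, abs_of_nonneg (hnn M)]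
    have h3 : t⁻¹ * (‖x + t • w‖ + ‖x - t • w‖ - 2 * ‖x‖) < 1 / (n + 1) := by
      rw [inv_mul_lt_iff₀ ht0]
      calc _ < t / (n + 1) := htx'
        _ = t * (1 / (n + 1)) := by ring
    have h4 : t⁻¹ * (‖x + t • w‖ + ‖x - t • w‖ - 2 * ‖x‖) =
        t⁻¹ * ‖x + t • w‖ + t⁻¹ * ‖x - t • w‖ - 2 * (‖x‖ / t) := by
      field_simp
    linarith

/-- One step of the construction of a countable hull. -/
def hullStep (T : X ≃ X) (S : Set X) : Set X :=
  (S ∪ insert 0 (T '' S ∪ T.symm '' S)) ∪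
    (image2 (fun x y => x + y) S S ∪ image2 (fun (q : ℚ) x => (q : ℝ) • x) univ S)

theorem countable_hullStep (T : X ≃ X) {S : Set X} (hS : S.Countable) :
    (hullStep T S).Countable := by
  unfold hullStep
  refine ((hS.union (((hS.image _).union (hS.image _)).insert 0))).union ?_
  exact (hS.image2 hS _).union ((countable_univ (α := ℚ)).image2 hS _)

theorem exists_hull (T : X ≃ X) {S : Set X} (hS : S.Countable) :
    ∃ (D : Set X) (Y : Submodule ℝ X), S ⊆ D ∧ D.Countable ∧ (0 : X) ∈ D ∧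
      (∀ x ∈ D, T x ∈ D) ∧ (∀ x ∈ D, T.symm x ∈ D) ∧ (Y : Set X) = closure D := by
  set A : ℕ → Set X := fun n => (hullStep T)^[n] S with hA
  have hAs : ∀ n, A (n + 1) = hullStep T (A n) := by
    intro n
    simp only [hA]
    rw [Function.iterate_succ_apply']
  have hsub : ∀ n, A n ⊆ A (n + 1) := by
    intro n x hx
    rw [hAs]
    exact Or.inl (Or.inl hx)
  have hmono : Monotone A := monotone_nat_of_le_succ hsub
  set D : Set X := ⋃ n, A n with hD
  have hadd : ∀ x ∈ D, ∀ y ∈ D, x + y ∈ D := by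
    intro x hx y hy
    rw [hD, mem_iUnion] at hx hy
    obtain ⟨i, hi⟩ := hx
    obtain ⟨j, hj⟩ := hy
    rw [hD, mem_iUnion]
    refine ⟨max i j + 1, ?_⟩
    rw [hAs]
    exact Or.inr (Or.inl ⟨x, hmono (le_max_left _ _) hi, y, hmono (le_max_right _ _) hj, rfl⟩)
  have hsmul : ∀ q : ℚ, ∀ x ∈ D, (q : ℝ) • x ∈ D := by
    intro q x hx
    rw [hD, mem_iUnion] at hx
    obtain ⟨i, hi⟩ := hx
    rw [hD, mem_iUnion]
    refine ⟨i + 1, ?_⟩
    rw [hAs]
    exact Or.inr (Or.inr ⟨q, mem_univ _, x, hi, rfl⟩)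
  have h0 : (0 : X) ∈ D := by
    rw [hD, mem_iUnion]
    refine ⟨1, ?_⟩
    rw [hAs]
    exact Or.inl (Or.inr (Or.inl rfl))
  have hclsmul : ∀ (c : ℝ) (x : X), x ∈ closure D → c • x ∈ closure D := by
    intro c x hx
    have hc : c ∈ closure (range ((↑) : ℚ → ℝ)) := Rat.denseRange_cast c
    exact map_mem_closure₂ (f := fun (c : ℝ) (x : X) => c • x) continuous_smul hc hx (by
      rintro _ ⟨q, rfl⟩ y hy
      exact hsmul q y hy)
  let Y : Submodule ℝ X :=
    { carrier := closure D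
      add_mem' := fun {x y} hx hy =>
        map_mem_closure₂ (f := fun (x y : X) => x + y) continuous_add hx hy hadd
      zero_mem' := subset_closure h0
      smul_mem' := hclsmul }
  refine ⟨D, Y, ?_, ?_, h0, ?_, ?_, rfl⟩
  · exact subset_iUnion A 0
  · apply countable_iUnion
    intro n
    induction n with
    | zero => exact hS
    | succ n ih => rw [hAs]; exact countable_hullStep T ih
  · intro x hx
    rw [hD, mem_iUnion] at hx
    obtain ⟨i, hi⟩ := hx
    rw [hD, mem_iUnion]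
    refine ⟨i + 1, ?_⟩
    rw [hAs]
    exact Or.inl (Or.inr (Or.inr (Or.inl ⟨x, hi, rfl⟩)))
  · intro x hx
    rw [hD, mem_iUnion] at hx
    obtain ⟨i, hi⟩ := hx
    rw [hD, mem_iUnion]
    refine ⟨i + 1, ?_⟩
    rw [hAs]
    exact Or.inl (Or.inr (Or.inr (Or.inr ⟨x, hi, rfl⟩)))

/-- The Baire category step. -/
theorem exists_frequently {Y : Type*} [NormedAddCommGroup Y] [NormedSpace ℝ Y] [CompleteSpace Y]
    (f : ℕ → Y →L[ℝ] ℝ) (r : ℕ → ℝ) (hr : Tendsto r atTop (𝓝 0)) {δ : ℝ} (hδ : 0 < δ)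
    (hf : ∀ n, δ ≤ ‖f n‖) (hf0 : ∀ y, Tendsto (fun n => f n y) atTop (𝓝 0)) :
    ∃ z : Y, ∃ᶠ n in atTop, r n < f n z := by
  by_contra hcon
  push Not at hcon
  have hcon' : ∀ z : Y, ∃ N, ∀ n ≥ N, f n z ≤ r n := by
    intro z
    exact eventually_atTop.1 (hcon z)
  set A : ℕ → Set Y := fun N => {z : Y | ∀ n ≥ N, f n z ≤ r n} with hA
  have hAcl : ∀ N, IsClosed (A N) := by
    intro N
    have : A N = ⋂ n ≥ N, {z : Y | f n z ≤ r n} := by
      ext z; simp [hA]
    rw [this]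
    apply isClosed_biInter
    intro n _
    exact isClosed_le (f n).continuous continuous_const
  have hAU : ⋃ N, A N = univ := by
    rw [eq_univ_iff_forall]
    intro z
    rw [mem_iUnion]
    exact hcon' z
  obtain ⟨N, z0, hz0⟩ := nonempty_interior_of_iUnion_of_closed hAcl hAU
  rw [mem_interior_iff_mem_nhds, Metric.mem_nhds_iff] at hz0
  obtain ⟨ρ, hρ, hball⟩ := hz0
  have hbound : ∀ n ≥ N, ‖f n‖ ≤ (r n - f n z0) / (ρ / 2) := by
    intro n hn
    have hnn : 0 ≤ r n - f n z0 := by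
      have := hball (Metric.mem_ball_self hρ) n hn
      linarith
    apply ContinuousLinearMap.opNorm_le_bound _ (by positivity)
    intro v
    have key : ∀ v : Y, f n v ≤ (r n - f n z0) / (ρ / 2) * ‖v‖ := by
      intro v
      by_cases hv : ‖v‖ = 0
      · have hv' : v = 0 := norm_eq_zero.1 hv
        rw [hv', map_zero, norm_zero, mul_zero]
      · have hvpos : 0 < ‖v‖ := lt_of_le_of_ne (norm_nonneg _) (Ne.symm hv)
        have hmem : z0 + (ρ / 2 / ‖v‖) • v ∈ Metric.ball z0 ρ := by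
          rw [mem_ball_iff_norm, add_sub_cancel_left, norm_smul, Real.norm_of_nonneg (by positivity)]
          rw [div_mul_cancel₀ _ hvpos.ne']
          linarith
        have := hball hmem n hn
        rw [map_add, map_smul, smul_eq_mul] at this
        have h2 : ρ / 2 / ‖v‖ * f n v ≤ r n - f n z0 := by linarith
        rw [div_mul_eq_mul_div, le_div_iff₀ (by positivity)]
        calc f n v * (ρ / 2) = (ρ / 2 / ‖v‖ * f n v) * ‖v‖ := by field_simp
          _ ≤ (r n - f n z0) * ‖v‖ := mul_le_mul_of_nonneg_right h2 hvpos.le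
    rw [Real.norm_eq_abs, abs_le]
    have h1 := key v
    have h2 := key (-v)
    rw [map_neg, norm_neg] at h2
    constructor <;> linarith
  have hlim : Tendsto (fun n => (r n - f n z0) / (ρ / 2)) atTop (𝓝 0) := by
    have := (hr.sub (hf0 z0)).div_const (ρ / 2)
    simpa using this
  obtain ⟨M, hM⟩ := eventually_atTop.1 (hlim.eventually (gt_mem_nhds hδ))
  have h1 := hbound (max N M) (le_max_left _ _)
  have h2 := hM (max N M) (le_max_right _ _)
  have h3 := hf (max N M)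
  linarith

end Pool.Agent.R275.StepIso
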