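import Pool.Agent.R275.StepIso4

/-!
Step-isometries, part 5: the main theorem.
-/

namespace Pool.Agent.R275.StepIso

open Filter Topology Set

variable {X : Type*} [NormedAddCommGroup X] [NormedSpace ℝ X] [CompleteSpace X]

/-- The data produced by a sequence of smooth directions, on a countable hull. -/
theorem exists_seq_pairs {T : X ≃ X} (hT : Step T) (h0 : T 0 = 0) {Y : Submodule ℝ X} {D : Set X}
    (hDY : D ⊆ Y) (hdense : (Y : Set X) ⊆ closure D)
    (hD0 : (0 : X) ∈ D)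
    (hDT : ∀ x ∈ D, T x ∈ D) (hDT' : ∀ x ∈ D, T.symm x ∈ D)
    {u : ℕ → X} (hu : ∀ n, ‖u n‖ = 1) (hsm : ∀ n, ∀ w ∈ D, Smooth (u n) w)
    {x : ℕ → X} (hx : ∀ n, x n ∈ D) (hx0 : Tendsto (fun n => ‖x n‖) atTop (𝓝 0))
    (hx1 : ∀ n, ‖x n‖ < 1)
    {δ : ℝ} (hδ : 0 < δ) (hδx : ∀ n, 2 * δ ≤ ‖T (x n)‖)
    (hux : ∀ n, ‖u n - (‖T (x n)‖⁻¹) • T (x n)‖ < 1 / 2) :
    ∃ (f : ℕ → Y →L[ℝ] ℝ) (g : ℕ → X →L[ℝ] ℝ),
      (∀ n, δ ≤ ‖f n‖) ∧
      (∀ y, Tendsto (fun n => f n y) atTop (𝓝 0)) ∧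
      (∀ y : Y, Tendsto (fun n => g n y) atTop (𝓝 0)) ∧
      (∀ n (M : ℝ) (w : X), M - ‖M • u n - w‖ ≤ g n w) ∧
      (∀ n (z : Y), ‖x n‖ < f n z → ∃ M : ℝ, ‖M • u n - T z‖ < M - δ) := by
  have hd := dense_coe hDY hdense
  have hex := fun n => exists_pair hT h0 hdense hDT hD0 (hu n) (hsm n)
  choose f g c hf hg hMg hc ha1 ha2 hz using hex
  -- the restricted functionals
  set gY : ℕ → Y →L[ℝ] ℝ := fun n => (g n).comp Y.subtypeL with hgY
  have hgYle : ∀ n, ‖gY n‖ ≤ 1 := by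
    intro n
    apply ContinuousLinearMap.opNorm_le_bound _ zero_le_one
    intro y
    show ‖g n (y : X)‖ ≤ 1 * ‖(y : X)‖
    have := (g n).le_opNorm (y : X)
    exact this.trans (mul_le_mul_of_nonneg_right (hg n) (norm_nonneg _))
  have hgx : ∀ n, δ < g n (T (x n)) := by
    intro n
    have hpos : 0 < ‖T (x n)‖ := by linarith [hδx n]
    have h1 := hMg n ‖T (x n)‖ (T (x n))
    have h2 : ‖T (x n)‖ • u n - T (x n) =
        ‖T (x n)‖ • (u n - (‖T (x n)‖⁻¹) • T (x n)) := by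
      rw [smul_sub, smul_smul, mul_inv_cancel₀ hpos.ne', one_smul]
    have h3 : ‖‖T (x n)‖ • u n - T (x n)‖ < ‖T (x n)‖ * (1 / 2) := by
      rw [h2, norm_smul, norm_norm]
      exact mul_lt_mul_of_pos_left (hux n) hpos
    have := hδx n
    linarith
  have h2 : ∀ n, ∀ v : Y, ∀ hv : (v : X) ∈ D, ∀ s,
      s < gY n ⟨T v, hDY (hDT v hv)⟩ → c n s ≤ f n v := fun n v hv s hs =>
    (ha1 n v hv s hs).le
  have h3 : ∀ n, ∀ v : Y, ∀ hv : (v : X) ∈ D, ∀ s,
      gY n ⟨T v, hDY (hDT v hv)⟩ < s → f n v ≤ c n s := fun n v _ s hs =>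
    ha2 n v s (le_of_lt hs)
  have hlim := seq_tendsto_zero hT h0 hDY hd hDT hDT' (f := f) (g := gY) (c := c) hf hgYle hc
    h2 h3 (x := fun n => ⟨x n, hDY (hx n)⟩) hx hx0 hδ hgx
  have hgf : ∀ n, ‖gY n‖ ≤ ‖f n‖ := fun n =>
    norm_g_le hT h0 hDY hd hDT hDT' (fun s => (hc n s).1) (h2 n)
  refine ⟨f, g, ?_, fun y => (hlim y).1, fun y => (hlim y).2, hMg, ?_⟩
  · intro n
    refine le_trans ?_ (hgf n)
    have hTx : ‖T (x n)‖ < 1 := by
      have := (hT 1 (x n) 0).1 (by rw [sub_zero]; simpa using hx1 n)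
      rw [h0, sub_zero] at this
      simpa using this
    have h4 := (gY n).le_opNorm ⟨T (x n), hDY (hDT _ (hx n))⟩
    have h5 := le_abs_self (gY n ⟨T (x n), hDY (hDT _ (hx n))⟩)
    rw [← Real.norm_eq_abs] at h5
    have h6 : ‖(⟨T (x n), hDY (hDT _ (hx n))⟩ : Y)‖ = ‖T (x n)‖ := rfl
    rw [h6] at h4
    have h7 : gY n ⟨T (x n), hDY (hDT _ (hx n))⟩ = g n (T (x n)) := rfl
    rw [h7] at h4 h5
    have h8 := hgx n
    have h9 : ‖gY n‖ * ‖T (x n)‖ ≤ ‖gY n‖ * 1 :=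
      mul_le_mul_of_nonneg_left hTx.le (gY n).opNorm_nonneg
    linarith
  · intro n z hz1
    apply hz n z δ
    have h4 := ha1 n ⟨x n, hDY (hx n)⟩ (hx n) δ (hgx n)
    have h5 := (f n).le_opNorm ⟨x n, hDY (hx n)⟩
    have h6 := le_abs_self (f n ⟨x n, hDY (hx n)⟩)
    rw [← Real.norm_eq_abs] at h6
    have h7 : ‖(⟨x n, hDY (hx n)⟩ : Y)‖ = ‖x n‖ := rfl
    rw [h7] at h5
    have h8 := mul_le_mul_of_nonneg_right (hf n) (norm_nonneg (x n))
    linarith

theorem continuousAt_zero {T : X ≃ X} (hT : Step T) (h0 : T 0 = 0) : ContinuousAt T 0 := by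
  by_contra hcon
  rw [Metric.continuousAt_iff] at hcon
  push Not at hcon
  obtain ⟨ε, hε, hne⟩ := hcon
  have hex : ∀ n : ℕ, ∃ x : X, dist x 0 < 1 / ((n : ℝ) + 2) ∧ ε ≤ dist (T x) (T 0) := fun n =>
    hne (1 / ((n : ℝ) + 2)) (by positivity)
  choose x hxd hxT using hex
  have hxn : ∀ n, ‖x n‖ < 1 / ((n : ℝ) + 2) := fun n => by
    have := hxd n
    rwa [dist_zero_right] at this
  have hxε : ∀ n, 2 * (ε / 2) ≤ ‖T (x n)‖ := fun n => by
    have := hxT n
    rw [h0, dist_zero_right] at this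
    linarith
  have hx1 : ∀ n, ‖x n‖ < 1 := by
    intro n
    refine (hxn n).trans_le ?_
    rw [div_le_one (by positivity)]
    have : (0 : ℝ) ≤ n := Nat.cast_nonneg n
    linarith
  have hx0 : Tendsto (fun n => ‖x n‖) atTop (𝓝 0) := by
    have hlim : Tendsto (fun n : ℕ => 1 / ((n : ℝ) + 2)) atTop (𝓝 0) := by
      have h1 : Tendsto (fun n : ℕ => (n : ℝ) + 2) atTop atTop :=
        tendsto_natCast_atTop_atTop.atTop_add tendsto_const_nhds
      refine h1.inv_tendsto_atTop.congr ?_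
      intro n
      show ((n : ℝ) + 2)⁻¹ = 1 / ((n : ℝ) + 2)
      rw [one_div]
    exact squeeze_zero (fun n => norm_nonneg _) (fun n => (hxn n).le) hlim
  have hε2 : 0 < ε / 2 := by linarith
  have hTpos : ∀ n, 0 < ‖T (x n)‖ := fun n => by linarith [hxε n]
  have he : ∀ n, ‖(‖T (x n)‖⁻¹) • T (x n)‖ = 1 := by
    intro n
    rw [norm_smul, norm_inv, norm_norm, inv_mul_cancel₀ (hTpos n).ne']
  -- first hull
  obtain ⟨D, Y, hSD, hDc, hD0, hDT, hDT', hY⟩ := exists_hull T (countable_range x)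
  have hDY : D ⊆ Y := by rw [hY]; exact subset_closure
  have hYD : (Y : Set X) ⊆ closure D := by rw [hY]
  have hu := fun n => exists_smooth hDc (he n) (ε := 1 / 4) (by norm_num)
  choose u hu1 hu2 hu3 using hu
  obtain ⟨f, g, hfδ, hf0, -, -, hfz⟩ := exists_seq_pairs hT h0 hDY hYD hD0 hDT hDT' hu1 hu3
    (x := x) (fun n => hSD (mem_range_self n)) hx0 hx1 hε2 hxε
    (fun n => (hu2 n).trans (by norm_num))
  have hYcl : IsClosed (Y : Set X) := by rw [hY]; exact isClosed_closure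
  have : CompleteSpace Y := hYcl.completeSpace_coe
  obtain ⟨z, hz⟩ := exists_frequently f (fun n => ‖x n‖) hx0 hε2 hfδ hf0
  -- second hull
  obtain ⟨D', Y', hSD', hDc', hD0', hDT2, hDT2', hY'⟩ :=
    exists_hull T ((countable_range x).insert (z : X))
  have hDY' : D' ⊆ Y' := by rw [hY']; exact subset_closure
  have hYD' : (Y' : Set X) ⊆ closure D' := by rw [hY']
  have hzD' : (z : X) ∈ D' := hSD' (mem_insert _ _)
  have hu' : ∀ n, ∃ u' : X, ‖u'‖ = 1 ∧ ‖u' - u n‖ < 1 / 4 ∧ (∀ w ∈ D', Smooth u' w) ∧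
      ((∃ M : ℝ, ‖M • u n - T z‖ < M - ε / 2) → ∃ M : ℝ, ‖M • u' - T z‖ < M - ε / 2) := by
    intro n
    by_cases hM : ∃ M : ℝ, ‖M • u n - T z‖ < M - ε / 2
    · obtain ⟨M, hM⟩ := hM
      set ρ := M - ε / 2 - ‖M • u n - T z‖ with hρ
      have hρ0 : 0 < ρ := by rw [hρ]; linarith
      obtain ⟨u', h1, h2, h3⟩ := exists_smooth hDc' (hu1 n) (ε := min (1 / 4) (ρ / (|M| + 1)))
        (by positivity)
      refine ⟨u', h1, h2.trans_le (min_le_left _ _), h3, fun _ => ⟨M, ?_⟩⟩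
      have h4 : ‖u' - u n‖ < ρ / (|M| + 1) := h2.trans_le (min_le_right _ _)
      rw [lt_div_iff₀ (by positivity)] at h4
      have h5 : M • u' - T z = M • (u' - u n) + (M • u n - T z) := by
        rw [smul_sub]; abel
      have h6 : ‖M • u' - T z‖ ≤ |M| * ‖u' - u n‖ + ‖M • u n - T z‖ := by
        rw [h5]
        refine (norm_add_le _ _).trans ?_
        rw [norm_smul, Real.norm_eq_abs]
      have h7 := norm_nonneg (u' - u n)
      nlinarith
    · obtain ⟨u', h1, h2, h3⟩ := exists_smooth hDc' (hu1 n) (ε := 1 / 4) (by norm_num)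
      exact ⟨u', h1, h2, h3, fun h => absurd h hM⟩
  choose u' hu1' hu2' hu3' hu4' using hu'
  obtain ⟨f', g', -, -, hg0', hMg', -⟩ := exists_seq_pairs hT h0 hDY' hYD' hD0' hDT2 hDT2' hu1' hu3'
    (x := x) (fun n => hSD' (mem_insert_of_mem _ (mem_range_self n))) hx0 hx1 hε2 hxε
    (fun n => by
      have h1 := hu2' n
      have h2 := hu2 n
      have h3 : u' n - (‖T (x n)‖⁻¹) • T (x n) =
        (u' n - u n) + (u n - (‖T (x n)‖⁻¹) • T (x n)) := by abel
      rw [h3]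
      refine (norm_add_le _ _).trans_lt ?_
      linarith)
  have hTz : T (z : X) ∈ D' := hDT2 _ hzD'
  have hev := (hg0' ⟨T z, hDY' hTz⟩).eventually (gt_mem_nhds hε2)
  obtain ⟨n, hn1, hn2⟩ := (hz.and_eventually hev).exists
  obtain ⟨M, hM⟩ := hu4' n (hfz n z hn1)
  have h1 := hMg' n M (T z)
  have h2 : g' n (T z) < ε / 2 := hn2
  linarith

/-- Every bijection satisfying the step condition is continuous. -/
theorem continuous_of_step {T : X ≃ X} (hT : Step T) : Continuous T := by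
  rw [continuous_iff_continuousAt]
  intro x0
  let S : X ≃ X := (Equiv.addRight x0).trans (T.trans (Equiv.subRight (T x0)))
  have hS : ∀ x, S x = T (x + x0) - T x0 := fun x => rfl
  have hS0 : S 0 = 0 := by rw [hS, zero_add, sub_self]
  have hstep : Step S := by
    intro k x y
    rw [hS, hS]
    have h1 := hT k (x + x0) (y + x0)
    have e1 : x + x0 - (y + x0) = x - y := by abel
    have e2 : T (x + x0) - T x0 - (T (y + x0) - T x0) = T (x + x0) - T (y + x0) := by abel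
    rw [e2, ← h1, e1]
  have hcont := continuousAt_zero hstep hS0
  have h2 : Tendsto (fun x => S (x - x0) + T x0) (𝓝 x0) (𝓝 (S 0 + T x0)) := by
    have h3 : Tendsto (fun x : X => x - x0) (𝓝 x0) (𝓝 0) := by
      have : Tendsto (fun x : X => x - x0) (𝓝 x0) (𝓝 (x0 - x0)) :=
        (continuous_id.sub continuous_const).tendsto x0
      rwa [sub_self] at this
    have h4 : Tendsto S (𝓝 0) (𝓝 (S 0)) := hcont
    exact (h4.comp h3).add_const _
  have h5 : (fun x => S (x - x0) + T x0) = T := by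
    funext x
    rw [hS]; simp
  rw [h5, hS0, zero_add] at h2
  exact h2

/-- A bijection between two Banach spaces satisfying the step condition is continuous. -/
theorem continuous_of_step_two {Z : Type*} [NormedAddCommGroup Z] [NormedSpace ℝ Z]
    [CompleteSpace Z] (T : X ≃ Z)
    (hT : ∀ (k : ℕ) (x y : X), ‖x - y‖ < k ↔ ‖T x - T y‖ < k) : Continuous T := by
  let S : (X × Z) ≃ (X × Z) :=
    { toFun := fun p => (T.symm p.2, T p.1)
      invFun := fun p => (T.symm p.2, T p.1)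
      left_inv := fun p => by simp
      right_inv := fun p => by simp }
  have hS : ∀ p, S p = (T.symm p.2, T p.1) := fun p => rfl
  have hstep : Step S := by
    intro k p q
    rw [hS, hS, Prod.norm_def, Prod.norm_def, max_lt_iff, max_lt_iff]
    have h1 := hT k p.1 q.1
    have h2 := hT k (T.symm p.2) (T.symm q.2)
    rw [Equiv.apply_symm_apply, Equiv.apply_symm_apply] at h2
    show ‖p.1 - q.1‖ < k ∧ ‖p.2 - q.2‖ < k ↔
      ‖T.symm p.2 - T.symm q.2‖ < k ∧ ‖T p.1 - T q.1‖ < k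
    rw [h1, h2]
    exact and_comm
  have hc := continuous_of_step hstep
  have h3 : Continuous (fun x : X => (S (x, 0)).2) :=
    (hc.comp (continuous_id.prodMk continuous_const)).snd
  exact h3

end Pool.Agent.R275.StepIso
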